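import Pool.Agent.Helper68.C2.Chr

/-!
# Odd characters modulo nine of the Eisenstein integers
-/

set_option autoImplicit false
set_option linter.unusedSectionVars false

open Filter
open scoped Topology PeriodPair

namespace Pool.Agent.Helper68.C5.Chr5

open H667R3 Pool.Agent.W192.HK Pool.Agent.TH936.CM Pool.Agent.TH936.PU
open Pool.Agent.Y715.Dist Pool.Agent.Y715.Idn Pool.Agent.Y715.T.Lat Pool.Agent.Y696
open Pool.Agent.Y692.QS (Ei w toC)
open Pool.Agent.Y715.T.Rs (eq0)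
open Pool.Agent.Y703.CT (rq ex_q toC_w_add toC_eq')
open Pool.Agent.Y703.CT.Ana (ej eo_j ej_u ej_ncop ej_prim)
open Pool.Agent.Y715.CT.Hec (cop_la prime_la la_ne rd_la)
open Pool.Agent.Y715.T.LF (rd rd_ez rd_eq_zero)
open Pool.Agent.Y715.T.Three (lam lam_sq)
open Pool.Agent.Helper68.C2.Chr (norm_w_pow three_sum cop_mul_iff eq0_ez symm_ez)

/-! ### the logarithm modulo nine -/

/-- `A` with `α ^ 6 = 1 + 9 A` -/
def sx (α : Ei) : Ei := ⟨((α ^ 6).re - 1) / 9, (α ^ 6).im / 9⟩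

lemma re_nine (A : Ei) : (1 + 9 * A).re = 1 + 9 * A.re := by
  have e2 : (9 : Ei).re = 9 := rfl
  have e3 : (9 : Ei).im = 0 := rfl
  rw [QuadraticAlgebra.re_add, Pool.Agent.Y692.QS.mul_re, e2, e3]
  show (1 : ℤ) + _ = _
  ring

lemma im_nine (A : Ei) : (1 + 9 * A).im = 9 * A.im := by
  have e2 : (9 : Ei).re = 9 := rfl
  have e3 : (9 : Ei).im = 0 := rfl
  rw [QuadraticAlgebra.im_add, Pool.Agent.Y692.QS.mul_im, e2, e3]
  show (0 : ℤ) + _ = _
  ring

lemma sx_eq {α A : Ei} (h : α ^ 6 = 1 + 9 * A) : sx α = A := by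
  unfold sx
  rw [h, re_nine, im_nine]
  have e1 : (1 + 9 * A.re - 1) / 9 = A.re := by omega
  have e2 : 9 * A.im / 9 = A.im := by omega
  rw [e1, e2]

/-- the linear form -/
def lt (κ : ZMod 3) (A : Ei) : ZMod 3 := κ * (A.re : ZMod 3) - (1 - κ) * (A.im : ZMod 3)

lemma lt_add (κ : ZMod 3) (A B : Ei) : lt κ (A + B) = lt κ A + lt κ B := by
  unfold lt
  rw [QuadraticAlgebra.re_add, QuadraticAlgebra.im_add]
  push_cast
  ring

lemma lt_three (κ : ZMod 3) (A : Ei) : lt κ (3 * A) = 0 := by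
  have e2 : (3 : Ei).re = 3 := rfl
  have e3 : (3 : Ei).im = 0 := rfl
  have h3 : (3 : ZMod 3) = 0 := by decide
  unfold lt
  rw [Pool.Agent.Y692.QS.mul_re, Pool.Agent.Y692.QS.mul_im, e2, e3]
  push_cast
  rw [h3]
  ring

lemma lt_neg (κ : ZMod 3) (A : Ei) : lt κ (-A) = -lt κ A := by
  unfold lt
  rw [QuadraticAlgebra.re_neg, QuadraticAlgebra.im_neg]
  push_cast
  ring

/-- the logarithm -/
def ts (κ : ZMod 3) (α : Ei) : ZMod 3 := lt κ (sx α)

/-- the elements prime to three -/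
def Cp (α : Ei) : Prop := ∃ A : Ei, α ^ 6 = 1 + 9 * A

lemma Cp.mul {α β : Ei} (ha : Cp α) (hb : Cp β) : Cp (α * β) := by
  obtain ⟨A, hA⟩ := ha
  obtain ⟨B, hB⟩ := hb
  exact ⟨A + B + 9 * (A * B), by rw [mul_pow, hA, hB]; ring⟩

lemma ts_mul {κ : ZMod 3} {α β : Ei} (ha : Cp α) (hb : Cp β) :
    ts κ (α * β) = ts κ α + ts κ β := by
  obtain ⟨A, hA⟩ := ha
  obtain ⟨B, hB⟩ := hb
  have h : (α * β) ^ 6 = 1 + 9 * (A + B + 3 * (3 * (A * B))) := by rw [mul_pow, hA, hB]; ring
  unfold ts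
  rw [sx_eq h, sx_eq hA, sx_eq hB, lt_add, lt_three, add_zero, lt_add]

lemma ts_per {κ : ZMod 3} {α β : Ei} (hb : Cp β) (h : (9 : Ei) ∣ α - β) : ts κ α = ts κ β := by
  obtain ⟨B, hB⟩ := hb
  obtain ⟨t, ht⟩ := h
  have e : α = β + 9 * t := by linear_combination ht
  have h1 : α ^ 6 = 1 + 9 * (B + 3 * (2 * (β ^ 5 * t) + 45 * (β ^ 4 * t ^ 2) + 540 * (β ^ 3 * t ^ 3)
      + 3645 * (β ^ 2 * t ^ 4) + 13122 * (β * t ^ 5) + 19683 * t ^ 6)) := by
    rw [e]
    linear_combination hB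
  unfold ts
  rw [sx_eq h1, sx_eq hB, lt_add, lt_three, add_zero]

lemma ts_neg (κ : ZMod 3) (α : Ei) : ts κ (-α) = ts κ α := by
  unfold ts sx
  rw [Even.neg_pow (by decide)]

lemma ts_u {κ : ZMod 3} {α : Ei} (h : α ^ 6 = 1) : ts κ α = 0 := by
  have h1 : α ^ 6 = 1 + 9 * 0 := by rw [h]; ring
  unfold ts
  rw [sx_eq h1]
  unfold lt
  show κ * ((0 : ℤ) : ZMod 3) - (1 - κ) * ((0 : ℤ) : ZMod 3) = 0
  push_cast
  ring

lemma prim_six (t : Ei) : (1 + 3 * t) ^ 6 = 1 + 9 * (-t + 3 * (t + 5 * t ^ 2 + 20 * t ^ 3 +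
    45 * t ^ 4 + 54 * t ^ 5 + 27 * t ^ 6)) := by ring

lemma cp_prim (t : Ei) : Cp (1 + 3 * t) := ⟨_, prim_six t⟩

lemma ts_prim (κ : ZMod 3) (t : Ei) : ts κ (1 + 3 * t) = -lt κ t := by
  unfold ts
  rw [sx_eq (prim_six t), lt_add, lt_three, add_zero, lt_neg]

lemma cp_u {u s : Ei} (hu : u ^ 6 = 1) : Cp (u + 3 * s) := by
  refine ⟨2 * (u ^ 5 * s) + 15 * (u ^ 4 * s ^ 2) + 60 * (u ^ 3 * s ^ 3) + 135 * (u ^ 2 * s ^ 4) +
    162 * (u * s ^ 5) + 81 * s ^ 6, ?_⟩
  linear_combination hu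

/-! ### on the subring of the complex numbers -/

/-- the logarithm on the subring -/
noncomputable def tl (κ : ZMod 3) (x : eis) : ZMod 3 := ts κ (eq0.symm x)

/-- the linear form on the subring -/
noncomputable def ll (κ : ZMod 3) (x : eis) : ZMod 3 := -lt κ (eq0.symm x)

lemma unit_six {u : eis} (hu : IsUnit u) : (eq0.symm u) ^ 6 = 1 := by
  have h1 : u = 1 ∨ u = -1 ∨ u = omr ∨ u = -omr ∨ u = omr ^ 2 ∨ u = -omr ^ 2 := by
    have := (unit_list u).1 hu
    simpa using this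
  have h3 : omr ^ 3 = 1 := by
    apply Subtype.ext
    push_cast
    rw [omr_coe, om_cube]
  have h2 : u ^ 6 = 1 := by
    have h6 : omr ^ 6 = 1 := by
      have : omr ^ 6 = (omr ^ 3) ^ 2 := by ring
      rw [this, h3, one_pow]
    rcases h1 with h | h | h | h | h | h
    · rw [h, one_pow]
    · rw [h, Even.neg_pow (by decide), one_pow]
    · rw [h, h6]
    · rw [h, Even.neg_pow (by decide), h6]
    · rw [h, ← pow_mul, mul_comm, pow_mul, h6, one_pow]
    · rw [h, Even.neg_pow (by decide), ← pow_mul, mul_comm, pow_mul, h6, one_pow]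
  rw [← map_pow, h2, map_one]

lemma cop_cp {x : eis} (h : IsCoprime x 3) : Cp (eq0.symm x) := by
  obtain ⟨u, hu, hux⟩ := cop_three h
  obtain ⟨t, ht⟩ := Ideal.mem_span_singleton'.1 hux
  have e : eq0.symm x = eq0.symm u + 3 * eq0.symm t := by
    have e1 : x = u + 3 * t := by linear_combination -ht
    rw [e1, map_add, map_mul, map_ofNat]
  rw [e]
  exact cp_u (unit_six hu)

lemma tl_mul {κ : ZMod 3} {x y : eis} (hx : IsCoprime x 3) (hy : IsCoprime y 3) :
    tl κ (x * y) = tl κ x + tl κ y := by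
  unfold tl
  rw [map_mul]
  exact ts_mul (cop_cp hx) (cop_cp hy)

lemma tl_unit {κ : ZMod 3} {u : eis} (hu : IsUnit u) : tl κ u = 0 := ts_u (unit_six hu)

lemma tl_neg (κ : ZMod 3) (x : eis) : tl κ (-x) = tl κ x := by
  unfold tl
  rw [map_neg, ts_neg]

lemma tl_prim (κ : ZMod 3) (t : eis) : tl κ (1 + 3 * t) = ll κ t := by
  unfold tl ll
  rw [map_add, map_one, map_mul, map_ofNat, ts_prim]

lemma ll_add (κ : ZMod 3) (s t : eis) : ll κ (s + t) = ll κ s + ll κ t := by
  unfold ll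
  rw [map_add, lt_add]
  ring

lemma ll_neg (κ : ZMod 3) (s : eis) : ll κ (-s) = -ll κ s := by
  unfold ll
  rw [map_neg, lt_neg]

lemma ll_zero (κ : ZMod 3) : ll κ 0 = 0 := by
  have := ll_add κ 0 0
  rw [add_zero] at this
  simpa using this

lemma ll_per {κ : ZMod 3} {s t : eis} (h : s - t ∈ (sp 3 : Ideal eis)) : ll κ s = ll κ t := by
  obtain ⟨r, hr⟩ := Ideal.mem_span_singleton'.1 h
  have e : s = t + 3 * r := by linear_combination -hr
  rw [e, ll_add]
  have h1 : ll κ (3 * r) = 0 := by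
    unfold ll
    rw [map_mul, map_ofNat, lt_three, neg_zero]
  rw [h1, add_zero]

lemma ll_ez (κ : ZMod 3) (a b : ℤ) : ll κ (ez a b) = (1 - κ) * (b : ZMod 3) - κ * (a : ZMod 3) := by
  unfold ll
  rw [symm_ez]
  unfold lt
  show -(κ * (a : ZMod 3) - (1 - κ) * (b : ZMod 3)) = _
  ring

/-- the modulus `9` -/
noncomputable def ff : eis := 3 * 3

lemma ff_ne : ff ≠ 0 := mul_ne_zero Pool.Agent.Y696.three_ne Pool.Agent.Y696.three_ne

lemma sp_ff_three {x : eis} (h : x ∈ (sp ff : Ideal eis)) : x ∈ (sp 3 : Ideal eis) :=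
  sp_mul_le h

lemma cop_per {x y : eis} (h : x - y ∈ (sp 3 : Ideal eis)) (hy : IsCoprime y 3) :
    IsCoprime x 3 := by
  obtain ⟨u, hu, huy⟩ := cop_three hy
  refine cop_of_unit hu ?_
  have := add_mem h huy
  convert this using 1
  ring

lemma tl_per {κ : ZMod 3} {x y : eis} (hy : IsCoprime y 3) (h : x - y ∈ (sp ff : Ideal eis)) :
    tl κ x = tl κ y := by
  unfold tl
  refine ts_per (cop_cp hy) ?_
  obtain ⟨t, ht⟩ := Ideal.mem_span_singleton'.1 h
  refine ⟨eq0.symm t, ?_⟩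
  have e : x - y = 9 * t := by
    unfold ff at ht
    linear_combination -ht
  rw [← map_sub, e, map_mul, map_ofNat]

/-! ### the characters -/

/-- the odd characters modulo `9` -/
noncomputable def ek (κ : ZMod 3) (j : Fin 3) (x : eis) : ℂ := ej j x * toC w ^ (tl κ x).val

variable {κ : ZMod 3}

lemma ek_ncop (j : Fin 3) {x : eis} (hx : ¬ IsCoprime x 3) : ek κ j x = 0 := by
  unfold ek
  rw [ej_ncop j hx, zero_mul]

lemma eo_k (κ : ZMod 3) (j : Fin 3) : Eo ff (ek κ j) := by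
  refine ⟨fun x y hxy => ?_, fun x y => ?_, fun x => ?_, fun x => ?_⟩
  · by_cases hy : IsCoprime y 3
    · unfold ek
      rw [(eo_j j).per x y (sp_ff_three hxy), tl_per hy hxy]
    · rw [ek_ncop j hy]
      refine ek_ncop j fun hx => hy (cop_per (x := y) (y := x) ?_ hx)
      have := neg_mem (sp_ff_three hxy)
      rwa [neg_sub] at this
  · by_cases hx : IsCoprime x 3
    · by_cases hy : IsCoprime y 3
      · unfold ek
        rw [(eo_j j).mul, tl_mul hx hy, toC_w_add]
        ring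
      · rw [ek_ncop j hy, mul_zero]
        exact ek_ncop j fun h => hy (cop_mul_iff.1 h).2
    · rw [ek_ncop j hx, zero_mul]
      exact ek_ncop j fun h => hx (cop_mul_iff.1 h).1
  · unfold ek
    rw [(eo_j j).neg, tl_neg, neg_mul]
  · unfold ek
    rw [norm_mul, norm_w_pow, mul_one]
    exact (eo_j j).bd x

lemma ek_u (j : Fin 3) {u : eis} (hu : IsUnit u) : ek κ j u = (u : ℂ) ^ (2 * (j : ℕ) + 1) := by
  unfold ek
  rw [ej_u j hu, tl_unit hu, ZMod.val_zero, pow_zero, mul_one]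

lemma ek_prim' (j : Fin 3) {x : eis} (h : x - 1 ∈ (sp 3 : Ideal eis)) :
    ek κ j x = toC w ^ (tl κ x).val := by
  unfold ek
  rw [ej_prim j h, one_mul]

lemma ek_prim (j : Fin 3) (t : eis) : ek κ j (1 + 3 * t) = toC w ^ (ll κ t).val := by
  rw [ek_prim' j, tl_prim]
  rw [Ideal.mem_span_singleton']
  exact ⟨t, by ring⟩

/-! ### sums over the residue classes -/

/-- the sum over the residue classes modulo three -/
noncomputable def N9 (F : eis → ℂ) : ℂ :=
  F 0 + (F la + F (-la)) + (F 1 + F (-1)) + (F omr + F (-omr)) + (F (omr ^ 2) + F (-omr ^ 2))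

theorem nine_sum (F : eis → ℂ)
    (hper : ∀ x y : eis, x - y ∈ (sp 3 : Ideal eis) → F x = F y) : Sm 3 F = N9 F := by
  classical
  have hfin := Pool.Agent.Y715.T.LF.fin_quot
  have h3n := Pool.Agent.Y696.three_ne
  have : Finite (eis ⧸ (sp 3 : Ideal eis)) := hfin _ h3n
  have : Fintype (eis ⧸ (sp 3 : Ideal eis)) := Fintype.ofFinite _
  have : Finite (eis ⧸ (sp la : Ideal eis)) := hfin _ la_ne
  have : Fintype (eis ⧸ (sp la : Ideal eis)) := Fintype.ofFinite _
  have e3 : (3 : eis) = -la * la := by rw [neg_mul, la_sq, neg_neg]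
  have hla3 : ∀ x : eis, x ∈ (sp 3 : Ideal eis) → x ∈ (sp (-la) : Ideal eis) := by
    intro x hx
    rw [e3] at hx
    exact sp_mul_le' hx
  -- the two parts
  set F1 : eis → ℂ := fun x => if x ∈ (sp (-la) : Ideal eis) then F x else 0 with hF1
  set F2 : eis → ℂ := fun x => if x ∈ (sp (-la) : Ideal eis) then 0 else F x with hF2
  have hsplit : Sm 3 F = Sm 3 F1 + Sm 3 F2 := by
    rw [← Sm_add]
    congr 1
    funext x
    rw [hF1, hF2]
    beta_reduce
    by_cases hx : x ∈ (sp (-la) : Ideal eis)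
    · rw [if_pos hx, if_pos hx, add_zero]
    · rw [if_neg hx, if_neg hx, zero_add]
  have h1 : Sm 3 F1 = F 0 + F la + F (-la) := by
    have h2 : Sm (-la * la) F1 = Sm la (fun x => F (-la * x)) := by
      rw [hF1]
      refine Sm_div la_ne hfin (neg_ne_zero.2 la_ne) ?_
      intro x y hxy
      rw [← e3] at hxy
      exact hper x y hxy
    rw [e3, h2, Sm_eq, three_sum (fun x => F (-la * x))]
    · rw [mul_zero, mul_one, mul_neg, neg_mul, neg_neg, mul_one]
      ring
    · intro x y hxy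
      apply hper
      obtain ⟨t, ht⟩ := Ideal.mem_span_singleton'.1 hxy
      rw [Ideal.mem_span_singleton']
      refine ⟨t, ?_⟩
      linear_combination -la * ht + t * la_sq
  have hmem : ∀ x y : eis, x - y ∈ (sp 3 : Ideal eis) →
      (x ∈ (sp (-la) : Ideal eis) ↔ y ∈ (sp (-la) : Ideal eis)) := by
    intro x y hxy
    have h2 := hla3 _ hxy
    constructor
    · intro h3
      have := sub_mem h3 h2
      rwa [sub_sub_cancel] at this
    · intro h3
      have := add_mem h2 h3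
      rwa [sub_add_cancel] at this
  have hnu : ∀ u : eis, IsUnit u → u ∉ (sp (-la) : Ideal eis) := by
    intro u hu h2
    obtain ⟨t, ht⟩ := Ideal.mem_span_singleton'.1 h2
    have h4 : IsUnit (t * -la) := by rw [ht]; exact hu
    have h5 := isUnit_of_mul_isUnit_right h4
    exact prime_la.not_isUnit ((IsUnit.neg_iff _).1 h5)
  have h2 : Sm 3 F2 = F 1 + F (-1) + F omr + F (-omr) + F (omr ^ 2) + F (-omr ^ 2) := by
    rw [Sm_eq, six_sum F2]
    · have key : ∀ u : eis, IsUnit u → F2 u = F u := by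
        intro u hu
        rw [hF2]
        beta_reduce
        rw [if_neg (hnu u hu)]
      have hu : ∀ v ∈ ({1, -1, omr, -omr, omr ^ 2, -omr ^ 2} : Set eis), IsUnit v := fun v hv =>
        (unit_list v).2 hv
      rw [key 1 (hu _ (by simp)), key (-1) (hu _ (by simp)), key omr (hu _ (by simp)),
        key (-omr) (hu _ (by simp)), key (omr ^ 2) (hu _ (by simp)),
        key (-omr ^ 2) (hu _ (by simp))]
    · intro x hx
      rw [hF2]
      have hx1 : x ∈ (sp (-la) : Ideal eis) := by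
        by_contra hcon
        apply hx
        have hrd : rd x ≠ 0 := by
          intro h0
          apply hcon
          obtain ⟨t, ht⟩ := rd_eq_zero h0
          rw [Ideal.mem_span_singleton']
          exact ⟨-t, by rw [ht]; ring⟩
        have h4 : IsCoprime x la := by
          rw [isCoprime_comm, prime_la.irreducible.coprime_iff_not_dvd]
          rintro ⟨t, ht⟩
          apply hrd
          rw [ht, map_mul, rd_la, zero_mul]
        rw [e3]
        exact (h4.neg_right).mul_right h4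
      beta_reduce
      rw [if_pos hx1]
    · intro x y hxy
      rw [hF2]
      beta_reduce
      by_cases hx : x ∈ (sp (-la) : Ideal eis)
      · rw [if_pos hx, if_pos ((hmem x y hxy).1 hx)]
      · have hy : y ∉ (sp (-la) : Ideal eis) := fun hy => hx ((hmem x y hxy).2 hy)
        rw [if_neg hx, if_neg hy]
        exact hper x y hxy
  rw [hsplit, h1, h2]
  unfold N9
  ring

theorem fifty_sum [Fintype (eis ⧸ (sp ff : Ideal eis))] (F : eis → ℂ)
    (hF0 : ∀ x, ¬ IsCoprime x 3 → F x = 0)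
    (hper : ∀ x y : eis, x - y ∈ (sp ff : Ideal eis) → F x = F y) :
    ∑ y : eis ⧸ (sp ff : Ideal eis), F y.out =
      (fun u : eis => N9 (fun t => F (u * (1 + 3 * t)))) 1 +
      (fun u : eis => N9 (fun t => F (u * (1 + 3 * t)))) (-1) +
      (fun u : eis => N9 (fun t => F (u * (1 + 3 * t)))) omr +
      (fun u : eis => N9 (fun t => F (u * (1 + 3 * t)))) (-omr) +
      (fun u : eis => N9 (fun t => F (u * (1 + 3 * t)))) (omr ^ 2) +
      (fun u : eis => N9 (fun t => F (u * (1 + 3 * t)))) (-omr ^ 2) := by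
  have hfin := Pool.Agent.Y715.T.LF.fin_quot
  have h3n := Pool.Agent.Y696.three_ne
  have : Finite (eis ⧸ (sp 3 : Ideal eis)) := hfin _ h3n
  have : Fintype (eis ⧸ (sp 3 : Ideal eis)) := Fintype.ofFinite _
  have h1 : ∑ y : eis ⧸ (sp ff : Ideal eis), F y.out = Sm ff F := (Sm_eq ff F).symm
  have h2 : Sm ff F = Sm 3 (fun x => Sm 3 (fun t => F (x + 3 * t))) :=
    Sm_mul h3n hfin h3n hper
  rw [h1, h2, Sm_eq]
  have hinner : ∀ x : eis, ∀ a b : eis, a - b ∈ (sp 3 : Ideal eis) →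
      F (x + 3 * a) = F (x + 3 * b) := by
    intro x a b hab
    apply hper
    obtain ⟨t, ht⟩ := Ideal.mem_span_singleton'.1 hab
    rw [Ideal.mem_span_singleton']
    refine ⟨t, ?_⟩
    unfold ff
    linear_combination 3 * ht
  have hGper : ∀ x y : eis, x - y ∈ (sp 3 : Ideal eis) →
      Sm 3 (fun t => F (x + 3 * t)) = Sm 3 (fun t => F (y + 3 * t)) := by
    intro x y hxy
    obtain ⟨s, hs⟩ := Ideal.mem_span_singleton'.1 hxy
    have e1 : ∀ t : eis, x + 3 * t = y + 3 * (s + t) := by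
      intro t
      linear_combination -hs
    simp only [e1]
    exact Sm_shift (hfin _ h3n) s (F := fun t => F (y + 3 * t)) (hinner y)
  have hG0 : ∀ x : eis, ¬ IsCoprime x 3 → Sm 3 (fun t => F (x + 3 * t)) = 0 := by
    intro x hx
    have key : ∀ t : eis, F (x + 3 * t) = 0 := by
      intro t
      apply hF0
      intro h
      apply hx
      exact (IsCoprime.add_mul_left_left_iff (z := t)).1 h
    rw [Sm_eq]
    exact Finset.sum_eq_zero fun q _ => key _
  rw [six_sum (fun x => Sm 3 (fun t => F (x + 3 * t))) hG0 hGper]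
  have hterm : ∀ u : eis, IsUnit u → Sm 3 (fun t => F (u + 3 * t)) =
      N9 (fun t => F (u * (1 + 3 * t))) := by
    intro u hu
    have hper' : ∀ x y : eis, x - y ∈ (sp 3 : Ideal eis) →
        F (u + 3 * (u * x)) = F (u + 3 * (u * y)) := by
      intro x y hxy
      apply hinner
      rw [← mul_sub]
      exact Ideal.mul_mem_left _ _ hxy
    have h4 : Sm 3 (fun t => F (u + 3 * t)) = Sm 3 (fun t => F (u + 3 * (u * t))) := by
      rw [Sm_eq, Sm_eq]
      have hcop : IsCoprime (3 : eis) u := by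
        obtain ⟨v, hv⟩ := hu.exists_left_inv
        exact ⟨0, v, by rw [zero_mul, zero_add, hv]⟩
      exact (sum_mul_bij hcop (F := fun t => F (u + 3 * t)) (hinner u)).symm
    rw [h4, nine_sum (fun t => F (u + 3 * (u * t))) hper']
    congr 1
    funext t
    congr 1
    ring
  have hrd : ∀ v ∈ ({1, -1, omr, -omr, omr ^ 2, -omr ^ 2} : Set eis), IsUnit v := fun v hv =>
    (unit_list v).2 hv
  rw [hterm 1 (hrd _ (by simp)), hterm (-1) (hrd _ (by simp)), hterm omr (hrd _ (by simp)),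
    hterm (-omr) (hrd _ (by simp)), hterm (omr ^ 2) (hrd _ (by simp)),
    hterm (-omr ^ 2) (hrd _ (by simp))]

end Pool.Agent.Helper68.C5.Chr5
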