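import Pool.Agent.Helper68.C2.Defs2
import Pool.Agent.Helper68.C5.Chr5

/-!
# Cubic twists by `3 ω^k ∏ π_j^(e_j)`: definitions
-/

set_option autoImplicit false

open scoped Classical

namespace Pool.Agent.Helper68.C5

open Pool.Agent.Y692.QS (Ei w toC)
open Pool.Agent.Y703.CT (chD rq Dt pD)
open Pool.Agent.Y715.T.Rec (cs)
open Pool.Agent.Helper68.C5.Chr5 (ts)

/-- `F` is the entire continuation of the `L`-series of the Hecke character
`(α) ↦ α ∏ (α / π_j)^(e_j) w^(-ℓ(α))`, `α = 1 + 3 (x + y w)`, `ℓ(α) = y - κ (x + y)` -/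
def IsHL5 {J : Type} [Fintype J] (π : J → Ei) (e : J → ZMod 3) (κ : ZMod 3) (F : ℂ → ℂ) : Prop :=
  Differentiable ℂ F ∧ ∀ s : ℂ, 3 / 2 < s.re →
    HasSum (fun α : {α : Ei // (3 : Ei) ∣ α - 1} =>
      toC α * (chD π e α * toC w ^ (-(ts κ (α : Ei))).val) *
        ((Pool.Agent.Y692.QS.nr (α : Ei) : ℤ) : ℂ) ^ (-s)) (F s)

/-- the twisting element `3 w^κ ∏ π_j^(e_j)` -/
def pD5 {J : Type} [Fintype J] (π : J → Ei) (e : J → ZMod 3) (κ : ZMod 3) : Ei :=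
  3 * w ^ κ.val * pD π e

/-- the Laplacian with the extra vertex `3 w^κ` is invertible -/
def KerW {J : Type} [Fintype J] (π : J → Ei) (e : J → ZMod 3) (κ : ZMod 3) : Prop :=
  ∀ v : J → ZMod 3, (∀ j, ∑ i, e i * cs (π j) (π i) * (v i - v j) = ts κ (π j) * v j) →
    ∀ j, v j = 0

end Pool.Agent.Helper68.C5
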