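import Pool.Graph.R_seed8.Y405.CT.CriB
import Pool.Graph.R_seed8.Y350.CT.REC
import Pool.Graph.R_seed8.Y696.CT.Eu
import Pool.Agent.Helper68.C2.LK2
import Pool.Agent.Helper68.C5.Chr5

/-!
# The supplementary laws of cubic reciprocity
-/

set_option autoImplicit false
set_option linter.unusedSectionVars false

open scoped Classical

namespace Pool.Agent.Helper68.C5.Sup5

open Pool.Agent.Y692.QS (Ei w nr nr_mul ns ns_mul star_im star_re isUnit_iff nr_nonneg)
open Pool.Agent.Y715.T.Rec (cs)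
open Pool.Agent.Y715.T.RecG (Pq cs_mul cs_congr cs_neg cs_pow cs_one)
open Pool.Agent.Y696.CT (ns_prim ns_assoc ns_unit ns_of_prim ep_ndvd)
open Pool.Agent.Y405.CT (pq_star cs_starG eq_of_dvdG)
open Pool.Agent.Helper68.C2.Chr (tq tq_mul)
open Pool.Agent.Helper68.C2.LK2 (cs_w nr_three w_unit not_dvd_w)
open Pool.Agent.Helper68.C5.Chr5 (ts ts_prim lt)

/-! ### factorization into primary primes -/

lemma ex_fac {A : Ei} (h : (3 : Ei) ∣ A - 1) :
    ∃ M : Multiset Ei, (∀ ρ ∈ M, Pq ρ) ∧ M.prod = A := by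
  have hA3 := ep_ndvd h
  have hA : A ≠ 0 := by
    rintro rfl
    apply hA3
    show (3 : ℤ) ∣ nr 0
    decide
  obtain ⟨f, hf, hfA⟩ := UniqueFactorizationMonoid.exists_prime_factors A hA
  have hnd : ∀ b ∈ f, ¬ (3 : ℤ) ∣ nr b := by
    intro b hb h3
    apply hA3
    obtain ⟨c, hc⟩ := (Multiset.dvd_prod hb).trans hfA.dvd
    rw [hc, nr_mul]
    exact Dvd.dvd.mul_right h3 _
  refine ⟨f.map ns, ?_, ?_⟩
  · intro ρ hρ
    obtain ⟨b, hb, rfl⟩ := Multiset.mem_map.1 hρ
    exact ⟨(ns_assoc (hnd b hb)).symm.prime (hf b hb), ns_prim (hnd b hb)⟩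
  · have h1 : ∀ g : Multiset Ei, (g.map ns).prod = ns g.prod := by
      intro g
      induction g using Multiset.induction_on with
      | empty =>
        rw [Multiset.map_zero, Multiset.prod_zero, ns_unit isUnit_one]
      | cons a s ih =>
        rw [Multiset.map_cons, Multiset.prod_cons, Multiset.prod_cons, ns_mul, ih]
    rw [h1, ← ns_of_prim h]
    exact (Pool.Agent.Y696.CT.ns_of_assoc hfA).1

lemma fac_uniq {M M' : Multiset Ei} (h : ∀ ρ ∈ M, Pq ρ) (h' : ∀ ρ ∈ M', Pq ρ)
    (he : M.prod = M'.prod) : M = M' := by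
  have h1 : Multiset.Rel Associated M M' := by
    apply UniqueFactorizationMonoid.factors_unique
    · exact fun x hx => (h x hx).prime.irreducible
    · exact fun x hx => (h' x hx).prime.irreducible
    · exact Associated.of_eq he
  rw [← Multiset.rel_eq]
  refine h1.mono fun a ha b hb hab => ?_
  have h2 := (Pool.Agent.Y696.CT.ns_of_assoc hab).1
  rwa [ns_of_prim (h a ha).three, ns_of_prim (h' b hb).three] at h2

/-- the sum of the symbols -/
noncomputable def JJ (M : Multiset Ei) (x : Ei) : ZMod 3 := (M.map fun ρ => cs ρ x).sum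

lemma JJ_mul {M : Multiset Ei} (h : ∀ ρ ∈ M, Pq ρ) {x y : Ei} (hx : ∀ ρ ∈ M, ¬ ρ ∣ x)
    (hy : ∀ ρ ∈ M, ¬ ρ ∣ y) : JJ M (x * y) = JJ M x + JJ M y := by
  unfold JJ
  rw [← Multiset.sum_map_add]
  congr 1
  refine Multiset.map_congr rfl fun ρ hρ => ?_
  exact cs_mul (h ρ hρ).prime (h ρ hρ).norm (hx ρ hρ) (hy ρ hρ)

lemma JJ_congr {M : Multiset Ei} (h : ∀ ρ ∈ M, Pq ρ) {x y : Ei} (hx : ∀ ρ ∈ M, ¬ ρ ∣ x)
    (hxy : ∀ ρ ∈ M, ρ ∣ x - y) : JJ M x = JJ M y := by
  unfold JJ
  congr 1
  refine Multiset.map_congr rfl fun ρ hρ => ?_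
  exact cs_congr (h ρ hρ).prime (h ρ hρ).norm (hx ρ hρ) (hxy ρ hρ)

lemma JJ_w {M : Multiset Ei} (h : ∀ ρ ∈ M, Pq ρ) : JJ M w = tq M.prod := by
  unfold JJ
  induction M using Multiset.induction_on with
  | empty =>
    rw [Multiset.map_zero, Multiset.sum_zero, Multiset.prod_zero]
    decide
  | cons a s ih =>
    have ha := h a (Multiset.mem_cons_self a s)
    have hs : ∀ ρ ∈ s, Pq ρ := fun ρ hρ => h ρ (Multiset.mem_cons_of_mem hρ)
    rw [Multiset.map_cons, Multiset.sum_cons, Multiset.prod_cons, ih hs, cs_w ha, tq_mul]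
    · exact nr_three (ep_ndvd ha.three)
    · refine nr_three (ep_ndvd ?_)
      clear ih h
      induction s using Multiset.induction_on with
      | empty =>
        rw [Multiset.prod_zero, sub_self]
        exact dvd_zero _
      | cons b t ih =>
        have hb := hs b (Multiset.mem_cons_self b t)
        have h1 := ih fun ρ hρ => hs ρ (Multiset.mem_cons_of_mem hρ)
        rw [Multiset.prod_cons]
        have e : b * t.prod - 1 = b * (t.prod - 1) + (b - 1) := by ring
        rw [e]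
        exact dvd_add (Dvd.dvd.mul_left h1 _) hb.three

lemma JJ_rec {M : Multiset Ei} (h : ∀ ρ ∈ M, Pq ρ) {π : Ei} (hπ : Pq π) (hn : ¬ π ∣ M.prod) :
    cs π M.prod = JJ M π := by
  unfold JJ
  induction M using Multiset.induction_on with
  | empty =>
    rw [Multiset.map_zero, Multiset.sum_zero, Multiset.prod_zero]
    exact cs_one hπ.prime hπ.norm
  | cons a s ih =>
    have ha := h a (Multiset.mem_cons_self a s)
    have hs : ∀ ρ ∈ s, Pq ρ := fun ρ hρ => h ρ (Multiset.mem_cons_of_mem hρ)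
    rw [Multiset.prod_cons] at hn ⊢
    have h1 : ¬ π ∣ a := fun h2 => hn (Dvd.dvd.mul_right h2 _)
    have h2 : ¬ π ∣ s.prod := fun h2 => hn (Dvd.dvd.mul_left h2 _)
    rw [Multiset.map_cons, Multiset.sum_cons, cs_mul hπ.prime hπ.norm h1 h2, ih hs h2,
      Pool.Agent.Y350.CT.rec a π ha hπ h1]

lemma three_double {c : ZMod 3} (h : c = -c) : c = 0 := by
  revert h
  revert c
  decide

lemma JJ_rat {M : Multiset Ei} (h : ∀ ρ ∈ M, Pq ρ) (hM : star M.prod = M.prod) {m : Ei}
    (hm : star m = m) (hn : ∀ ρ ∈ M, ¬ ρ ∣ m) : JJ M m = 0 := by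
  have h1 : M.map star = M := by
    apply fac_uniq
    · intro ρ hρ
      obtain ⟨b, hb, rfl⟩ := Multiset.mem_map.1 hρ
      exact pq_star (h b hb)
    · exact h
    · rw [← hM]
      have key : ∀ s : Multiset Ei, (s.map star).prod = star s.prod := by
        intro s
        induction s using Multiset.induction_on with
        | empty => rw [Multiset.map_zero, Multiset.prod_zero, star_one]
        | cons a s ih =>
          rw [Multiset.map_cons, Multiset.prod_cons, Multiset.prod_cons, star_mul', ih]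
      exact key M
  apply three_double
  unfold JJ
  conv_lhs => rw [← h1]
  rw [Multiset.map_map, ← Multiset.sum_map_neg]
  congr 1
  refine Multiset.map_congr rfl fun ρ hρ => ?_
  show cs (star ρ) m = -cs ρ m
  have h2 := cs_starG (h ρ hρ) (hn ρ hρ)
  rwa [hm] at h2

/-! ### the prime above three -/

lemma star_int (n : ℤ) : star ((n : ℤ) : Ei) = ((n : ℤ) : Ei) := by
  apply QuadraticAlgebra.ext
  · rw [star_re, QuadraticAlgebra.re_intCast, QuadraticAlgebra.im_intCast, sub_zero]
  · rw [star_im, QuadraticAlgebra.im_intCast, neg_zero]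

lemma eq_re_im (π : Ei) : π = ((π.re : ℤ) : Ei) + ((π.im : ℤ) : Ei) * w := by
  apply QuadraticAlgebra.ext
  · rw [QuadraticAlgebra.re_add, Pool.Agent.Y692.QS.mul_re, QuadraticAlgebra.re_intCast,
      QuadraticAlgebra.re_intCast, QuadraticAlgebra.im_intCast]
    show π.re = π.re + (π.im * 0 - 0 * 1)
    ring
  · rw [QuadraticAlgebra.im_add, Pool.Agent.Y692.QS.mul_im, QuadraticAlgebra.im_intCast,
      QuadraticAlgebra.re_intCast, QuadraticAlgebra.im_intCast]
    show π.im = 0 + (π.im * 1 + 0 * 0 - 0 * 1)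
    ring

lemma not_both {π : Ei} (h : Pq π) (h0 : π.im ≠ 0) (h1 : π ∣ ((π.re : ℤ) : Ei))
    (h2 : π ∣ ((π.im : ℤ) : Ei)) : False := by
  have hs := pq_star h
  have hne : ¬ star π ∣ π := by
    intro h3
    have h4 := eq_of_dvdG h hs h3
    have h5 := congrArg QuadraticAlgebra.im h4
    rw [star_im] at h5
    omega
  have key : ∀ n : ℤ, π ∣ ((n : ℤ) : Ei) → ∃ c, ((n : ℤ) : Ei) = π * star π * c := by
    intro n hn
    obtain ⟨c, hc⟩ := hn
    have h3 : star π ∣ π * c := by
      rw [← hc, ← star_int n, hc, star_mul']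
      exact Dvd.intro _ rfl
    rcases hs.prime.dvd_or_dvd h3 with h4 | h4
    · exact absurd h4 hne
    · obtain ⟨d, hd⟩ := h4
      exact ⟨d, by rw [hc, hd]; ring⟩
  obtain ⟨c, hc⟩ := key _ h1
  obtain ⟨d, hd⟩ := key _ h2
  have h3 := eq_re_im π
  rw [hc, hd] at h3
  have h4 : π * 1 = π * (star π * (c + d * w)) := by
    rw [mul_one]
    conv_lhs => rw [h3]
    ring
  have h5 := mul_left_cancel₀ h.prime.ne_zero h4
  exact hs.prime.not_isUnit (IsUnit.of_mul_eq_one _ h5.symm)

theorem sup {π : Ei} (h : Pq π) : cs π 3 = ((π.im / 3 : ℤ) : ZMod 3) := by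
  have hst3 : star (3 : Ei) = 3 := by
    have := star_int 3
    exact_mod_cast this
  by_cases h0 : π.im = 0
  · have h1 : star π = π := by
      have h2 := eq_re_im π
      rw [h0, Int.cast_zero, zero_mul, add_zero] at h2
      rw [h2, star_int]
    have h2 := cs_starG h h.norm
    rw [h1, hst3] at h2
    rw [h0, three_double h2]
    decide
  · obtain ⟨k, hk⟩ := h.three
    set a : ℤ := π.re with ha
    set b : ℤ := π.im with hb
    have hab : π = ((a : ℤ) : Ei) + ((b : ℤ) : Ei) * w := eq_re_im π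
    have ex : a = 1 + 3 * k.re := by
      have h1 := congrArg QuadraticAlgebra.re hk
      rw [QuadraticAlgebra.re_sub, Pool.Agent.Y692.QS.mul_re] at h1
      have e1 : (3 : Ei).re = 3 := rfl
      have e2 : (3 : Ei).im = 0 := rfl
      have e3 : (1 : Ei).re = 1 := rfl
      rw [e1, e2, e3] at h1
      linarith
    have ey : b = 3 * k.im := by
      have h1 := congrArg QuadraticAlgebra.im hk
      rw [QuadraticAlgebra.im_sub, Pool.Agent.Y692.QS.mul_im] at h1
      have e1 : (3 : Ei).re = 3 := rfl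
      have e2 : (3 : Ei).im = 0 := rfl
      have e3 : (1 : Ei).im = 0 := rfl
      rw [e1, e2, e3] at h1
      linarith
    set x := k.re
    set y := k.im
    have h3 : (3 : ZMod 3) = 0 := by decide
    -- the divisibilities
    have hpb : ∀ n : ℤ, True := fun _ => trivial
    have na : ¬ π ∣ ((a : ℤ) : Ei) := by
      intro h1
      apply not_both h h0 h1
      have h2 : π ∣ ((b : ℤ) : Ei) * w := by
        have e : ((b : ℤ) : Ei) * w = π - ((a : ℤ) : Ei) := by rw [hab]; ring
        rw [e]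
        exact dvd_sub_self_left.2 h1
      exact (h.prime.dvd_or_dvd h2).resolve_right (not_dvd_w h.prime)
    have hlam : ¬ π ∣ 1 - w := by
      intro h1
      apply h.norm
      have e : (3 : Ei) = (1 - w) * (2 + w) := by decide
      rw [e]
      exact Dvd.dvd.mul_right h1 _
    have nab : ¬ π ∣ ((a + b : ℤ) : Ei) := by
      intro h1
      have h2 : π ∣ (1 - w) * ((a : ℤ) : Ei) := by
        have e : (1 - w) * ((a : ℤ) : Ei) = π - ((a + b : ℤ) : Ei) * w := by
          conv_rhs => rw [hab]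
          push_cast
          ring
        rw [e]
        exact dvd_sub_self_left.2 (Dvd.dvd.mul_right h1 _)
      rcases h.prime.dvd_or_dvd h2 with h4 | h4
      · exact hlam h4
      · exact na h4
    -- the factorizations
    have pa : (3 : Ei) ∣ ((a : ℤ) : Ei) - 1 := ⟨((x : ℤ) : Ei), by rw [ex]; push_cast; ring⟩
    have pab : (3 : Ei) ∣ ((a + b : ℤ) : Ei) - 1 :=
      ⟨((x + y : ℤ) : Ei), by rw [ex, ey]; push_cast; ring⟩
    obtain ⟨M, hM, hMa⟩ := ex_fac pa
    obtain ⟨N, hN, hNa⟩ := ex_fac pab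
    have nb : ∀ ρ : Ei, Pq ρ → ρ ∣ ((a : ℤ) : Ei) → ρ ∣ ((b : ℤ) : Ei) → False := by
      intro ρ hρ h1 h2
      have h4 : ρ ∣ π := by
        rw [hab]
        exact dvd_add h1 (Dvd.dvd.mul_right h2 _)
      have h5 := eq_of_dvdG h hρ h4
      rw [h5] at h1
      exact na h1
    have hMd : ∀ ρ ∈ M, ρ ∣ ((a : ℤ) : Ei) := fun ρ hρ => by
      rw [← hMa]
      exact Multiset.dvd_prod hρ
    have hNd : ∀ ρ ∈ N, ρ ∣ ((a + b : ℤ) : Ei) := fun ρ hρ => by
      rw [← hNa]
      exact Multiset.dvd_prod hρ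
    have hMb : ∀ ρ ∈ M, ¬ ρ ∣ ((b : ℤ) : Ei) := fun ρ hρ h2 => nb ρ (hM ρ hρ) (hMd ρ hρ) h2
    have hNb : ∀ ρ ∈ N, ¬ ρ ∣ ((b : ℤ) : Ei) := fun ρ hρ h2 => by
      refine nb ρ (hN ρ hρ) ?_ h2
      have e : ((a : ℤ) : Ei) = ((a + b : ℤ) : Ei) - ((b : ℤ) : Ei) := by push_cast; ring
      rw [e]
      exact dvd_sub (hNd ρ hρ) h2
    have hMπ : ∀ ρ ∈ M, ¬ ρ ∣ π := fun ρ hρ h2 => by
      have h5 := eq_of_dvdG h (hM ρ hρ) h2
      have := hMd ρ hρ
      rw [h5] at this
      exact na this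
    have hNπ : ∀ ρ ∈ N, ¬ ρ ∣ π := fun ρ hρ h2 => by
      have h5 := eq_of_dvdG h (hN ρ hρ) h2
      have := hNd ρ hρ
      rw [h5] at this
      exact nab this
    have hNl : ∀ ρ ∈ N, ¬ ρ ∣ w - 1 := fun ρ hρ h2 => by
      apply (hN ρ hρ).norm
      have e : (3 : Ei) = (w - 1) * -(2 + w) := by decide
      rw [e]
      exact Dvd.dvd.mul_right h2 _
    -- the first symbol
    have s1 : cs π ((a : ℤ) : Ei) = tq ((a : ℤ) : Ei) := by
      rw [← hMa, JJ_rec hM h (by rw [hMa]; exact na)]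
      rw [JJ_congr hM hMπ (y := ((b : ℤ) : Ei) * w) fun ρ hρ => by
        have e : π - ((b : ℤ) : Ei) * w = ((a : ℤ) : Ei) := by
          conv_lhs => rw [hab]
          ring
        rw [e]
        exact hMd ρ hρ]
      rw [JJ_mul hM hMb fun ρ hρ => not_dvd_w (hM ρ hρ).prime, JJ_w hM,
        JJ_rat hM (by rw [hMa, star_int]) (star_int b) hMb, zero_add]
    -- the second symbol
    have s2 : cs π ((a + b : ℤ) : Ei) = -tq ((a + b : ℤ) : Ei) := by
      have h4 : JJ N (w - 1) = -tq ((a + b : ℤ) : Ei) := by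
        have h5 : JJ N ((w - 1) * (w - 1)) = JJ N (w - 1) + JJ N (w - 1) := JJ_mul hN hNl hNl
        have e : (w - 1 : Ei) * (w - 1) = ((-3 : ℤ) : Ei) * w := by decide
        have hN3 : ∀ ρ ∈ N, ¬ ρ ∣ ((-3 : ℤ) : Ei) := fun ρ hρ h6 => by
          apply (hN ρ hρ).norm
          have e2 : ((-3 : ℤ) : Ei) = -3 := by push_cast; ring
          rw [e2] at h6
          exact (dvd_neg).1 h6
        rw [e, JJ_mul hN hN3 (fun ρ hρ => not_dvd_w (hN ρ hρ).prime),
          JJ_rat hN (by rw [hNa, star_int]) (star_int (-3)) hN3, zero_add, JJ_w hN, hNa] at h5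
        rw [h5]
        generalize JJ N (w - 1) = c
        revert c
        decide
      rw [← hNa, JJ_rec hN h (by rw [hNa]; exact nab), hNa]
      rw [JJ_congr hN hNπ (y := ((b : ℤ) : Ei) * (w - 1)) fun ρ hρ => by
        have e : π - ((b : ℤ) : Ei) * (w - 1) = ((a + b : ℤ) : Ei) := by
          conv_lhs => rw [hab]
          push_cast
          ring
        rw [e]
        exact hNd ρ hρ]
      rw [JJ_mul hN hNb hNl, JJ_rat hN (by rw [hNa, star_int]) (star_int b) hNb, zero_add, h4]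
    -- the relation
    have h4 : cs π ((1 - w) * ((a : ℤ) : Ei)) = cs π (-(((a + b : ℤ) : Ei) * w)) := by
      refine cs_congr h.prime h.norm ?_ ?_
      · intro h5
        rcases h.prime.dvd_or_dvd h5 with h6 | h6
        · exact hlam h6
        · exact na h6
      · have e : (1 - w) * ((a : ℤ) : Ei) - -(((a + b : ℤ) : Ei) * w) = π := by
          conv_rhs => rw [hab]
          push_cast
          ring
        rw [e]
    have nabw : ¬ π ∣ ((a + b : ℤ) : Ei) * w := by
      intro h5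
      rcases h.prime.dvd_or_dvd h5 with h6 | h6
      · exact nab h6
      · exact not_dvd_w h.prime h6
    rw [cs_mul h.prime h.norm hlam na, cs_neg h.prime h.norm nabw,
      cs_mul h.prime h.norm nab (not_dvd_w h.prime), s1, s2, cs_w h] at h4
    have h5 : cs π ((1 - w) * (1 - w)) = cs π 3 + cs π w := by
      have e : (1 - w : Ei) * (1 - w) = -(3 * w) := by decide
      have h6 : ¬ π ∣ 3 * w := by
        intro h7
        rcases h.prime.dvd_or_dvd h7 with h8 | h8
        · exact h.norm h8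
        · exact not_dvd_w h.prime h8
      rw [e, cs_neg h.prime h.norm h6, cs_mul h.prime h.norm h.norm (not_dvd_w h.prime)]
    rw [cs_mul h.prime h.norm hlam hlam, cs_w h] at h5
    -- the values
    have t1 : tq ((a : ℤ) : Ei) = -(x : ZMod 3) := by
      unfold tq
      have e : Pool.Agent.Y692.QS.nr ((a : ℤ) : Ei) = a ^ 2 := Pool.Agent.Y692.QS.nr_int a
      rw [e, ex]
      have e2 : ((1 + 3 * x) ^ 2 - 1) / 3 = 2 * x + 3 * x ^ 2 := by
        have : (1 + 3 * x) ^ 2 - 1 = 3 * (2 * x + 3 * x ^ 2) := by ring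
        rw [this, Int.mul_ediv_cancel_left _ (by norm_num)]
      have e3 : (2 : ZMod 3) = -1 := by decide
      rw [e2]
      push_cast
      rw [h3, e3]
      ring
    have t2 : tq ((a + b : ℤ) : Ei) = -((x : ZMod 3) + y) := by
      unfold tq
      have e : Pool.Agent.Y692.QS.nr ((a + b : ℤ) : Ei) = (a + b) ^ 2 :=
        Pool.Agent.Y692.QS.nr_int (a + b)
      rw [e, ex, ey]
      have e2 : ((1 + 3 * x + 3 * y) ^ 2 - 1) / 3 = 2 * (x + y) + 3 * (x + y) ^ 2 := by
        have : (1 + 3 * x + 3 * y) ^ 2 - 1 = 3 * (2 * (x + y) + 3 * (x + y) ^ 2) := by ring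
        rw [this, Int.mul_ediv_cancel_left _ (by norm_num)]
      have e3 : (2 : ZMod 3) = -1 := by decide
      rw [e2]
      push_cast
      rw [h3, e3]
      ring
    have t3 : tq π = -((x : ZMod 3) + y) := by
      unfold tq
      have e : Pool.Agent.Y692.QS.nr π - 1 = 3 * (2 * x - y + 3 * (x ^ 2 - x * y + y ^ 2)) := by
        unfold Pool.Agent.Y692.QS.nr
        rw [← ha, ← hb, ex, ey]
        ring
      rw [e, Int.mul_ediv_cancel_left _ (by norm_num)]
      have e3 : (2 : ZMod 3) = -1 := by decide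
      push_cast
      rw [h3, e3]
      ring
    have t4 : ((b / 3 : ℤ) : ZMod 3) = y := by
      rw [ey, Int.mul_ediv_cancel_left _ (by norm_num)]
    rw [t4]
    rw [t1, t2, t3] at h4
    rw [t3] at h5
    have h6 : cs π (1 - w) = x := by linear_combination h4
    rw [h6] at h5
    linear_combination -h5 + (x : ZMod 3) * h3

/-- **The supplementary law.** -/
theorem cs_pD {π : Ei} (h : Pq π) (κ : ZMod 3) : cs π (3 * w ^ κ.val) = ts κ π := by
  have hw := not_dvd_w h.prime
  have h3 : (3 : ZMod 3) = 0 := by decide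
  rw [cs_mul h.prime h.norm h.norm (fun h1 => hw (h.prime.dvd_of_dvd_pow h1)),
    cs_pow h.prime h.norm hw, sup h, ZMod.natCast_zmod_val, cs_w h]
  obtain ⟨k, hk⟩ := h.three
  have e : π = 1 + 3 * k := by rw [← hk]; ring
  have er : π.re = 1 + 3 * k.re := by
    have h1 := congrArg QuadraticAlgebra.re hk
    rw [QuadraticAlgebra.re_sub, Pool.Agent.Y692.QS.mul_re] at h1
    have e1 : (3 : Ei).re = 3 := rfl
    have e2 : (3 : Ei).im = 0 := rfl
    have e3 : (1 : Ei).re = 1 := rfl
    rw [e1, e2, e3] at h1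
    linarith
  have ei : π.im = 3 * k.im := by
    have h1 := congrArg QuadraticAlgebra.im hk
    rw [QuadraticAlgebra.im_sub, Pool.Agent.Y692.QS.mul_im] at h1
    have e1 : (3 : Ei).re = 3 := rfl
    have e2 : (3 : Ei).im = 0 := rfl
    have e3 : (1 : Ei).im = 0 := rfl
    rw [e1, e2, e3] at h1
    linarith
  have t3 : tq π = -((k.re : ZMod 3) + k.im) := by
    unfold tq
    have e : Pool.Agent.Y692.QS.nr π - 1 =
        3 * (2 * k.re - k.im + 3 * (k.re ^ 2 - k.re * k.im + k.im ^ 2)) := by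
      unfold Pool.Agent.Y692.QS.nr
      rw [er, ei]
      ring
    rw [e, Int.mul_ediv_cancel_left _ (by norm_num)]
    have e3 : (2 : ZMod 3) = -1 := by decide
    push_cast
    rw [h3, e3]
    ring
  rw [t3, ei, Int.mul_ediv_cancel_left _ (by norm_num)]
  conv_rhs => rw [e]
  rw [ts_prim]
  unfold lt
  ring

end Pool.Agent.Helper68.C5.Sup5
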