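import Pool.Agent.Helper68.C5.Defs5
import Pool.Agent.Helper68.C5.Sup5
import Pool.Graph.R_seed8.Y696.CT.LQ

/-!
# The `L`-function of `y² + 3 N y = x³` over `ℚ`
-/

set_option autoImplicit false
set_option linter.unusedVariables false
set_option linter.unusedSectionVars false

namespace Pool.Agent.Helper68.C5.LQ5

open IsDedekindDomain
open Pool.Agent.Y703.CT
open Pool.Agent.Y696.CT
open Pool.Agent.Y692.QS hiding chi
open Pool.Agent.Y715.T.Rec (exists_p cs)
open Pool.Agent.Y715.T.RecG (Pq)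
open Pool.Agent.Y715.T.Rs (eq0)
open Pool.Agent.Helper68.C5 Pool.Agent.Helper68.C5.Chr5 Pool.Agent.Helper68.C5.Sup5
open scoped Classical

variable {J : Type} [Fintype J] {π : J → Ei} {e : J → ZMod 3} {κ : ZMod 3}

/-! ### elements prime to three -/

lemma cp_of {α : Ei} (h : ¬ (3 : ℤ) ∣ nr α) : Cp α := by
  obtain ⟨u, hu⟩ := ns_assoc h
  obtain ⟨t, ht⟩ := ns_prim h
  have h1 : (u : Ei) ^ 6 = 1 := by
    have h2 : IsUnit (eq0 (u : Ei)) := u.isUnit.map eq0
    have h3 := unit_six h2
    rwa [RingEquiv.symm_apply_apply] at h3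
  have e1 : α = (1 + 3 * t) * u := by
    rw [← hu, ← ht]
    ring
  rw [e1]
  refine (cp_prim t).mul ⟨0, ?_⟩
  rw [h1]
  ring

/-- the summand -/
noncomputable def g5 (π : J → Ei) (e : J → ZMod 3) (κ : ZMod 3) (s : ℂ) (α : Ei) : ℂ :=
  if (3 : ℤ) ∣ nr α then 0 else gg π e s α * toC w ^ (-(ts κ α)).val

lemma g5_mul (hpq : ∀ j, Pq (π j)) (e : J → ZMod 3) (s : ℂ) (α β : Ei) :
    g5 π e κ s (α * β) = g5 π e κ s α * g5 π e κ s β := by
  have h3 : Prime (3 : ℤ) := Int.prime_three
  have h4 : (3 : ℤ) ∣ nr (α * β) ↔ (3 : ℤ) ∣ nr α ∨ (3 : ℤ) ∣ nr β := by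
    rw [nr_mul]
    exact h3.dvd_mul
  unfold g5
  by_cases h1 : (3 : ℤ) ∣ nr α
  · rw [if_pos (h4.2 (Or.inl h1)), if_pos h1, zero_mul]
  · by_cases h2 : (3 : ℤ) ∣ nr β
    · rw [if_pos (h4.2 (Or.inr h2)), if_pos h2, mul_zero]
    · rw [if_neg (fun h => (h4.1 h).elim h1 h2), if_neg h1, if_neg h2, gg_mul hpq,
        ts_mul (cp_of h1) (cp_of h2), neg_add, tw_add]
      ring

lemma g5_one (hpq : ∀ j, Pq (π j)) (e : J → ZMod 3) (s : ℂ) : g5 π e κ s 1 = 1 := by
  unfold g5
  rw [if_neg (by rw [nr_one]; norm_num), gg_one hpq, ts_u (one_pow 6), neg_zero, ZMod.val_zero,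
    pow_zero, mul_one]

lemma g5_prim {α : Ei} (h : (3 : Ei) ∣ α - 1) (s : ℂ) :
    g5 π e κ s α = toC α * (chD π e α * toC w ^ (-(ts κ α)).val) *
        ((nr α : ℤ) : ℂ) ^ (-s) := by
  unfold g5
  rw [if_neg (ep_ndvd h)]
  unfold gg
  ring

/-- the symbol of three -/
lemma cs_three {α : Ei} (h : Pq α) : cs α 3 = ts 0 α := by
  have h1 := cs_pD h 0
  rwa [ZMod.val_zero, pow_zero, mul_one] at h1

/-- the local factors -/
theorem factor {N : ℤ} (hdt : Dt π e)
    (hD : (N : Ei) = pD π e ∨ (N : Ei) = -pD π e) (s : ℂ) (p : Nat.Primes) :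
    HasProd (fun P : {P : HeightOneSpectrum Ei // bl P = p} =>
      (1 - fI (g5 π (fun j => -e j) 0 s) P.1.asIdeal)⁻¹)
      ((1 - (Pool.Agent.W97.MT.ap (WD (3 * N)) p : ℂ) * ((p : ℕ) : ℂ) ^ (-s) +
      (if ((p : ℕ) : ℤ) ∣ (WD (3 * N)).Δ then 0 else ((p : ℕ) : ℂ) ^ (1 - 2 * s)))⁻¹) := by
  have hfact : Fact (p : ℕ).Prime := ⟨p.2⟩
  have hrec := Pool.Agent.Y350.CT.rec
  have hpp : Prime ((p : ℕ) : ℤ) := Nat.prime_iff_prime_int.1 p.2
  set g := g5 π (fun j => -e j) 0 s with hg
  by_cases hbad : ((p : ℕ) : ℤ) ∣ (WD (3 * N)).Δ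
  · -- bad primes
    rw [if_pos hbad, add_zero]
    have hap : Pool.Agent.W97.MT.ap (WD (3 * N)) p = 0 := by
      rcases (dvd_delta p.2 (3 * N)).1 hbad with h | h
      · rw [h]
        exact ap_cube cube_three (3 * N)
      · exact ap_bad h
    rw [hap, Int.cast_zero, zero_mul, sub_zero, inv_one]
    refine hasProd_one.congr_fun fun P => ?_
    have hz : fI g P.1.asIdeal = 0 := by
      unfold fI
      by_cases h3 : (3 : ℤ) ∣ nr (gn P.1.asIdeal)
      · rw [if_pos h3]
      · rw [if_neg h3]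
        have hPp : gn P.1.asIdeal ∣ (((p : ℕ) : Ei)) := by
          have := bl_dvd P.1
          rwa [P.2] at this
        rcases (dvd_delta p.2 (3 * N)).1 hbad with h | h
        · rw [h] at hPp
          exact absurd (gn_three P.1 hPp) h3
        · have h' : ((p : ℕ) : ℤ) ∣ N := by
            rcases hpp.dvd_or_dvd h with h6 | h6
            · exfalso
              have h7 : (p : ℕ) ∣ 3 := by exact_mod_cast h6
              have h8 := (Nat.prime_dvd_prime_iff_eq p.2 Nat.prime_three).1 h7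
              rw [h8] at hPp
              exact absurd (gn_three P.1 hPp) h3
            · exact h6
          have hPD : ns (gn P.1.asIdeal) ∣ (N : Ei) := by
            refine dvd_trans (ns_assoc h3).dvd (dvd_trans hPp ?_)
            have := int_dvd_int.2 h'
            rwa [Int.cast_natCast] at this
          rw [hg, g5_prim (ns_prim h3)]
          rw [chD_bad ((ns_assoc h3).symm.prime (gn_prime P.1)) hdt hD hPD, zero_mul, mul_zero,
            zero_mul]
    rw [hz, sub_zero, inv_one]
  · rw [if_neg hbad]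
    rw [dvd_delta p.2 (3 * N), not_or] at hbad
    obtain ⟨hp3, hpD⟩ := hbad
    have hpN : ¬ ((p : ℕ) : ℤ) ∣ N := fun h => hpD (Dvd.dvd.mul_left h _)
    have hp3' : ¬ ((p : ℕ) : ℤ) ∣ 3 := fun h => hpD (Dvd.dvd.mul_right h _)
    have hm : (p : ℕ) % 3 = 1 ∨ (p : ℕ) % 3 = 2 := by
      have : (p : ℕ) % 3 ≠ 0 := fun h => hp3
        ((Nat.prime_dvd_prime_iff_eq Nat.prime_three p.2).1 (Nat.dvd_of_mod_eq_zero h)).symm
      omega
    have e3 : (((3 : ℤ)) : Ei) = 3 := by norm_num
    have e3N : ((3 * N : ℤ) : Ei) = 3 * (N : Ei) := by push_cast; rfl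
    rcases hm with hm | hm
    · -- split primes
      obtain ⟨α, hα, hnα⟩ := exists_pq p.2 hm
      have hα' := pq_star hα
      have hprod : α * star α = (((p : ℕ) : ℕ) : Ei) := by
        rw [mul_star, hnα, Int.cast_natCast]
      have d1 : α ∣ (((p : ℕ) : Ei)) := ⟨star α, hprod.symm⟩
      have d2 : star α ∣ (((p : ℕ) : Ei)) := ⟨α, by rw [mul_comm, hprod]⟩
      set P1 : {P : HeightOneSpectrum Ei // bl P = p} := ⟨hp α hα.prime, bl_hp hα.prime p d1⟩
      set P2 : {P : HeightOneSpectrum Ei // bl P = p} :=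
        ⟨hp (star α) hα'.prime, bl_hp hα'.prime p d2⟩
      have hne : P1 ≠ P2 := by
        intro h
        have h1 : (Ideal.span {α} : Ideal Ei) = Ideal.span {star α} :=
          congrArg HeightOneSpectrum.asIdeal (congrArg Subtype.val h)
        have h2 := (ns_of_assoc (Ideal.span_singleton_eq_span_singleton.1 h1)).1
        rw [ns_of_prim hα.three, ns_of_prim hα'.three] at h2
        exact im_star_ne p.2 hnα h2.symm
      have hall : ∀ P : {P : HeightOneSpectrum Ei // bl P = p}, P = P1 ∨ P = P2 := by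
        intro P
        have h1 : gn P.1.asIdeal ∣ α * star α := by
          rw [hprod]
          have := bl_dvd P.1
          rwa [P.2] at this
        rcases (gn_prime P.1).dvd_or_dvd h1 with h | h
        · exact Or.inl (Subtype.ext (eq_hp hα.prime P.1 h))
        · exact Or.inr (Subtype.ext (eq_hp hα'.prime P.1 h))
      have hP := hasProd_prod_of_ne_finset_one (L := .unconditional _) (s := {P1, P2})
        (f := fun P : {P : HeightOneSpectrum Ei // bl P = p} => (1 - fI g P.1.asIdeal)⁻¹)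
        (fun P hP => by
          exfalso
          apply hP
          rw [Finset.mem_insert, Finset.mem_singleton]
          exact hall P)
      rw [Finset.prod_pair hne] at hP
      have v1 : fI g P1.1.asIdeal = g α := fI_prim g hα.three
      have v2 : fI g P2.1.asIdeal = g (star α) := fI_prim g hα'.three
      rw [v1, v2] at hP
      refine Eq.mp ?_ hP
      congr 1
      have hnd : ¬ α ∣ (N : Ei) := int_ndvd hnα hpN
      have hnd' : ¬ star α ∣ (N : Ei) := int_ndvd (by rw [nr_star, hnα]) hpN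
      have hnd3 : ¬ α ∣ ((3 : ℤ) : Ei) := int_ndvd hnα hp3'
      have c1 : chD π (fun j => -e j) α = toC w ^ (-cs α (N : Ei)).val :=
        chD_prime hrec hdt hD hα hnd
      have c2 : chD π (fun j => -e j) (star α) = toC w ^ (cs α (N : Ei)).val := by
        rw [chD_prime hrec hdt hD hα' hnd', cs_star_int hα hnd, neg_neg]
      have c3 : ts 0 α = cs α 3 := (cs_three hα).symm
      have c4 : ts 0 (star α) = -cs α 3 := by
        rw [← cs_three hα', ← e3, cs_star_int hα hnd3]
      have c5 : cs α ((3 * N : ℤ) : Ei) = cs α 3 + cs α (N : Ei) := by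
        rw [e3N]
        exact cs_mul' hα (by rw [← e3]; exact hnd3) hnd
      have f1 : toC w ^ (-cs α (N : Ei)).val * toC w ^ (-(ts 0 α)).val =
          toC w ^ (-cs α ((3 * N : ℤ) : Ei)).val := by
        rw [← tw_add, c3, c5]
        congr 2
        ring
      have f2 : toC w ^ (cs α (N : Ei)).val * toC w ^ (-(ts 0 (star α))).val =
          toC w ^ (cs α ((3 * N : ℤ) : Ei)).val := by
        rw [← tw_add, c4, c5]
        congr 2
        ring
      have hap := congrArg toC (ap_one hα hnα hp3 (by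
        rintro h
        rw [h] at hm
        norm_num at hm) hpD)
      rw [map_intCast, map_add, star_mul', map_mul, map_mul] at hap
      have hst : star (w ^ (-cs α ((3 * N : ℤ) : Ei)).val : Ei) =
          w ^ (cs α ((3 * N : ℤ) : Ei)).val := by
        generalize cs α ((3 * N : ℤ) : Ei) = c
        revert c
        decide
      rw [hst, map_pow, map_pow] at hap
      have hww : toC w ^ (-cs α ((3 * N : ℤ) : Ei)).val *
          toC w ^ (cs α ((3 * N : ℤ) : Ei)).val = 1 := by
        rw [← tw_add, neg_add_cancel, ZMod.val_zero, pow_zero]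
      have hpC : toC α * toC (star α) = ((p : ℕ) : ℂ) := by
        rw [← map_mul, hprod, map_natCast]
      rw [← mul_inv, hap, cpow_two p.2, hg]
      rw [g5_prim hα.three, g5_prim hα'.three, nr_star, hnα, c1, c2, f1, f2, Int.cast_natCast]
      congr 1
      set A := toC w ^ (-cs α ((3 * N : ℤ) : Ei)).val
      set B := toC w ^ (cs α ((3 * N : ℤ) : Ei)).val
      set X := (((p : ℕ)) : ℂ) ^ (-s)
      linear_combination (X * X) * (A * B) * hpC + (X * X) * ((p : ℕ) : ℂ) * hww
    · -- inert primes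
      have hα := inert p.2 hm
      have d1 : -(((p : ℕ) : Ei)) ∣ (((p : ℕ) : Ei)) := neg_dvd.2 dvd_rfl
      set P1 : {P : HeightOneSpectrum Ei // bl P = p} :=
        ⟨hp (-(((p : ℕ) : Ei))) hα.prime, bl_hp hα.prime p d1⟩
      have hall : ∀ P : {P : HeightOneSpectrum Ei // bl P = p}, P = P1 := by
        intro P
        have h1 : gn P.1.asIdeal ∣ -(((p : ℕ) : Ei)) := by
          rw [dvd_neg]
          have := bl_dvd P.1
          rwa [P.2] at this
        exact Subtype.ext (eq_hp hα.prime P.1 h1)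
      have hP := hasProd_prod_of_ne_finset_one (L := .unconditional _) (s := {P1})
        (f := fun P : {P : HeightOneSpectrum Ei // bl P = p} => (1 - fI g P.1.asIdeal)⁻¹)
        (fun P hP => by
          exfalso
          apply hP
          rw [Finset.mem_singleton]
          exact hall P)
      rw [Finset.prod_singleton] at hP
      have v1 : fI g P1.1.asIdeal = g (-(((p : ℕ) : Ei))) := fI_prim g hα.three
      rw [v1] at hP
      refine Eq.mp ?_ hP
      congr 1
      have hnd : ¬ -(((p : ℕ) : Ei)) ∣ (N : Ei) := by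
        rw [neg_dvd]
        intro h
        apply hpN
        rw [← int_dvd_int, Int.cast_natCast]
        exact h
      have c1 : chD π (fun j => -e j) (-(((p : ℕ) : Ei))) = 1 := by
        rw [chD_prime hrec hdt hD hα hnd, cs_inert hm hα hpN, neg_zero, ZMod.val_zero, pow_zero]
      have c2 : ts 0 (-(((p : ℕ) : Ei))) = 0 := by
        rw [← cs_three hα, ← e3, cs_inert hm hα hp3']
      rw [ap_cube (cube_two hm) (3 * N), cpow_two p.2, hg, g5_prim hα.three]
      rw [c1, c2, nr_neg, nr_nat, map_neg, map_natCast, neg_zero, ZMod.val_zero, pow_zero]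
      congr 1
      have h0 : (0 : ℝ) ≤ (((p : ℕ)) : ℝ) := Nat.cast_nonneg _
      have h2 := Complex.mul_cpow_ofReal_nonneg h0 h0 (-s)
      rw [Complex.ofReal_natCast] at h2
      push_cast
      rw [pow_two, h2]
      ring

/-- **The `L`-function.** -/
theorem LQ {N : ℤ} (hdt : Dt π e) (hD : (N : Ei) = pD π e ∨ (N : Ei) = -pD π e) (F : ℂ → ℂ)
    (hF : IsHL5 π (fun j => -e j) 0 F) : IsL (WD (3 * N)) F := by
  refine ⟨hF.1, fun s hs => ?_⟩
  have h1 : HasSum (fun α : {α : Ei // (3 : Ei) ∣ α - 1} => g5 π (fun j => -e j) 0 s α) (F s) := by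
    refine (hF.2 s hs).congr_fun fun α => ?_
    exact g5_prim α.2 s
  have h2 := hasProd_Ei (g5_one hdt.pq _ s) (g5_mul hdt.pq _ s) h1
  exact regroup h2 fun p => factor hdt hD s p

end Pool.Agent.Helper68.C5.LQ5
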