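import Pool.Agent.Helper68.C5.Loc5
import Pool.Agent.Helper68.C5.LQ5
import Pool.Agent.Helper68.C5.Defs5
import Pool.Agent.Helper68.C2.Sel2
import Pool.Graph.R_seed8.Y703.CT.T1

/-!
# The Selmer group for `D = 3 w^κ ∏ π_j^(e_j)`
-/

set_option autoImplicit false
set_option linter.unusedSectionVars false
set_option linter.unusedVariables false

open scoped Classical

namespace Pool.Agent.Helper68.C5.Sel5

open WeierstrassCurve
open Pool.Agent.Y692.QS (Ei w nr)
open Pool.Agent.Y715.T.Gi Pool.Agent.Y715.T.Nr Pool.Agent.Y715.T.Df Pool.Agent.Y715.T.Ell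
open Pool.Agent.Y715.T.Rec (cs)
open Pool.Agent.Y715.T.RecG
open Pool.Agent.Y715.T.Sel (fac kc_mul kc_one kc_congr kc_pow kc_cube kc_uniq kc_cancel kc_unit
  kc_exp ex_root root_ne iota_sq iota_ev odd_of not_dvd_of_unr resid_kc exists_emb3)
open Pool.Agent.Y703.CT
open Pool.Agent.Y48.CT.SEL
open Pool.Agent.Helper68.C5
open Pool.Agent.Helper68.C5.Chr5 (ts)
open Pool.Agent.Helper68.C5.Sup5 (cs_pD)
open Pool.Agent.Helper68.C2.LK2 (w_unit not_dvd_w)
open Pool.Agent.Helper68.C2.Sel2 (norm_unit)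
open Pool.Agent.Y153.CTRAM (exists_T3 jj_add jj_zero jj_one jj_neg_one jj_nsmul nsmul_tt)

variable {J : Type} [Fintype J] {π : J → Ei} {e : J → ZMod 3} {κ : ZMod 3}
variable {i₀ : QB} {hi : i₀ ^ 2 + i₀ + 1 = 0}

/-- the primes and `3 w^κ` -/
def pw (π : J → Ei) (κ : ZMod 3) : Option J → Ei := fun o => o.elim (3 * w ^ κ.val) π

/-- the exponents -/
def ew (e : J → ZMod 3) : Option J → ZMod 3 := fun o => o.elim 1 e

@[simp] lemma pw_none : pw π κ none = 3 * w ^ κ.val := rfl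
@[simp] lemma pw_some (j : J) : pw π κ (some j) = π j := rfl
@[simp] lemma ew_none : ew e none = 1 := rfl
@[simp] lemma ew_some (j : J) : ew e (some j) = e j := rfl

lemma prod_pw (x : Option J → ℕ) :
    ∏ o, pw π κ o ^ x o = (3 * w ^ κ.val) ^ x none * ∏ j, π j ^ x (some j) := by
  rw [Fintype.prod_option]
  rfl

lemma pD5_eq : pD5 π e κ = ∏ o, pw π κ o ^ (ew e o).val := by
  rw [prod_pw]
  show 3 * w ^ κ.val * pD π e = (3 * w ^ κ.val) ^ 1 * _
  rw [pow_one]
  rfl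

lemma three_ne' : (3 : Ei) ≠ 0 := by decide

lemma t_ne : (3 * w ^ κ.val : Ei) ≠ 0 := mul_ne_zero three_ne' (w_unit.pow _).ne_zero

lemma pw_ne (hD : Dt π e) (o : Option J) : pw π κ o ≠ 0 := by
  rcases o with _ | j
  · exact t_ne
  · exact p0 hD j

lemma pr0w (hD : Dt π e) (f : Option J → ℕ) : ∏ o, pw π κ o ^ f o ≠ 0 :=
  Finset.prod_ne_zero_iff.2 fun o _ => pow_ne_zero _ (pw_ne hD o)

lemma pD5_ne (hD : Dt π e) : pD5 π e κ ≠ 0 := by
  rw [pD5_eq]
  exact pr0w hD _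

lemma esqw (hD : Dt π e) (o : Option J) : ew e o * ew e o = 1 := by
  rcases o with _ | j
  · show (1 : ZMod 3) * 1 = 1
    rw [mul_one]
  · exact esq hD j

lemma ndw (hD : Dt π e) (j : J) (o : Option J) (h : o ≠ some j) : ¬ π j ∣ pw π κ o := by
  rcases o with _ | i
  · intro h1
    have hp := (hD.pq j).prime
    rcases hp.dvd_or_dvd h1 with h2 | h2
    · exact (hD.pq j).norm h2
    · exact not_dvd_w hp (hp.dvd_of_dvd_pow h2)
  · exact hD.nd i j fun h1 => h (congrArg some h1)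

lemma not_dvd_prodw (hD : Dt π e) (j : J) (x : Option J → ℕ) :
    ¬ π j ∣ ∏ o ∈ Finset.univ.erase (some j), pw π κ o ^ x o := by
  rw [(hD.pq j).prime.dvd_finsetProd_iff]
  rintro ⟨i, hij, hd⟩
  exact ndw hD j i (Finset.ne_of_mem_erase hij) ((hD.pq j).prime.dvd_of_dvd_pow hd)

/-! ### cube-free representatives -/

lemma lam_not_prod (hD : Dt π e) (x : J → ℕ) : ¬ lam ∣ ∏ j, π j ^ x j := by
  intro h
  have h3 : (lam : Ei) ∣ 3 := ⟨-lam, by
    have := lam_sq
    rw [pow_two] at this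
    linear_combination this⟩
  have h6 := dvd_sub h (dvd_trans h3 (prod_form hD x))
  rw [sub_sub_cancel] at h6
  exact prime_lam.not_isUnit (isUnit_of_dvd_one h6)

lemma cf_lam (hD : Dt π e) (f : J → ZMod 3) {u : Ei} (hu : IsUnit u) {k : ℕ} (hk : k ≤ 2) :
    CF (u * lam ^ k * ∏ j, π j ^ (f j).val) := by
  have hP0 : (∏ j, π j ^ (f j).val) ≠ 0 := pr0 hD _
  have hne : u * lam ^ k * ∏ j, π j ^ (f j).val ≠ 0 :=
    mul_ne_zero (mul_ne_zero hu.ne_zero (pow_ne_zero _ prime_lam.ne_zero)) hP0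
  refine ⟨hne, fun d hd => ?_⟩
  by_contra hcon
  have hd0 : d ≠ 0 := by
    rintro rfl
    rw [zero_pow three_ne_zero, zero_dvd_iff] at hd
    exact hne hd
  obtain ⟨ρ, hρi, hρd⟩ := WfDvdMonoid.exists_irreducible_factor hcon hd0
  have hρ : Prime ρ := hρi.prime
  have h1 : ρ ^ 3 ∣ u * lam ^ k * ∏ j, π j ^ (f j).val := (pow_dvd_pow_of_dvd hρd 3).trans hd
  by_cases hl : ρ ∣ lam
  · have has : Associated ρ lam := (hρ.dvd_prime_iff_associated prime_lam).1 hl
    have h2 : lam ^ 3 ∣ u * lam ^ k * ∏ j, π j ^ (f j).val :=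
      (pow_dvd_pow_of_dvd has.symm.dvd 3).trans h1
    have e1 : lam ^ 3 = lam ^ k * lam ^ (3 - k) := by
      rw [← pow_add]
      congr 1
      omega
    have e2 : u * lam ^ k * ∏ j, π j ^ (f j).val = lam ^ k * (u * ∏ j, π j ^ (f j).val) := by ring
    rw [e1, e2] at h2
    have h3 := (mul_dvd_mul_iff_left (pow_ne_zero k prime_lam.ne_zero)).1 h2
    have h4 : lam ∣ ∏ j, π j ^ (f j).val :=
      (IsUnit.dvd_mul_left hu).1 ((dvd_pow_self lam (by omega)).trans h3)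
    exact lam_not_prod hD _ h4
  · have h2 : ρ ^ 3 ∣ ∏ j, π j ^ (f j).val := by
      refine hρ.pow_dvd_of_dvd_mul_left 3 ?_ h1
      intro h3
      rcases hρ.dvd_or_dvd h3 with h4 | h4
      · exact hρ.not_isUnit (isUnit_of_dvd_unit h4 hu)
      · exact hl (hρ.dvd_of_dvd_pow h4)
    exact hρ.not_isUnit ((cf_prod hD f).2 ρ h2)

lemma lam3 : (3 : Ei) = -(lam ^ 2) := by rw [lam_sq]; ring

/-- the cube-free representative of a product -/
lemma kc_rep (hD : Dt π e) (f : Option J → ZMod 3) {h : GK i₀ → ZMod 3}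
    (hK : Kc hi (∏ o, pw π κ o ^ (f o).val) h) :
    ∃ (u : Ei) (k : ℕ), IsUnit u ∧ k ≤ 2 ∧
      Kc hi (u * lam ^ k * ∏ j, π j ^ (f (some j)).val) h := by
  rw [prod_pw] at hK
  have hlt : (f none).val < 3 := ZMod.val_lt _
  rcases (by omega : (f none).val = 0 ∨ (f none).val = 1 ∨ (f none).val = 2) with h0 | h0 | h0
  · refine ⟨1, 0, isUnit_one, by norm_num, ?_⟩
    rw [h0, pow_zero, one_mul] at hK
    rw [pow_zero, one_mul, one_mul]
    exact hK
  · refine ⟨-(w ^ κ.val), 2, (w_unit.pow _).neg, le_rfl, ?_⟩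
    rw [h0, pow_one] at hK
    have e1 : -(w ^ κ.val) * lam ^ 2 * ∏ j, π j ^ (f (some j)).val =
        3 * w ^ κ.val * ∏ j, π j ^ (f (some j)).val := by
      rw [lam3]
      ring
    rw [e1]
    exact hK
  · refine ⟨(w ^ κ.val) ^ 2, 1, (w_unit.pow _).pow 2, by norm_num, ?_⟩
    rw [h0] at hK
    refine kc_cancel (z' := lam) ?_ prime_lam.ne_zero ?_
    · exact (mul_ne_zero (mul_ne_zero ((w_unit.pow _).pow 2).ne_zero
        (pow_ne_zero _ prime_lam.ne_zero)) (pr0 hD _))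
    · have e1 : (w ^ κ.val) ^ 2 * lam ^ 1 * (∏ j, π j ^ (f (some j)).val) * lam ^ 3 =
          (3 * w ^ κ.val) ^ 2 * ∏ j, π j ^ (f (some j)).val := by
        rw [lam3]
        ring
      rw [e1]
      exact hK

/-- unramified at `π_j` -/
lemma not_dvd_unr (hD : Dt π e) (f : Option J → ZMod 3) {h : GK i₀ → ZMod 3}
    (hK : Kc hi (∏ o, pw π κ o ^ (f o).val) h) {p : ℕ} [Fact p.Prime] (hp : p ≠ 3)
    (ι : QB →ₐ[ℚ] PadicAlgCl p) (j : J) (hl : ‖ι (ev i₀ hi (π j))‖ < 1)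
    (hun : ∀ (τ : Au p) (σ : GK i₀), Cmp ι τ σ → Inert τ → h σ = 0) : f (some j) = 0 := by
  obtain ⟨u, k, hu, hk, hK'⟩ := kc_rep hD f hK
  have h1 := not_dvd_of_unr (cf_lam hD (fun j => f (some j)) hu hk) hK' hp ι (hD.pq j).prime hl hun
  by_contra hne
  apply h1
  refine Dvd.dvd.mul_left ?_ _
  refine dvd_trans (dvd_pow_self (π j) ?_) (Finset.dvd_prod_of_mem
    (fun j => π j ^ (f (some j)).val) (Finset.mem_univ j))
  rwa [Ne, ZMod.val_eq_zero]

/-! ### norms -/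

lemma norm_t_one {p : ℕ} [Fact p.Prime] (hp : p ≠ 3) {I : PadicAlgCl p}
    (hI : I ^ 2 + I + 1 = 0) : ‖ev I hI (3 * w ^ κ.val)‖ = 1 := by
  rw [map_mul, norm_mul, norm_unit _ (w_unit.pow _), mul_one, map_ofNat]
  exact Pool.Agent.Y715.T.Sel.norm_three_one hp

/-- the norm of `D` at a place prime to three and the `π j` -/
lemma norm_pD5_one {p : ℕ} [Fact p.Prime] (hp : p ≠ 3) (ι : QB →ₐ[ℚ] PadicAlgCl p)
    (h : ∀ j, ¬ ‖ι (ev i₀ hi (π j))‖ < 1) : ‖ι (ev i₀ hi (pD5 π e κ))‖ = 1 := by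
  have hI := iota_sq' hi ι
  rw [iota_ev]
  unfold pD5 pD
  rw [map_mul, norm_mul, norm_t_one hp, one_mul, map_prod, norm_prod]
  apply Finset.prod_eq_one
  intro j _
  rw [map_pow, norm_pow]
  have h4 := h j
  rw [iota_ev] at h4
  rw [eq_one_of_not_lt _ h4, one_pow]

/-- the norm of `D` at a place above `π j` -/
lemma norm_pD5_j (hD : Dt π e) {p : ℕ} [Fact p.Prime] (hp : p ≠ 3) (ι : QB →ₐ[ℚ] PadicAlgCl p)
    (j : J) (h : ‖ι (ev i₀ hi (π j))‖ < 1) :
    ‖ι (ev i₀ hi (pD5 π e κ))‖ = (p : ℝ) ^ (-((e j).val : ℤ)) := by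
  have hI := iota_sq' hi ι
  rw [iota_ev] at h ⊢
  unfold pD5 pD
  rw [map_mul, norm_mul, norm_t_one hp, one_mul, map_prod, norm_prod,
    Finset.prod_eq_single j]
  · rw [map_pow, norm_pow, norm_prime _ hp (hD.pq j).prime h, inv_pow, zpow_neg, zpow_natCast]
  · intro i _ hij
    rw [map_pow, norm_pow]
    have h4 : ¬ ‖ev (ι i₀) (iota_sq hi ι) (π i)‖ < 1 := by
      intro h5
      exact hD.nd i j hij ((dvd_iff _ (hD.pq j).prime h _).2 h5)
    rw [eq_one_of_not_lt _ h4, one_pow]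
  · intro h4
    exact absurd (Finset.mem_univ j) h4

/-! ### the shift by the other torsion point -/

lemma st1_add {p : ℕ} [Fact p.Prime] {ι : QB →ₐ[ℚ] PadicAlgCl p} {a h : GK i₀ → ZMod 3}
    {R : Pt (PadicAlgCl p)} (hS : St1 hi ι a h R) (n : ℕ) :
    ∃ R', St1 hi ι a (fun σ => h σ + n * -a σ) R' := by
  have hI := iota_sq' hi ι
  obtain ⟨hn3, hT3⟩ := exists_T3 hI
  set T3 : Pt (PadicAlgCl p) := Affine.Point.some (-1) ((ι i₀) ^ 2) hn3 with hT3d
  have hjT3 : ∀ c : ZMod 3, jj hI c T3 = T3 - tt _ c := by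
    intro c
    rcases z3 c with rfl | rfl | rfl
    · rw [jj_zero, tt_zero, sub_zero]
    · rw [jj_one, hT3]
    · rw [jj_neg_one, hT3, map_sub, im_tt, hT3, sub_sub, ← tt_add]
      congr 2
  have hlT3 : ∀ τ : Au p, τ (ι i₀) = ι i₀ → pm (lh τ) T3 = T3 := by
    intro τ hτI
    rw [hT3d, pm_some, Affine.Point.some.injEq]
    rw [lh_apply, lh_apply]
    constructor
    · rw [map_neg, map_one]
    · rw [map_pow, hτI]
  refine ⟨R + n • T3, fun τ σ hc => ?_⟩
  have h1 := hS τ σ hc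
  rw [map_add, map_nsmul, hlT3 τ hc.fix, jj_add, jj_nsmul, hjT3, smul_sub]
  have h2 : jj (iota_sq' hi ι) (a σ) (pm (lh τ) R) = R + tt _ (h σ) := by
    rw [← h1]
    abel
  rw [h2]
  have h3 : n • tt (PadicAlgCl p) (a σ) = tt _ (n * a σ) := by
    clear h2 h1
    induction n with
    | zero => rw [zero_smul, Nat.cast_zero, zero_mul, tt_zero]
    | succ n ih =>
      rw [succ_nsmul, ih, ← tt_add]
      congr 1
      push_cast
      ring
  show _ = tt _ (h σ + n * -a σ)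
  rw [h3, mul_neg, ← sub_eq_add_neg, tt_sub]
  abel

/-! ### the Selmer group -/

/-- the Kummer generator modulo cubes -/
lemma exp_of_loc (hD : Dt π e) {u : QB} {a : GK i₀ → ZMod 3}
    (hTw : Tw hi (pD5 π e κ) u a) {h : GK i₀ → ZMod 3} {v₀ : Ei} {g : ℕ} {x₀ : J → ℕ}
    (hu : IsUnit v₀) (hzh : Kc hi (v₀ * lam ^ g * ∏ j, π j ^ x₀ j) h)
    (hloc : ∀ (p : ℕ) [Fact p.Prime] (ι : QB →ₐ[ℚ] PadicAlgCl p), ∃ R, St1 hi ι a h R) :
    ∃ x : Option J → ℕ, Kc hi (∏ o, pw π κ o ^ x o) h := by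
  have hD0 : pD5 π e κ ≠ 0 := pD5_ne hD
  have hb : Kc hi (pD5 π e κ) (fun σ => -a σ) :=
    kc_of hi (root_ne (hi := hi) hD0 hTw.cube) hTw.cube hTw.act
  obtain ⟨ι₃⟩ := exists_emb3
  obtain ⟨R, hR⟩ := hloc 3 ι₃
  obtain ⟨R', hR'⟩ := st1_add hR g
  have hz0 : v₀ * lam ^ g * ∏ j, π j ^ x₀ j ≠ 0 :=
    mul_ne_zero (mul_ne_zero hu.ne_zero (pow_ne_zero _ prime_lam.ne_zero)) (pr0 hD _)
  have h1 := kc_mul hz0 (pow_ne_zero g hD0) hzh (kc_pow hD0 hb g)
  -- the shifted generator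
  obtain ⟨q, hq⟩ := prod_form hD (fun j => x₀ j + (e j).val * g)
  have hq' : ∏ j, π j ^ (x₀ j + (e j).val * g) = 1 + 3 * q := by rw [← hq]; ring
  set v₁ : Ei := v₀ * (-(w ^ κ.val)) ^ g with hv₁
  have hv₁u : IsUnit v₁ := hu.mul ((w_unit.pow _).neg.pow g)
  have hP : (∏ j, π j ^ x₀ j) * (pD π e) ^ g = ∏ j, π j ^ (x₀ j + (e j).val * g) := by
    unfold pD
    rw [← Finset.prod_pow, ← Finset.prod_mul_distrib]
    refine Finset.prod_congr rfl fun j _ => ?_
    rw [← pow_mul, ← pow_add]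
  have e1 : v₀ * lam ^ g * (∏ j, π j ^ x₀ j) * (pD5 π e κ) ^ g =
      v₁ * (1 + 3 * q) * (lam ^ g) ^ 3 := by
    rw [← hq', ← hP, hv₁]
    unfold pD5
    rw [lam3]
    ring
  rw [e1] at h1
  have h2 : Kc hi (v₁ * (1 + 3 * q)) (fun σ => h σ + g * -a σ) := by
    refine kc_cancel ?_ (pow_ne_zero _ prime_lam.ne_zero) h1
    refine mul_ne_zero hv₁u.ne_zero ?_
    rw [← hq']
    exact pr0 hD _
  have hv₁1 : v₁ = 1 ∨ v₁ = -1 := by
    refine Loc5.core5 (D := pD5 π e κ) (d := w ^ κ.val * pD π e) ?_ ?_ hTw hv₁u h2 hR'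
    · unfold pD5
      ring
    · intro h3
      exact lam_not_prod hD _ ((IsUnit.dvd_mul_left (w_unit.pow _)).1 h3)
  have h3 : Kc hi (∏ j, π j ^ (x₀ j + (e j).val * g)) (fun σ => h σ + g * -a σ) := by
    rw [← hq'] at h2
    exact kc_unit (pr0 hD _) hv₁1 h2
  -- back to `h`
  have h4 := kc_mul (pr0 hD _) (pow_ne_zero (2 * g) hD0) h3 (kc_pow hD0 hb (2 * g))
  refine ⟨fun o => Option.elim o (2 * g) (fun j => x₀ j + (e j).val * g + (e j).val * (2 * g)), ?_⟩
  rw [prod_pw]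
  have e2 : (3 * w ^ κ.val) ^ (2 * g) *
      ∏ j, π j ^ (x₀ j + (e j).val * g + (e j).val * (2 * g)) =
      (∏ j, π j ^ (x₀ j + (e j).val * g)) * (pD5 π e κ) ^ (2 * g) := by
    have e3 : ∏ j, π j ^ (x₀ j + (e j).val * g + (e j).val * (2 * g)) =
        (∏ j, π j ^ (x₀ j + (e j).val * g)) * (pD π e) ^ (2 * g) := by
      unfold pD
      rw [← Finset.prod_pow, ← Finset.prod_mul_distrib]
      refine Finset.prod_congr rfl fun j _ => ?_
      rw [← pow_mul, ← pow_add]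
    rw [e3]
    unfold pD5
    ring
  show Kc hi ((3 * w ^ κ.val) ^ (2 * g) *
    ∏ j, π j ^ (x₀ j + (e j).val * g + (e j).val * (2 * g))) h
  rw [e2]
  refine kc_congr h4 fun σ => ?_
  have e3 : (3 : ZMod 3) = 0 := by decide
  push_cast
  linear_combination (g * a σ) * e3

/-- **the Selmer group** -/
theorem sel5 (hD : Dt π e) (hker : KerW π e κ) {u : QB} {a : GK i₀ → ZMod 3}
    (hTw : Tw hi (pD5 π e κ) u a) : Sel1 hi a := by
  intro h hc hm hloc
  have hD0 : pD5 π e κ ≠ 0 := pD5_ne hD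
  -- the character `a`
  have hb : Kc hi (∏ o, pw π κ o ^ (ew e o).val) (fun σ => -a σ) := by
    rw [← pD5_eq]
    exact kc_of hi (root_ne (hi := hi) hD0 hTw.cube) hTw.cube hTw.act
  -- the Kummer generator
  obtain ⟨z, hz, hzh⟩ := kum hi h hc hm
  obtain ⟨v₀, g, x₀, hu, ez⟩ := fac (π := π) z hz.1 (support hD hz hzh
    (fun p _ ι hp3 hpj τ σ hcc hτ => by
      obtain ⟨R, hR⟩ := hloc p ι
      exact (Pool.Agent.Helper68.C2.Ram2.unr hp3 hD0 hTw (norm_pD5_one hp3 ι hpj) hR τ σ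
        hcc hτ).2))
  rw [ez] at hzh
  obtain ⟨x, hx⟩ := exp_of_loc hD hTw hu hzh (fun p _ ι => hloc p ι)
  set v : Option J → ZMod 3 := fun o => x o * ew e o with hv
  have hxv : ∀ o, (x o : ZMod 3) = ew e o * v o := by
    intro o
    have := esqw hD o
    calc (x o : ZMod 3) = x o * (ew e o * ew e o) := by rw [this, mul_one]
      _ = _ := by rw [hv]; ring
  have heq : ∀ j : J, ∑ i, e i * cs (π j) (π i) * (v (some i) - v (some j)) =
      -(ts κ (π j) * (v none - v (some j))) := by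
    intro j
    obtain ⟨p, hp, ι, hl⟩ := exists_emb hi (hD.pq j).prime
    have hp3 := odd_of hi ι (hD.pq j).prime hl (not_assoc_lam (hD.pq j))
    obtain ⟨R, hR⟩ := hloc p ι
    have hej : ¬ 3 ∣ (e j).val := by
      have h6 : (e j).val < 3 := ZMod.val_lt _
      have h7 : (e j).val ≠ 0 := by
        intro h8
        exact hD.e0 j ((ZMod.val_eq_zero _).1 h8)
      omega
    obtain ⟨ε, hε⟩ := Pool.Agent.Helper68.C2.Ram2.ram hp3 hD0 hTw hej
      (norm_pD5_j hD hp3 ι j hl) hR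
    -- the character that is trivial at `π j`
    set n : ℕ := ε.val with hn
    have hn3 : (n : ZMod 3) = ε := ZMod.natCast_zmod_val _
    have hy := kc_mul (pr0w hD x) (pow_ne_zero n (pr0w hD _)) hx (kc_pow (pr0w hD _) hb n)
    have hy1 : ∀ (τ : Au p) (σ : GK i₀), Cmp ι τ σ → h σ + n * -a σ = 0 := by
      intro τ σ hcc
      rw [hε τ σ hcc, hn3]
      ring
    have ey : (∏ o, pw π κ o ^ x o) * (∏ o, pw π κ o ^ (ew e o).val) ^ n =
        ∏ o, pw π κ o ^ (x o + (ew e o).val * n) := by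
      rw [← Finset.prod_pow, ← Finset.prod_mul_distrib]
      refine Finset.prod_congr rfl fun i _ => ?_
      rw [← pow_mul, ← pow_add]
    rw [ey] at hy
    set y : Option J → ZMod 3 := fun o => x o + ew e o * ε with hydef
    have hy2 : Kc hi (∏ o, pw π κ o ^ (y o).val) (fun σ => h σ + n * -a σ) := by
      refine kc_exp (pw_ne hD) (fun o => ?_) hy
      rw [ZMod.natCast_zmod_val, hydef]
      push_cast
      rw [hn3, ZMod.natCast_zmod_val]
    have hyj : y (some j) = 0 :=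
      not_dvd_unr hD y hy2 hp3 ι j hl (fun τ σ hcc _ => hy1 τ σ hcc)
    have hεv : ε = -v (some j) := by
      have h1 : (x (some j) : ZMod 3) + ew e (some j) * ε = 0 := hyj
      have h2 := esqw hD (some j)
      rw [hxv (some j)] at h1
      calc ε = (ew e (some j) * ew e (some j)) * ε := by rw [h2, one_mul]
        _ = ew e (some j) * (ew e (some j) * v (some j) + ew e (some j) * ε) -
            (ew e (some j) * ew e (some j)) * v (some j) := by ring
        _ = _ := by rw [h1, h2]; ring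
    have hyi : ∀ o, y o = ew e o * (v o - v (some j)) := by
      intro i
      rw [hydef]
      change (x i : ZMod 3) + ew e i * ε = _
      rw [hxv i, hεv]
      ring
    have e2 : ∏ o, pw π κ o ^ (y o).val =
        ∏ o ∈ Finset.univ.erase (some j), pw π κ o ^ (y o).val := by
      rw [← Finset.mul_prod_erase Finset.univ (fun o => pw π κ o ^ (y o).val)
        (Finset.mem_univ (some j)), hyj, ZMod.val_zero, pow_zero, one_mul]
    rw [e2] at hy2
    have hcube := resid_kc hy2 hp3 ι (hD.pq j).prime hl hy1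
    have hnd := not_dvd_prodw (κ := κ) hD j (fun o => (y o).val)
    have h9 := (hD.pq j).norm
    have hpj := (hD.pq j).prime
    have hcs := (cs_zero_iff hpj h9 hnd).2 hcube
    have hnd1 : ∀ i ∈ Finset.univ.erase (some j), ¬ π j ∣ pw π κ i := fun i hij =>
      ndw hD j i (Finset.ne_of_mem_erase hij)
    rw [cs_prod hpj h9 _ _ (fun i hij h1 => hnd1 i hij (hpj.dvd_of_dvd_pow h1))] at hcs
    have h10 : ∑ o : Option J, ew e o * cs (π j) (pw π κ o) * (v o - v (some j)) = 0 := by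
      rw [← Finset.add_sum_erase Finset.univ _ (Finset.mem_univ (some j)), sub_self, mul_zero,
        zero_add, ← hcs]
      refine Finset.sum_congr rfl fun i hij => ?_
      rw [cs_pow hpj h9 (hnd1 i hij), ZMod.natCast_zmod_val, hyi i]
      ring
    rw [Fintype.sum_option] at h10
    have h11 : cs (π j) (pw π κ none) = ts κ (π j) := by
      rw [pw_none, cs_pD (hD.pq j)]
    rw [h11] at h10
    simp only [ew_none, ew_some, pw_some] at h10
    linear_combination h10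
  have hconst : ∀ o, v o = v none := by
    have h1 := hker (fun i => v (some i) - v none) fun j => by
      have h2 := heq j
      have h3 : ∀ i, v (some i) - v none - (v (some j) - v none) = v (some i) - v (some j) :=
        fun i => by ring
      simp only [h3]
      rw [h2]
      ring
    intro o
    rcases o with _ | j
    · rfl
    · exact sub_eq_zero.1 (h1 j)
  -- conclusion
  refine ⟨-v none, fun σ => ?_⟩
  have h1 : Kc hi (∏ o, pw π κ o ^ ((ew e o).val * (v none).val)) h := by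
    refine kc_exp (pw_ne hD) (fun o => ?_) hx
    rw [hxv o, hconst o]
    push_cast
    rw [ZMod.natCast_zmod_val, ZMod.natCast_zmod_val]
  have h2 := kc_pow (pr0w hD _) hb (v none).val
  have e1 : (∏ o, pw π κ o ^ (ew e o).val) ^ (v none).val =
      ∏ o, pw π κ o ^ ((ew e o).val * (v none).val) := by
    rw [← Finset.prod_pow]
    refine Finset.prod_congr rfl fun i _ => ?_
    rw [← pow_mul]
  rw [e1] at h2
  have h3 := kc_uniq (pr0w hD _) h1 h2 σ
  rw [h3, ZMod.natCast_zmod_val]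
  ring

/-! ### descent -/

/-- a power of `3 w^κ` with trivial character -/
lemma kc_t {n : ZMod 3} {z : Ei} (hz : z = (3 * w ^ κ.val) ^ n.val) {h : GK i₀ → ZMod 3}
    (hK : Kc hi z h) (h0 : ∀ σ, h σ = 0) : n = 0 := by
  obtain ⟨ι⟩ := exists_emb3
  have hI := iota_sq' hi ι
  obtain ⟨s, hs⟩ := ex_root (ev i₀ hi z)
  have hm : ι s ∈ Pool.Agent.Y180.CT.Kl (ι i₀) := by
    intro τ hτ
    obtain ⟨σ, hc⟩ := exists_cmp ι τ hτ
    rw [hc, hK s hs σ, h0 σ, ZMod.val_zero, pow_zero, one_mul]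
  have h1 := Pool.Agent.Helper68.C2.Loc3b.three_dvd (v := ι s) (u := (-(w ^ κ.val)) ^ n.val)
    (q := 0) (g := 2 * n.val) hI ((w_unit.pow _).neg.pow _) hm (by
      rw [← norm_pow, ← map_pow, hs, hz, Pool.Agent.Y180.CT.iota_ev' hi ι]
      congr 2
      rw [lam3]
      ring)
  revert h1
  clear hz
  revert n
  decide

/-- `D` is not a cube -/
theorem a_ne (hD : Dt π e) {u : QB} {a : GK i₀ → ZMod 3}
    (hT : Tw hi (pD5 π e κ) u a) : ∃ σ, a σ ≠ 0 := by
  by_contra hcon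
  push Not at hcon
  obtain ⟨ι⟩ := exists_emb3
  have hI := iota_sq' hi ι
  have hm : ι u ∈ Pool.Agent.Y180.CT.Kl (ι i₀) := by
    intro τ hτ
    obtain ⟨σ, hc⟩ := exists_cmp ι τ hτ
    rw [hc, hT.act σ, hcon σ, neg_zero, ZMod.val_zero, pow_zero, one_mul]
  obtain ⟨q, hq⟩ := prod_form hD (fun j => (e j).val)
  have hq' : pD π e = 1 + 3 * q := by
    unfold pD
    rw [← hq]
    ring
  have h1 := Pool.Agent.Helper68.C2.Loc3b.three_dvd (v := ι u) (u := -(w ^ κ.val)) (q := q)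
    (g := 2) hI (w_unit.pow _).neg hm (by
      rw [← norm_pow, ← map_pow, hT.cube, Pool.Agent.Y180.CT.iota_ev' hi ι, ← hq']
      congr 2
      unfold pD5
      rw [lam3]
      ring)
  omega

theorem descK (hD : Dt π e) (hk : KerW π e κ) {u : QB} {a : GK i₀ → ZMod 3}
    (hT : Tw hi (pD5 π e κ) u a) : ShK hi a ∧ MwK hi a := by
  have hne : pD5 π e κ ≠ 0 := pD5_ne hD
  have hsel : Sel1 hi a := sel5 hD hk hT
  exact ⟨Pool.Agent.Y155.CT.t_SHK _ hne i₀ hi u a hT hsel,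
    Pool.Agent.Y155.CT.t_MWK _ hne i₀ hi u a hT (a_ne hD hT) hsel⟩

end Pool.Agent.Helper68.C5.Sel5
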