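import Pool.Agent.Helper68.C5.Sel5
import Pool.Agent.Helper68.C2.Selc2

/-!
# The converse of the descent for `D = 3 w^κ ∏ π_j^(e_j)`
-/

set_option autoImplicit false
set_option linter.unusedSectionVars false
set_option linter.unusedVariables false

open scoped Classical

namespace Pool.Agent.Helper68.C5.Selc5

open WeierstrassCurve
open Pool.Agent.Y692.QS (Ei w nr)
open Pool.Agent.Y715.T.Gi Pool.Agent.Y715.T.Nr Pool.Agent.Y715.T.Df Pool.Agent.Y715.T.Ell
open Pool.Agent.Y715.T.Red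
open Pool.Agent.Y715.T.Rec (cs)
open Pool.Agent.Y715.T.RecG
open Pool.Agent.Y715.T.Sel (kc_mul kc_one kc_congr kc_pow kc_uniq kc_exp ex_root root_ne
  iota_sq iota_ev odd_of not_dvd_of_unr i₀_mod exists_emb3)
open Pool.Agent.Y48.CT.SEL (p0 pr0 esq prod_form cf_prod not_assoc_lam)
open Pool.Agent.Y155.CT (a_mul a_cont)
open Pool.Agent.Y703.CT
open Pool.Agent.Helper68.C5 Pool.Agent.Helper68.C5.Sel5
open Pool.Agent.Helper68.C5.Chr5 (ts lt Cp cp_prim ts_prim ts_mul ts_u)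
open Pool.Agent.Helper68.C5.Sup5 (cs_pD)
open Pool.Agent.Helper68.C2.LK2 (w_unit not_dvd_w)

/-! ### The prime above three -/

lemma three_split (n : ℤ) : ∃ m k : ℤ, (k = 0 ∨ k = 1 ∨ k = -1) ∧ n = 3 * m + k := by
  rcases (by omega : n % 3 = 0 ∨ n % 3 = 1 ∨ n % 3 = 2) with h | h | h
  · exact ⟨n / 3, 0, Or.inl rfl, by omega⟩
  · exact ⟨n / 3, 1, Or.inr (Or.inl rfl), by omega⟩
  · exact ⟨n / 3 + 1, -1, Or.inr (Or.inr rfl), by omega⟩

/-- the kernel of the linear form -/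
lemma lt_zero {κ : ZMod 3} {b : Ei} (h : lt κ b = 0) :
    ∃ (c : ℤ) (t : Ei), (c = 0 ∨ c = 1 ∨ c = -1) ∧ b = (c : Ei) * w ^ κ.val + 3 * t := by
  have h3 : ∀ n : ℤ, ((n : ℤ) : ZMod 3) = 0 → ∃ m, n = 3 * m := fun n hn => by
    obtain ⟨m, hm⟩ := (ZMod.intCast_zmod_eq_zero_iff_dvd n 3).1 hn
    exact ⟨m, by exact_mod_cast hm⟩
  have e3 : (3 : Ei) = ⟨3, 0⟩ := by decide
  have ec : ∀ c : ℤ, (c : Ei) = ⟨c, 0⟩ := fun c => by
    ext
    · simp
    · simp
  have z3' : ∀ x : ZMod 3, x = 0 ∨ x = 1 ∨ x = 2 := by decide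
  unfold lt at h
  rcases z3' κ with rfl | rfl | rfl
  · have h1 : ((b.im : ℤ) : ZMod 3) = 0 := by linear_combination -h
    obtain ⟨m, hm⟩ := h3 _ h1
    obtain ⟨m', c, hc, hm'⟩ := three_split b.re
    refine ⟨c, ⟨m', m⟩, hc, ?_⟩
    have e0 : (0 : ZMod 3).val = 0 := rfl
    rw [e0, pow_zero, e3, ec]
    ext
    · simp
      linarith
    · simp
      linarith
  · have h1 : ((b.re : ℤ) : ZMod 3) = 0 := by linear_combination h
    obtain ⟨m, hm⟩ := h3 _ h1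
    obtain ⟨m', c, hc, hm'⟩ := three_split b.im
    refine ⟨c, ⟨m, m'⟩, hc, ?_⟩
    have e0 : (1 : ZMod 3).val = 1 := rfl
    have ew : (w : Ei) = ⟨0, 1⟩ := rfl
    rw [e0, pow_one, e3, ec, ew]
    ext
    · simp
      linarith
    · simp
      linarith
  · have e9 : (3 : ZMod 3) = 0 := by decide
    have h1 : ((b.im - b.re : ℤ) : ZMod 3) = 0 := by
      push_cast
      linear_combination h - (b.re : ZMod 3) * e9
    obtain ⟨m, hm⟩ := h3 _ h1
    obtain ⟨m', c, hc, hm'⟩ := three_split (-b.re)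
    refine ⟨c, ⟨-m', m - m'⟩, hc, ?_⟩
    have e0 : (2 : ZMod 3).val = 2 := rfl
    have ew : (w : Ei) ^ 2 = ⟨-1, -1⟩ := by decide
    rw [e0, ew, e3, ec]
    ext
    · simp
      linarith
    · simp
      linarith

open Pool.Agent.Y100.CT.CUB3 in
/-- local solutions at three -/
theorem cub5 {I : PadicAlgCl 3} (hI : I ^ 2 + I + 1 = 0) {B D t m : Ei} {κ : ZMod 3} {c : ℤ}
    (hc : c = 0 ∨ c = 1 ∨ c = -1)
    (hB : B = 1 + 3 * ((c : Ei) * w ^ κ.val + 3 * t)) (hD : D = 3 * w ^ κ.val * (1 + 3 * m)) :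
    ∃ s t r, Sol hI B D s t r := by
  have hfix : ∀ z : Ei, ∀ τ : Au 3, τ I = I → τ (ev I hI z) = ev I hI z :=
    fun z τ hτ => ev_fix hI hτ z
  have hc3 : (c : Ei) ^ 3 = c := by
    rcases hc with rfl | rfl | rfl <;> norm_num
  obtain ⟨z, hz⟩ : ∃ z, B ^ 2 + B * D * (c : Ei) ^ 3 = 1 + 9 * z := by
    rw [hc3]
    refine ⟨(c : Ei) * w ^ κ.val + 2 * t + ((c : Ei) * w ^ κ.val + 3 * t) ^ 2 +
      (c : Ei) * w ^ κ.val * (((c : Ei) * w ^ κ.val + 3 * t) + m +
        3 * ((c : Ei) * w ^ κ.val + 3 * t) * m), ?_⟩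
    rw [hB, hD]
    ring
  obtain ⟨s, hs, hs0, hsf⟩ := root hI (c := ev I hI (1 + 9 * z)) (hfix _) (by
    rw [map_add, map_one, add_sub_cancel_left]
    exact norm_nine hI z)
  refine ⟨s, 1, ev I hI (c : Ei), ⟨fun τ hτ => ⟨hsf τ hτ, map_one τ, hfix _ τ hτ⟩,
    Or.inl hs0, ?_⟩⟩
  rw [hs, ← hz, map_add, map_mul, map_mul, map_pow, map_pow]
  ring

variable {J : Type} [Fintype J] {π : J → Ei} {e : J → ZMod 3} {κ : ZMod 3}
variable {i₀ : QB} {hi : i₀ ^ 2 + i₀ + 1 = 0}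

/-! ### The primes dividing `D` -/

open Pool.Agent.Y153.CTRAM (u_ne exists_T3 jj_zero jj_one jj_neg_one jj_nsmul nsmul_tt) in
open Pool.Agent.Y379.CT (hensel exp_eq pow_val_eq_one) in
theorem ramc (hD : Dt π e) {u : QB} {a : GK i₀ → ZMod 3} (hT : Tw hi (pD5 π e κ) u a)
    (v : Option J → ZMod 3) (h : GK i₀ → ZMod 3)
    (hK : Kc hi (∏ o, pw π κ o ^ (ew e o * v o).val) h) (j : J)
    (hj : ∑ o, ew e o * cs (π j) (pw π κ o) * (v o - v (some j)) = 0)
    (p : ℕ) [Fact p.Prime] (ι : QB →ₐ[ℚ] PadicAlgCl p) (hp : p ≠ 3)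
    (hπ : ‖ι (ev i₀ hi (π j))‖ < 1) : ∃ R, St1 hi ι a h R := by
  have hI := iota_sq' hi ι
  have hu := u_ne hT (pD5_ne hD)
  have hπ' := hπ
  rw [iota_ev] at hπ'
  have hpr := (hD.pq j).prime
  have hnd : ∀ o, o ≠ some j → ¬ π j ∣ pw π κ o := fun o ho => ndw hD j o ho
  -- the local cube
  set M : Ei := ∏ o ∈ Finset.univ.erase (some j), pw π κ o ^ (ew e o * (v o - v (some j))).val
    with hM
  have hndp : ∀ i ∈ Finset.univ.erase (some j),
      ¬ π j ∣ pw π κ i ^ (ew e i * (v i - v (some j))).val := fun i hi' h1 =>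
    hnd i (Finset.ne_of_mem_erase hi') (hpr.dvd_of_dvd_pow h1)
  have hMd : ¬ π j ∣ M := by
    intro h1
    obtain ⟨i, hi', h2⟩ := (hpr.dvd_finsetProd_iff _).1 h1
    exact hndp i hi' h2
  have hcs : cs (π j) M = 0 := by
    rw [hM, Pool.Agent.Y715.T.RecG.cs_prod hpr (hD.pq j).norm _ _ hndp]
    rw [← Finset.add_sum_erase _ _ (Finset.mem_univ (some j))] at hj
    rw [sub_self, mul_zero, zero_add] at hj
    rw [← hj]
    refine Finset.sum_congr rfl fun i hi' => ?_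
    rw [Pool.Agent.Y715.T.RecG.cs_pow hpr (hD.pq j).norm (hnd i (Finset.ne_of_mem_erase hi')),
      ZMod.natCast_zmod_val]
    ring
  obtain ⟨x, hx⟩ := (Pool.Agent.Y715.T.RecG.cs_zero_iff hpr (hD.pq j).norm hMd).1 hcs
  have hxd : ¬ π j ∣ x := by
    intro h1
    apply hMd
    have h2 := dvd_add hx (dvd_pow h1 three_ne_zero)
    rwa [sub_add_cancel] at h2
  obtain ⟨s, hs, hs1, hsf⟩ := hensel hI hp (c := ev (ι i₀) hI M) (y := ev (ι i₀) hI x)
    (fun τ hτ => ev_fix hI hτ M) (fun τ hτ => ev_fix hI hτ x)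
    (eq_one_of_not_lt hI ((dvd_iff hI hpr hπ' x).not.1 hxd)) (by
      have h1 := (dvd_iff hI hpr hπ' _).1 hx
      rw [map_sub, map_pow, ← norm_neg, neg_sub] at h1
      exact h1)
  -- the identity between the products
  choose k hk using fun o => exp_eq (ew e o) (v o) (v (some j))
  have hprod : (∏ o, pw π κ o ^ (ew e o * v o).val) * pD5 π e κ ^ (-v (some j)).val =
      M * (∏ o, pw π κ o ^ k o) ^ 3 := by
    have h1 : M = ∏ o, pw π κ o ^ (ew e o * (v o - v (some j))).val := by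
      rw [← Finset.mul_prod_erase _ _ (Finset.mem_univ (some j)), sub_self, mul_zero,
        ZMod.val_zero, pow_zero, one_mul]
    rw [h1, pD5_eq]
    rw [← Finset.prod_pow, ← Finset.prod_pow, ← Finset.prod_mul_distrib,
      ← Finset.prod_mul_distrib]
    refine Finset.prod_congr rfl fun i _ => ?_
    rw [← pow_mul, ← pow_mul, ← pow_add, ← pow_add, hk, mul_comm (k i) 3]
  -- the cube root
  obtain ⟨b, hb⟩ := IsAlgClosed.exists_pow_nat_eq
    (ev i₀ hi (∏ o, pw π κ o ^ (ew e o * v o).val)) (n := 3) (by norm_num)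
  have hb0 : b ≠ 0 := by
    rintro rfl
    have h1 : ev i₀ hi (∏ o, pw π κ o ^ (ew e o * v o).val) = 0 := by rw [← hb]; ring
    exact pr0w hD _ (ev_inj hi h1)
  have hcube : (ι (b * u ^ (-v (some j)).val)) ^ 3 =
      (s * ev (ι i₀) hI (∏ o, pw π κ o ^ k o)) ^ 3 := by
    rw [← map_pow, mul_pow, ← pow_mul, mul_comm _ 3, pow_mul, hb, hT.cube, ← map_pow, ← map_mul,
      hprod, iota_ev, map_mul, mul_pow, hs, map_pow]
  obtain ⟨n, hn⟩ := cube_eq hI hcube
  have hchar : ∀ (τ : Au p) (σ : GK i₀), Cmp ι τ σ → h σ = -(v (some j) * a σ) := by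
    intro τ σ hc
    have hτI : τ (ι i₀) = ι i₀ := hc.fix
    have h1 : τ (ι (b * u ^ (-v (some j)).val)) = ι (b * u ^ (-v (some j)).val) := by
      rw [hn, map_mul, map_mul, map_pow, hτI, hsf τ hτI, ev_fix hI hτI]
    rw [hc] at h1
    have h2 := ι.injective h1
    have h3 : σ (b * u ^ (-v (some j)).val) =
        i₀ ^ ((h σ).val + (-a σ).val * (-v (some j)).val) * (b * u ^ (-v (some j)).val) := by
      rw [map_mul, map_pow, hK b hb σ, hT.act σ, mul_pow, ← pow_mul, pow_add]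
      ring
    rw [h3] at h2
    have h4 : i₀ ^ ((h σ).val + (-a σ).val * (-v (some j)).val) = 1 := by
      apply mul_right_cancel₀ (mul_ne_zero hb0 (pow_ne_zero (-v (some j)).val hu))
      rw [h2, one_mul]
    have h5 := pow_val_eq_one hi _ h4
    push_cast at h5
    rw [ZMod.natCast_zmod_val, ZMod.natCast_zmod_val, ZMod.natCast_zmod_val] at h5
    linear_combination h5
  -- the point
  obtain ⟨hn3, hT3⟩ := exists_T3 hI
  set T3 : Pt (PadicAlgCl p) := Affine.Point.some (-1) ((ι i₀) ^ 2) hn3 with hT3d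
  have hjT3 : ∀ c : ZMod 3, jj hI c T3 = T3 - tt _ c := by
    intro c
    rcases z3 c with rfl | rfl | rfl
    · rw [jj_zero, tt_zero, sub_zero]
    · rw [jj_one, hT3]
    · rw [jj_neg_one, hT3, map_sub, im_tt, hT3, sub_sub, ← tt_add]
      congr 2
  have hlT3 : ∀ τ : Au p, τ (ι i₀) = ι i₀ → pm (lh τ) T3 = T3 := by
    intro τ hτI
    rw [hT3d, pm_some, Affine.Point.some.injEq]
    rw [lh_apply, lh_apply]
    constructor
    · rw [map_neg, map_one]
    · rw [map_pow, hτI]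
  refine ⟨(v (some j)).val • T3, fun τ σ hc => ?_⟩
  rw [map_nsmul, hlT3 τ hc.fix, jj_nsmul, hjT3, smul_sub, nsmul_tt, hchar τ σ hc, ← tt_neg]
  abel

/-! ### The form of `B` -/

/-- the sum of the equations -/
lemma sum_zero (hD : Dt π e) {v : J → ZMod 3}
    (hv : ∀ j, ∑ i, e i * cs (π j) (π i) * (v i - v j) = ts κ (π j) * v j) :
    ∑ j, e j * v j * ts κ (π j) = 0 := by
  have h1 := Pool.Agent.Helper68.C2.Comb2.last_eq (a := fun i j => e j * cs (π i) (π j)) (ε := e)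
    (b := fun i => ts κ (π i)) (v := v) (c := 0) (fun i j hij => by
      show e i * (e j * cs (π i) (π j)) = e j * (e i * cs (π j) (π i))
      rw [Pool.Agent.Y350.CT.rec (π i) (π j) (hD.pq i) (hD.pq j) (hD.nd i j hij)]
      ring) (fun i => by
      rw [hv i]
      ring)
  have h2 : -∑ j, e j * v j * ts κ (π j) = 0 := by
    rw [← h1, ← Finset.sum_neg_distrib]
    exact Finset.sum_congr rfl fun j _ => by ring
  exact neg_eq_zero.1 h2

lemma cp_one : Cp 1 := ⟨0, by rw [one_pow, mul_zero, add_zero]⟩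

lemma ts_pow {α : Ei} (h : Cp α) (n : ℕ) : Cp (α ^ n) ∧ ts κ (α ^ n) = n * ts κ α := by
  induction n with
  | zero =>
    rw [pow_zero, Nat.cast_zero, zero_mul]
    exact ⟨cp_one, ts_u (one_pow 6)⟩
  | succ n ih =>
    rw [pow_succ]
    refine ⟨ih.1.mul h, ?_⟩
    rw [ts_mul ih.1 h, ih.2]
    push_cast
    ring

lemma ts_prodf (S : Finset J) {f : J → Ei} (h : ∀ j, Cp (f j)) :
    Cp (∏ j ∈ S, f j) ∧ ts κ (∏ j ∈ S, f j) = ∑ j ∈ S, ts κ (f j) := by
  induction S using Finset.induction_on with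
  | empty =>
    rw [Finset.prod_empty, Finset.sum_empty]
    exact ⟨cp_one, ts_u (one_pow 6)⟩
  | insert i S his ih =>
    rw [Finset.prod_insert his, Finset.sum_insert his]
    refine ⟨(h i).mul ih.1, ?_⟩
    rw [ts_mul (h i) ih.1, ih.2]

lemma cp_pq {ρ : Ei} (h : Pq ρ) : Cp ρ := by
  obtain ⟨t, ht⟩ := h.three
  have e1 : ρ = 1 + 3 * t := by rw [← ht]; ring
  rw [e1]
  exact cp_prim t

/-- the form of `B` -/
lemma form_B (hD : Dt π e) {v : J → ZMod 3} (h0 : ∑ j, e j * v j * ts κ (π j) = 0) :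
    ∃ (c : ℤ) (t : Ei), (c = 0 ∨ c = 1 ∨ c = -1) ∧
      ∏ j, π j ^ (e j * v j).val = 1 + 3 * ((c : Ei) * w ^ κ.val + 3 * t) := by
  obtain ⟨q, hq⟩ := prod_form hD (fun j => (e j * v j).val)
  have hq' : ∏ j, π j ^ (e j * v j).val = 1 + 3 * q := by rw [← hq]; ring
  have h1 := (ts_prodf (κ := κ) Finset.univ (f := fun j => π j ^ (e j * v j).val)
    (fun j => (ts_pow (κ := κ) (cp_pq (hD.pq j)) _).1)).2
  have h2 : ts κ (∏ j, π j ^ (e j * v j).val) = 0 := by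
    rw [h1, ← h0]
    refine Finset.sum_congr rfl fun j _ => ?_
    rw [(ts_pow (cp_pq (hD.pq j)) _).2, ZMod.natCast_zmod_val]
  rw [hq', ts_prim, neg_eq_zero] at h2
  obtain ⟨c, t, hc, hqc⟩ := lt_zero h2
  exact ⟨c, t, hc, by rw [hq', hqc]⟩

lemma prod_v' (v : J → ZMod 3) : ∏ o, pw π κ o ^ (ew e o * Option.elim o 0 v).val =
    ∏ j, π j ^ (e j * v j).val := by
  rw [prod_pw]
  show (3 * w ^ κ.val) ^ (1 * (0 : ZMod 3)).val * _ = _
  rw [mul_zero, ZMod.val_zero, pow_zero, one_mul]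
  rfl

/-- **kernel vectors give locally solvable characters** -/
theorem kloc5 (hD : Dt π e) {u : QB} {a : GK i₀ → ZMod 3} (hTw : Tw hi (pD5 π e κ) u a)
    {v : J → ZMod 3}
    (hv : ∀ j, ∑ i, e i * cs (π j) (π i) * (v i - v j) = ts κ (π j) * v j)
    {h : GK i₀ → ZMod 3} (hKc : Kc hi (∏ j, π j ^ (e j * v j).val) h)
    (p : ℕ) [Fact p.Prime] (ι : QB →ₐ[ℚ] PadicAlgCl p) : ∃ R, St1 hi ι a h R := by
  have hB0 : (∏ j, π j ^ (e j * v j).val) ≠ 0 := pr0 hD _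
  have hD0 : pD5 π e κ ≠ 0 := pD5_ne hD
  obtain ⟨c, t, hc, hb⟩ := form_B hD (sum_zero hD hv)
  by_cases hp3 : p = 3
  · subst hp3
    obtain ⟨m, hm⟩ := prod_form hD (fun j => (e j).val)
    refine Pool.Agent.Y674.CT.t_PT i₀ hi _ _ hB0 hD0 u a hTw _ hKc 3 ι ?_
    refine cub5 (iota_sq' hi ι) (κ := κ) (m := m) hc hb ?_
    unfold pD5 pD
    rw [← hm]
    ring
  · by_cases hj : ∃ j, ‖ι (ev i₀ hi (π j))‖ < 1
    · obtain ⟨j, hj⟩ := hj
      refine ramc (κ := κ) hD hTw (fun o => Option.elim o 0 v) _ (by rw [prod_v']; exact hKc)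
        j ?_ p ι hp3 hj
      rw [Fintype.sum_option]
      have h11 : cs (π j) (pw π κ none) = ts κ (π j) := by
        rw [pw_none, cs_pD (hD.pq j)]
      rw [h11]
      have h12 := hv j
      show 1 * ts κ (π j) * (0 - v j) + ∑ i, e i * cs (π j) (π i) * (v i - v j) = 0
      rw [h12]
      ring
    · have hj' : ∀ o, ¬ ‖ev (ι i₀) (iota_sq' hi ι) (pw π κ o)‖ < 1 := by
        rintro (_ | j) h1
        · rw [pw_none, norm_t_one hp3] at h1
          exact lt_irrefl _ h1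
        · apply hj
          refine ⟨j, ?_⟩
          rw [iota_ev]
          exact h1
      refine Pool.Agent.Y674.CT.t_PT i₀ hi _ _ hB0 hD0 u a hTw _ hKc p ι
        (Pool.Agent.Y379.CT.t_CUB Pool.Agent.Y319.CT.t_FF p hp3 (ι i₀) (iota_sq' hi ι) _ _
          (Pool.Agent.Y363.CT.SELC.not_lt_prod _ (fun j => hj' (some j)) _) ?_)
      rw [pD5_eq]
      exact Pool.Agent.Y363.CT.SELC.not_lt_prod _ hj' _

/-- characters of products: if the product is a cube then all exponents vanish -/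
lemma exp_zero5 (hD : Dt π e) (y : Option J → ZMod 3) {h : GK i₀ → ZMod 3}
    (hk : Kc hi (∏ o, pw π κ o ^ (y o).val) h) (h0 : ∀ σ, h σ = 0) (o : Option J) : y o = 0 := by
  have key : ∀ j, y (some j) = 0 := by
    intro j
    obtain ⟨p, hp, ι, hl⟩ := exists_emb hi (hD.pq j).prime
    have hp3 := odd_of hi ι (hD.pq j).prime hl (not_assoc_lam (hD.pq j))
    exact not_dvd_unr hD y hk hp3 ι j hl (fun τ σ _ _ => h0 σ)
  rcases o with _ | j
  · refine kc_t (κ := κ) ?_ hk h0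
    rw [prod_pw, Finset.prod_eq_one, mul_one]
    intro j _
    rw [key j, ZMod.val_zero, pow_zero]
  · exact key j

/-- a character that is a multiple of `a` comes from a constant vector -/
theorem const5 (hD : Dt π e) {u : QB} {a : GK i₀ → ZMod 3} (hTw : Tw hi (pD5 π e κ) u a)
    {v : J → ZMod 3} {h : GK i₀ → ZMod 3} (hKc : Kc hi (∏ j, π j ^ (e j * v j).val) h)
    {c : ZMod 3} (hc : ∀ σ, h σ = c * a σ) (j : J) : v j = 0 := by
  have hD0 : pD5 π e κ ≠ 0 := pD5_ne hD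
  set v' : Option J → ZMod 3 := fun o => Option.elim o 0 v with hv'
  have hKc' : Kc hi (∏ o, pw π κ o ^ (ew e o * v' o).val) h := by
    have e1 := prod_v' (π := π) (e := e) (κ := κ) v
    rw [← e1] at hKc
    exact hKc
  have hB0 : (∏ o, pw π κ o ^ (ew e o * v' o).val) ≠ 0 := pr0w hD _
  have hb' : Kc hi (∏ o, pw π κ o ^ (ew e o).val) (fun σ => -a σ) := by
    rw [← pD5_eq]
    exact kc_of hi (root_ne (hi := hi) hD0 hTw.cube) hTw.cube hTw.act
  have hy := kc_mul hB0 (pow_ne_zero c.val (pr0w hD _)) hKc' (kc_pow (pr0w hD _) hb' c.val)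
  have ey : (∏ o, pw π κ o ^ (ew e o * v' o).val) * (∏ o, pw π κ o ^ (ew e o).val) ^ c.val =
      ∏ o, pw π κ o ^ ((ew e o * v' o).val + (ew e o).val * c.val) := by
    rw [← Finset.prod_pow, ← Finset.prod_mul_distrib]
    refine Finset.prod_congr rfl fun i _ => ?_
    rw [← pow_mul, ← pow_add]
  rw [ey] at hy
  have hy2 : Kc hi (∏ o, pw π κ o ^ (ew e o * (v' o + c)).val)
      (fun σ => h σ + (c.val : ZMod 3) * -a σ) := by
    refine kc_exp (pw_ne hD) (fun i => ?_) hy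
    push_cast
    rw [ZMod.natCast_zmod_val, ZMod.natCast_zmod_val, ZMod.natCast_zmod_val,
      ZMod.natCast_zmod_val]
    ring
  have hy3 : ∀ σ : GK i₀, h σ + (c.val : ZMod 3) * -a σ = 0 := by
    intro σ
    rw [hc σ, ZMod.natCast_zmod_val]
    ring
  have h1 := exp_zero5 hD (fun o => ew e o * (v' o + c)) hy2 hy3
  have h2 : c = 0 := by
    have h3 : (1 : ZMod 3) * (0 + c) = 0 := h1 none
    rwa [one_mul, zero_add] at h3
  have h4 : e j * (v j + c) = 0 := h1 (some j)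
  rw [h2, add_zero] at h4
  exact (mul_eq_zero.1 h4).resolve_left (hD.e0 j)

/-- **The converse.** -/
theorem selc5 (hD : Dt π e) (hker : ¬ KerW π e κ) {u : QB} {a : GK i₀ → ZMod 3}
    (hTw : Tw hi (pD5 π e κ) u a) : ¬ Sel1 hi a := by
  intro hsel
  have hker' : ∃ v : J → ZMod 3,
      (∀ j, ∑ i, e i * cs (π j) (π i) * (v i - v j) = ts κ (π j) * v j) ∧
      ∃ i₁, v i₁ ≠ 0 := by
    by_contra hcon
    apply hker
    intro v hv i
    by_contra hne
    exact hcon ⟨v, hv, i, hne⟩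
  obtain ⟨v, hv, i₁, hne⟩ := hker'
  have hB0 : (∏ j, π j ^ (e j * v j).val) ≠ 0 := pr0 hD _
  obtain ⟨β, a', hTw'⟩ := Pool.Agent.Y363.CT.SELC.exists_tw (hi := hi)
    (∏ j, π j ^ (e j * v j).val)
  have hm : ∀ σ τ : GK i₀, -a' (σ * τ) = -a' σ + -a' τ := by
    intro σ τ
    rw [a_mul hB0 hTw' σ τ]
    ring
  have hc : IsLocallyConstant (fun σ : GK i₀ => -a' σ) :=
    (a_cont hB0 hTw').comp (fun c : ZMod 3 => -c)
  have hKc : Kc hi (∏ j, π j ^ (e j * v j).val) (fun σ => -a' σ) :=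
    kc_of hi (root_ne (hi := hi) hB0 hTw'.cube) hTw'.cube hTw'.act
  obtain ⟨c, hc'⟩ := hsel _ hc hm (fun p _ ι => kloc5 hD hTw hv hKc p ι)
  exact hne (const5 hD hTw hKc hc' i₁)

end Pool.Agent.Helper68.C5.Selc5
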