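import Pool.Agent.Helper68.C5.Lim5b

/-!
# The Hecke characters of conductor divisible by nine
-/

set_option autoImplicit false
set_option linter.unusedSectionVars false

open scoped Classical

namespace Pool.Agent.Helper68.C5.Hec5

open Pool.Agent.Y692.QS (Ei w toC)
open Pool.Agent.Y703.CT
open Pool.Agent.W192.HK
open Pool.Agent.Y715.Idn Pool.Agent.Y696
open Pool.Agent.Y715.T.Rs (eq0)
open Pool.Agent.Y715.T.Lat (la la_sq ez)
open Pool.Agent.Y715.T.LF (rd rd_ez rd_eq_zero)
open Pool.Agent.Y703.CT.Ana (ej eo_j ej_u ej_ncop ej_prim)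
open Pool.Agent.Y715.CT.Hec (cP XX X_mul X_per X_one X_neg_one X_cube X_ne_iff X_ne_cop unitG cop3
  cP_ne cop_la la_ne prime_la nd_unit w_ne)
open Pool.Agent.Helper68.C5.Chr5 Pool.Agent.Helper68.C5.Lim5
open Pool.Agent.Helper68.C2.Chr (norm_w_pow)

variable {J : Type} [Fintype J] {π : J → Ei} {e : J → ZMod 3} {κ : ZMod 3}

lemma cop_ff {α : eis} : IsCoprime α ff ↔ IsCoprime α 3 := by
  unfold ff
  rw [IsCoprime.mul_right_iff, and_self]

lemma ff_la : ff = la * -(la * 3) := by
  unfold ff
  linear_combination 3 * la_sq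

lemma ek_one (j : Fin 3) : ek κ j 1 = 1 := by
  rw [ek_u j isUnit_one]
  push_cast
  rw [one_pow]

/-- the function on the elements -/
noncomputable def gg (π : J → Ei) (e : J → ZMod 3) (κ : ZMod 3) (j : Fin 3) (α : eis) : ℂ :=
  (α : ℂ) * (starRingEnd ℂ) (ek κ j α * XX π e α)

/-- the Hecke character -/
noncomputable def th (π : J → Ei) (e : J → ZMod 3) (κ : ZMod 3) (j : Fin 3) (I : Ideal eis) : ℂ :=
  gg π e κ j (Submodule.IsPrincipal.generator I)

section T

variable (h : Dt π e) {j : Fin 3} (hj : om ^ (2 * (j : ℕ)) * XX π e omr = 1)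

include h

lemma gg_mul (α β : eis) : gg π e κ j (α * β) = gg π e κ j α * gg π e κ j β := by
  unfold gg
  rw [X_mul h, (eo_k κ j).mul]
  push_cast
  simp only [map_mul]
  ring

include hj

lemma gg_unit {u : eis} (hu : IsUnit u) : gg π e κ j u = 1 := by
  unfold gg
  have h1 := unitG h hj hu
  have h2 : Complex.normSq (u : ℂ) = 1 := (isUnit_iff' u).1 hu
  have h3 : (u : ℂ) * (starRingEnd ℂ) (u : ℂ) = 1 := by
    rw [Complex.mul_conj, h2, Complex.ofReal_one]
  rw [ek_u j hu, pow_succ]
  have h4 : (starRingEnd ℂ) ((u : ℂ) ^ (2 * (j : ℕ)) * XX π e u) = 1 := by rw [h1, map_one]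
  rw [map_mul] at h4
  simp only [map_mul]
  linear_combination h3 * ((starRingEnd ℂ) ((u : ℂ) ^ (2 * (j : ℕ))) *
    (starRingEnd ℂ) (XX π e u)) + h4

lemma gg_assoc {α β : eis} (hab : Associated α β) : gg π e κ j α = gg π e κ j β := by
  obtain ⟨u, rfl⟩ := hab
  rw [gg_mul h, gg_unit h hj u.isUnit, mul_one]

lemma th_sp (α : eis) : th π e κ j (sp α) = gg π e κ j α := by
  refine gg_assoc h hj ?_
  rw [← Ideal.span_singleton_eq_span_singleton]
  exact Ideal.span_singleton_generator _

omit h hj in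
lemma ek_zero_iff {α : eis} : ek κ j α = 0 ↔ ¬ IsCoprime α 3 := by
  constructor
  · intro h1 h2
    unfold ek at h1
    rcases mul_eq_zero.1 h1 with h1 | h1
    · obtain ⟨u, hu, hu3⟩ := cop_three h2
      rw [(eo_j j).per _ _ hu3, ej_u j hu] at h1
      have h3 : (u : ℂ) = 0 := by
        by_contra h4
        exact pow_ne_zero _ h4 h1
      exact hu.ne_zero (coe_inj' h3)
    · have h4 := norm_w_pow (tl κ α).val
      rw [h1, norm_zero] at h4
      exact zero_ne_one h4
  · exact ek_ncop j

omit hj in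
lemma gg_zero_iff {α : eis} : gg π e κ j α = 0 ↔ (α = 0 ∨ ¬ IsCoprime α (ff * cP π)) := by
  rw [IsCoprime.mul_right_iff, cop_ff, ← X_ne_cop h]
  unfold gg
  rw [mul_eq_zero, map_eq_zero, mul_eq_zero, ek_zero_iff]
  have h2 : (α : ℂ) = 0 ↔ α = 0 := by
    constructor
    · intro h3
      exact coe_inj' h3
    · rintro rfl
      rfl
  rw [h2]
  tauto

omit hj in
lemma ex_div {q' : Ideal eis} (hq : sp (ff * cP π) < q') :
    la * 3 * cP π ∈ q' ∨ ∃ i, ff * cc (fun i => eq0 (π i)) (Finset.univ.erase i) ∈ q' := by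
  obtain ⟨d, rfl⟩ : ∃ d : eis, q' = sp d :=
    ⟨_, (Submodule.IsPrincipal.span_singleton_generator q').symm⟩
  obtain ⟨t, ht⟩ : d ∣ ff * cP π := Ideal.span_singleton_le_span_singleton.1 hq.le
  have hne : ff * cP π ≠ 0 := mul_ne_zero ff_ne (cP_ne h)
  have ht0 : t ≠ 0 := by
    rintro rfl
    rw [mul_zero] at ht
    exact hne ht
  have hnu : ¬ IsUnit t := by
    intro hu
    obtain ⟨v, hv⟩ := hu.exists_right_inv
    have h2 : ff * cP π ∣ d := ⟨v, by rw [ht, mul_assoc, hv, mul_one]⟩
    have := Ideal.span_singleton_le_span_singleton.2 h2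
    exact absurd (le_antisymm hq.le this) hq.ne
  obtain ⟨ρ, hρ, s, hs⟩ := WfDvdMonoid.exists_irreducible_factor hnu ht0
  have hρ' := hρ.prime
  have hd : ρ ∣ ff * cP π := ⟨d * s, by rw [ht, hs]; ring⟩
  rcases hρ'.dvd_or_dvd hd with h1 | h1
  · left
    have h1' : ρ ∣ la := by
      have e3 : ff = (la * la) * (la * la) := by
        unfold ff
        rw [la_sq]
        ring
      rw [e3] at h1
      rcases hρ'.dvd_or_dvd h1 with h4 | h4
      · rcases hρ'.dvd_or_dvd h4 with h5 | h5
        · exact h5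
        · exact h5
      · rcases hρ'.dvd_or_dvd h4 with h5 | h5
        · exact h5
        · exact h5
    obtain ⟨u, hu⟩ := hρ'.associated_of_dvd prime_la h1'
    have h3 : ρ * (u * -(la * 3 * cP π)) = ρ * (d * s) := by
      have h5 : ff * cP π = d * (ρ * s) := by rw [ht, hs]
      rw [ff_la] at h5
      linear_combination h5 - (la * 3 * cP π) * hu
    have h4 := mul_left_cancel₀ hρ'.ne_zero h3
    rw [Ideal.mem_span_singleton']
    refine ⟨-(s * (↑u⁻¹ : eis)), ?_⟩
    have h5 : (↑u⁻¹ : eis) * u = 1 := u.inv_mul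
    linear_combination (↑u⁻¹ : eis) * h4 + (la * 3 * cP π) * h5
  · right
    unfold cP cc at h1
    rw [hρ'.dvd_finsetProd_iff] at h1
    obtain ⟨i, -, hi⟩ := h1
    have hpi : Prime (eq0 (π i)) := (MulEquiv.prime_iff (eq0 : Ei ≃* eis)).2 (h.pq i).prime
    obtain ⟨u, hu⟩ := hρ'.associated_of_dvd hpi hi
    refine ⟨i, ?_⟩
    have hc : cP π = eq0 (π i) * cc (fun i => eq0 (π i)) (Finset.univ.erase i) := by
      unfold cP
      rw [← cc_insert (π := fun i => eq0 (π i)) (Finset.notMem_erase i Finset.univ),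
        Finset.insert_erase (Finset.mem_univ i)]
    have h3 : ρ * (u * (ff * cc (fun i => eq0 (π i)) (Finset.univ.erase i))) =
        ρ * (d * s) := by
      have h5 : ff * cP π = d * (ρ * s) := by rw [ht, hs]
      rw [hc, ← hu] at h5
      linear_combination h5
    have h4 := mul_left_cancel₀ hρ'.ne_zero h3
    rw [Ideal.mem_span_singleton']
    refine ⟨s * (↑u⁻¹ : eis), ?_⟩
    have h5 : (↑u⁻¹ : eis) * u = 1 := u.inv_mul
    linear_combination -(↑u⁻¹ : eis) * h4 +
      (ff * cc (fun i => eq0 (π i)) (Finset.univ.erase i)) * h5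

omit hj in
lemma cP_prim : cP π - 1 ∈ (sp 3 : Ideal eis) := by
  unfold cP cc
  have key : ∀ S : Finset J, (∏ i ∈ S, eq0 (π i)) - 1 ∈ (sp 3 : Ideal eis) := by
    intro S
    induction S using Finset.induction_on with
    | empty =>
      rw [Finset.prod_empty, sub_self]
      exact Submodule.zero_mem _
    | insert k S hk ih =>
      rw [Finset.prod_insert hk]
      have h4 := (sp 3 : Ideal eis).add_mem ((sp 3 : Ideal eis).mul_mem_left (eq0 (π k)) ih)
        (Pool.Agent.Y715.T.Ex.three_mem.2 (h.pq k).three)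
      have e1 : eq0 (π k) * ∏ i ∈ S, eq0 (π i) - 1 =
          eq0 (π k) * (∏ i ∈ S, eq0 (π i) - 1) + (eq0 (π k) - 1) := by ring
      rw [e1]
      exact h4
  exact key _

/-- **The primitive Hecke character.** -/
theorem hc_th : HC 1 (sp (ff * cP π)) (th π e κ j) := by
  refine ⟨?_, ?_, ?_, ?_, ?_⟩
  · rw [Ne, Ideal.span_singleton_eq_bot]
    exact mul_ne_zero ff_ne (cP_ne h)
  · intro I K
    obtain ⟨α, rfl⟩ : ∃ α : eis, I = sp α :=
      ⟨_, (Submodule.IsPrincipal.span_singleton_generator I).symm⟩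
    obtain ⟨β, rfl⟩ : ∃ β : eis, K = sp β :=
      ⟨_, (Submodule.IsPrincipal.span_singleton_generator K).symm⟩
    have e1 : sp α * sp β = sp (α * β) := Ideal.span_singleton_mul_span_singleton α β
    rw [e1, th_sp h hj, th_sp h hj, th_sp h hj, gg_mul h]
  · intro I
    obtain ⟨α, rfl⟩ : ∃ α : eis, I = sp α :=
      ⟨_, (Submodule.IsPrincipal.span_singleton_generator I).symm⟩
    rw [th_sp h hj, gg_zero_iff h, Ideal.span_singleton_eq_bot,
      Ideal.isCoprime_span_singleton_iff]
  · intro α _ hα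
    rw [th_sp h hj, pow_one]
    unfold gg
    rw [(eo_k κ j).per α 1 (sp_mul_le' hα), ek_one, X_per h (sp_mul_le hα), X_one h, mul_one,
      map_one, mul_one]
  · intro q' hq
    have h3c := cop3 h
    rcases ex_div h hq with h1 | ⟨i, h1⟩
    · set α : eis := 1 + 3 * (la * cP π) with hα
      have hα1 : α - 1 ∈ (sp (cP π) : Ideal eis) := by
        rw [Ideal.mem_span_singleton']
        exact ⟨3 * la, by rw [hα]; ring⟩
      have hα3 : α - 1 ∈ (sp 3 : Ideal eis) := by
        rw [Ideal.mem_span_singleton']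
        exact ⟨la * cP π, by rw [hα]; ring⟩
      have hX : XX π e α = 1 := by rw [X_per h hα1, X_one h]
      have hcop : IsCoprime α 3 := cop_of_unit isUnit_one hα3
      have hα0 : α ≠ 0 := prim_ne hα3
      have hek : ek κ j α = toC w ^ (-1 : ZMod 3).val := by
        rw [hα, ek_prim]
        congr 2
        rw [← ll_la κ]
        apply ll_per
        obtain ⟨t, ht⟩ := Ideal.mem_span_singleton'.1 (cP_prim h)
        rw [Ideal.mem_span_singleton']
        exact ⟨la * t, by linear_combination la * ht⟩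
      refine ⟨α, hα0, ?_, ?_, ?_⟩
      · rw [hα, add_sub_cancel_left]
        have e1 : 3 * (la * cP π) = la * 3 * cP π := by ring
        rw [e1]
        exact h1
      · rw [Ideal.isCoprime_span_singleton_iff, IsCoprime.mul_right_iff, cop_ff, ← X_ne_cop h, hX]
        exact ⟨hcop, one_ne_zero⟩
      · rw [th_sp h hj, pow_one]
        unfold gg
        rw [hX, mul_one, hek, zk_two]
        intro h2
        have h4 : (α : ℂ) ≠ 0 := fun h5 => hα0 (coe_inj' h5)
        have h5 : (starRingEnd ℂ) (om ^ 2) = 1 := mul_left_cancel₀ h4 (by rw [h2, mul_one])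
        have h6 := congrArg (starRingEnd ℂ) h5
        rw [Complex.conj_conj, map_one] at h6
        apply Pool.Agent.Y715.CT.Hec.om_ne_one
        linear_combination -om * h6 + om_cube
    · set P : J → eis := fun i => eq0 (π i) with hP
      set ci : eis := cc P (Finset.univ.erase i) with hci
      obtain ⟨g, hg0, hg⟩ := ex_ne (h.pq i)
      have hci3 : IsCoprime (ff * ci) (P i) := by
        rw [IsCoprime.mul_left_iff]
        constructor
        · have h4 := cop3 h
          unfold cP cc at h4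
          rw [IsCoprime.prod_right_iff] at h4
          have h5 := h4 i (Finset.mem_univ i)
          unfold ff
          exact h5.mul_left h5
        · exact ((Xc_fm h).cop_cc (Finset.notMem_erase i _)).symm
      obtain ⟨a, b, hab⟩ := hci3
      set α : eis := 1 + a * (ff * ci) * (eq0 g - 1) with hα
      have hαf : α - 1 ∈ (sp ff : Ideal eis) := by
        rw [Ideal.mem_span_singleton']
        exact ⟨a * ci * (eq0 g - 1), by rw [hα]; ring⟩
      have hα3 : α - 1 ∈ (sp 3 : Ideal eis) := sp_ff_three hαf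
      have hαk : ∀ k, k ≠ i → α - 1 ∈ (sp (P k) : Ideal eis) := by
        intro k hk
        have h2 : α - 1 ∈ (sp ci : Ideal eis) := by
          rw [Ideal.mem_span_singleton']
          exact ⟨a * ff * (eq0 g - 1), by rw [hα]; ring⟩
        exact cc_mem (Finset.mem_erase.2 ⟨hk, Finset.mem_univ k⟩) h2
      have hαi : α - eq0 g ∈ (sp (P i) : Ideal eis) := by
        rw [Ideal.mem_span_singleton']
        exact ⟨-(eq0 g - 1) * b, by rw [hα]; linear_combination -(eq0 g - 1) * hab⟩
      have hX : XX π e α = Xc π e i (eq0 g) := by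
        unfold XX XT
        rw [← Finset.mul_prod_erase Finset.univ _ (Finset.mem_univ i), Finset.prod_eq_one, mul_one]
        · exact (Xc_fm h).per i _ _ hαi
        · intro k hk
          have h2 := (Xc_fm h).per k _ _ (hαk k (Finset.ne_of_mem_erase hk))
          rw [h2, Xc_of (nd_unit h isUnit_one k), map_one]
          have h4 := Pool.Agent.Y715.T.RecG.cs_one (h.pq k).prime (h.pq k).norm
          rw [h4, mul_zero, neg_zero, ZMod.val_zero, pow_zero]
      have hg1 : ¬ π i ∣ eq0.symm (eq0 g) := by rwa [RingEquiv.symm_apply_apply]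
      have hXg : Xc π e i (eq0 g) ≠ 1 := by
        rw [Xc_of hg1, RingEquiv.symm_apply_apply]
        intro h3
        have h4 : toC w ^ (-(e i * Pool.Agent.Y715.T.Rec.cs (π i) g)).val = toC w ^ 0 := by
          rw [h3, pow_zero]
        have h5 := Pool.Agent.Y715.T.Fin.w_pow_mod h4
        rw [ZMod.natCast_zmod_val, Nat.cast_zero, neg_eq_zero] at h5
        exact (mul_ne_zero (h.e0 i) hg) h5
      have hX0 : XX π e α ≠ 0 := by
        rw [hX, Xc_of hg1]
        exact pow_ne_zero _ (w_ne h)
      have hcop : IsCoprime α 3 := cop_of_unit isUnit_one hα3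
      have hα0 : α ≠ 0 := prim_ne hα3
      refine ⟨α, hα0, ?_, ?_, ?_⟩
      · have e1 : α - 1 = (a * (eq0 g - 1)) * (ff * ci) := by
          rw [hα]
          ring
        rw [e1]
        exact q'.mul_mem_left _ h1
      · rw [Ideal.isCoprime_span_singleton_iff, IsCoprime.mul_right_iff, cop_ff, ← X_ne_cop h]
        exact ⟨hcop, hX0⟩
      · rw [th_sp h hj, pow_one]
        unfold gg
        rw [hX, (eo_k κ j).per _ _ hαf, ek_one, one_mul]
        intro h2
        have h4 : (α : ℂ) ≠ 0 := fun h5 => hα0 (coe_inj' h5)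
        have h5 : (starRingEnd ℂ) (Xc π e i (eq0 g)) = 1 :=
          mul_left_cancel₀ h4 (by rw [h2, mul_one])
        have h6 := congrArg (starRingEnd ℂ) h5
        rw [Complex.conj_conj, map_one] at h6
        exact hXg h6

end T

end Pool.Agent.Helper68.C5.Hec5
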