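import Pool.Agent.Helper68.C5.Ana5

/-!
# The sums modulo the maximal ideal, characters modulo nine
-/

set_option autoImplicit false
set_option linter.unusedSectionVars false

open Filter
open scoped Topology PeriodPair

namespace Pool.Agent.Helper68.C5.Rec5

open H667R3 Pool.Agent.W192.HK Pool.Agent.TH936.CM Pool.Agent.TH936.PU
open Pool.Agent.Y715.Dist Pool.Agent.Y715.Idn Pool.Agent.Y715.T.Lat Pool.Agent.Y696
open Pool.Agent.Y715.Two (v_int v_unit v_mul_le_of)
open Pool.Agent.Y715.T.Three Pool.Agent.Y715.T.Cg Pool.Agent.Y715.T.Comb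
open Pool.Agent.Y703.CT.Ana (Fy PX PX_zero PX_le sum_PX dat' om_val Fy.cc_top Fy.cop_iff)
open Pool.Agent.Helper68.C5.Chr5 Pool.Agent.Helper68.C5.Lim5 Pool.Agent.Helper68.C2.Comb2
open Pool.Agent.Helper68.C5.Ana5

variable {Γ : Type*} [LinearOrderedCommGroupWithZero Γ] {v : Valuation ℂ Γ}
  {L : PeriodPair} {Ω : ℂ} {κ : ZMod 3} {ι : Type*} [DecidableEq ι]
variable {π : ι → eis} {X : ι → eis → ℂ} {z : ℂ} {a : ι → ι → ZMod 3} {b₀ b : ι → ZMod 3}

/-- the value of the characters at the primes -/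
structure Et (κ : ZMod 3) (π : ι → eis) (z : ℂ) (n : ι → ℕ) (b : ι → ZMod 3) : Prop where
  val : ∀ i j, ek κ j (π i) * z ^ n i = 1
  red : ∀ i, ((n i : ℕ) : ZMod 3) = -b i

/-- the correction -/
noncomputable def dl (L : PeriodPair) (Ω : ℂ) (κ : ZMod 3) (u : ℂ) : ℂ :=
  (fk L Ω κ (w0 Ω + u) + fk L Ω κ (w0 Ω - u)) / (2 * fk L Ω κ (w0 Ω)) - 1

section est

variable (h3 : v 3 < 1) (hC : Cur L Ω)
  (hfin : ∀ q : eis, q ≠ 0 → Finite (eis ⧸ sp q)) (h : Fy v π X z a b₀) (hz : Zt v z)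
  (hzl : v (1 - z) = v lam)

include h3 hC hfin in
lemma dl_two {c : eis} (hc : c ≠ 0) (h3c : IsCoprime 3 c) (hct : sp c ≠ ⊤) {x : eis}
    (hx : IsCoprime x c) : v (dl L Ω κ (Ω * x / c) + 2) < 1 := by
  have h1 := fk_u (κ := κ) h3 hC hc h3c hct hfin hx
  have h2 := fk_u (κ := κ) h3 hC hc h3c hct hfin (x := -x) hx.neg_left
  have e1 : w0 Ω + Ω * ((-x : eis) : ℂ) / c = w0 Ω - Ω * x / c := by
    push_cast
    ring
  rw [e1] at h2
  have h6 := f0_ne (κ := κ) h3 hC
  unfold dl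
  set A := fk L Ω κ (w0 Ω + Ω * x / c)
  set B := fk L Ω κ (w0 Ω - Ω * x / c)
  set F := fk L Ω κ (w0 Ω)
  have e2 : (A + B) / (2 * F) - 1 + 2 = ((A / F + 1) + (B / F + 1)) / 2 := by
    field_simp
    ring
  rw [e2, map_div₀, v_two h3, div_one]
  exact v.map_add_lt h1 h2

include h3 hC hfin h hz hzl in
/-- the estimate -/
theorem est {S : Finset ι} (hS : S.Nonempty) :
    v (Sm (cc π S) (fun x => PX π X S x * dl L Ω κ (Ω * x / cc π S))) < v lam ^ S.card := by
  classical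
  have hc := h.cc_ne S
  have hct := h.cc_top hS
  have : Fintype (eis ⧸ sp (cc π S)) := @Fintype.ofFinite _ (hfin _ hc)
  have hpos : v lam ^ S.card ≠ 0 := pow_ne_zero _ lam_ne
  have hl1 := lam_lt h3
  have hsplit : Sm (cc π S) (fun x => PX π X S x * dl L Ω κ (Ω * x / cc π S)) =
      Sm (cc π S) (fun x => PX π X S x * (dl L Ω κ (Ω * x / cc π S) + 2)) -
        2 * ∏ i ∈ S, ((Nat.card (eis ⧸ sp (π i)) : ℂ) - 1) := by
    rw [← sum_PX hfin h S, ← Sm_mul_left, eq_sub_iff_add_eq, ← Sm_add]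
    congr 1
    funext x
    ring
  rw [hsplit]
  refine v.map_sub_lt ?_ ?_
  · rw [Sm_eq]
    refine v.map_sum_lt hpos fun q _ => ?_
    by_cases hq : IsCoprime q.out (cc π S)
    · have h6 := dl_two (κ := κ) h3 hC hfin hc (h.three_cc S) hct hq
      rw [map_mul]
      have h7 := PX_le hz h (S := S) q.out
      rw [hzl] at h7
      calc v (PX π X S q.out) * v (dl L Ω κ (Ω * q.out / cc π S) + 2) ≤
          v lam ^ S.card * v (dl L Ω κ (Ω * q.out / cc π S) + 2) := mul_le_mul' h7 le_rfl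
        _ < v lam ^ S.card * 1 := mul_lt_mul_of_pos_left h6 (pow_pos lam_pos _)
        _ = v lam ^ S.card := mul_one _
    · rw [PX_zero h hq, zero_mul, map_zero]
      exact pow_pos lam_pos _
  · rw [map_mul, v_two h3, one_mul, map_prod]
    have h4 : ∏ i ∈ S, v ((Nat.card (eis ⧸ sp (π i)) : ℂ) - 1) ≤ (v 3) ^ S.card :=
      Finset.prod_le_pow_card _ _ _ fun i _ => h.card i
    refine h4.trans_lt ?_
    rw [← sq_three, ← pow_two, ← pow_mul]
    have := Finset.card_pos.2 hS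
    exact pow_lt_pow_right_of_lt_one₀ lam_pos hl1 (by omega)

variable [Fintype (eis ⧸ (sp ff : Ideal eis))]

/-- the sum for the three characters -/
noncomputable def SQ (L : PeriodPair) (Ω : ℂ) (κ : ZMod 3)
    (π : ι → eis) (X : ι → eis → ℂ) (T : Finset ι) : ℂ :=
  ∑ j : Fin 3, SP L Ω ff (ek κ j) (Ek L Ω κ j) π X T

lemma SQ_empty (hfin : ∀ q : eis, q ≠ 0 → Finite (eis ⧸ sp q)) :
    SQ L Ω κ π X ∅ = 6 * fk L Ω κ (w0 Ω) := by
  unfold SQ
  rw [Finset.sum_congr rfl fun j _ => SP_empty hfin, Fin.sum_univ_three]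
  unfold Ek
  rw [if_pos rfl, if_neg (by decide), if_neg (by decide)]
  ring

variable {n : ι → ℕ} (hη : Et κ π z n b)

include h3 hC hfin h hη in
/-- the identity -/
theorem idn (S : Finset ι) :
    6 * fk L Ω κ (w0 Ω) * (∏ i ∈ S, ((Nat.card (eis ⧸ sp (π i)) : ℂ) - 1) +
      Sm (cc π S) (fun x => PX π X S x * dl L Ω κ (Ω * x / cc π S))) =
      ∑ T ∈ S.powerset, (-1) ^ T.card * ((∏ i ∈ S \ T, ((π i : ℂ) * z ^ n i - XT X T (π i))) *
        SQ L Ω κ π X T) := by
  have hfπ : ∀ i, IsCoprime ff (π i) := fun i => by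
    unfold ff
    exact (h.three i).mul_left (h.three i)
  have hf0 := f0_ne (κ := κ) h3 hC
  rw [← sum_PX hfin h S, ← Sm_add, ← Sm_mul_left]
  have h4 : ∑ T ∈ S.powerset, (-1) ^ T.card * ((∏ i ∈ S \ T, ((π i : ℂ) * z ^ n i - XT X T (π i))) *
        SQ L Ω κ π X T) = ∑ j : Fin 3, ∑ T ∈ S.powerset, (-1) ^ T.card *
          ((∏ i ∈ S \ T, ((π i : ℂ) * z ^ n i - XT X T (π i))) *
            SP L Ω ff (ek κ j) (Ek L Ω κ j) π X T) := by
    rw [Finset.sum_comm]
    refine Finset.sum_congr rfl fun T _ => ?_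
    unfold SQ
    rw [Finset.mul_sum, Finset.mul_sum]
  rw [h4, Finset.sum_congr rfl fun j _ => (Pool.Agent.Helper68.C2.Dist.main hC.lat hfin ff_ne h.toFm
    hfπ (eo_k κ j) (η := fun i => z ^ n i) (fun i => hη.val i j) (lim_k hC j) S).symm]
  unfold Sm
  rw [Finset.sum_comm]
  refine Finset.sum_congr rfl fun x _ => ?_
  show 6 * fk L Ω κ (w0 Ω) * (PX π X S x + PX π X S x * dl L Ω κ (Ω * x / cc π S)) =
    ∑ j : Fin 3, PX π X S x * Ph L Ω ff (ek κ j) (Ek L Ω κ j) (cc π S) x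
  rw [← Finset.mul_sum, sum_Ph5 hC (h.cc_ne S) (Fm.cop_f hfπ S)]
  unfold dl
  field_simp
  ring

/-- the normalized sums -/
noncomputable def sT (L : PeriodPair) (Ω : ℂ) (κ : ZMod 3)
    (π : ι → eis) (X : ι → eis → ℂ) (z : ℂ) (T : Finset ι) : ℂ :=
  SQ L Ω κ π X T / (6 * fk L Ω κ (w0 Ω) * (1 - z) ^ T.card)

include h3 hC hfin h hz hzl hη in
/-- **The sums modulo the maximal ideal.** -/
theorem sT_cg [Fintype ι] (d : ι → ZMod 3) (S : Finset ι) :
    Cg v (sT L Ω κ π X z S) (D (ap a b d) dn (up S)) := by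
  classical
  induction S using Finset.strongInduction with
  | H S ih =>
  have hf0 := f0_ne (κ := κ) h3 hC
  have hz1 := hz.ne
  have hl0 : v lam ≠ 0 := lam_ne
  have hl1 := lam_lt h3
  rcases S.eq_empty_or_nonempty with rfl | hS
  · rw [D_empty]
    refine Cg.one ?_
    unfold sT
    rw [SQ_empty hfin, Finset.card_empty, pow_zero, mul_one, div_self, sub_self, map_zero]
    · exact zero_lt_one
    · exact mul_ne_zero (by norm_num) hf0
  have hid := idn h3 hC hfin h hη S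
  have hest := est (κ := κ) h3 hC hfin h hz hzl hS
  set R : ℂ := Sm (cc π S) (fun x => PX π X S x * dl L Ω κ (Ω * x / cc π S)) with hR
  set B : ℂ := ∏ i ∈ S, ((Nat.card (eis ⧸ sp (π i)) : ℂ) - 1) with hB
  set N : ℂ := 6 * fk L Ω κ (w0 Ω) * (1 - z) ^ S.card with hN
  have hN0 : N ≠ 0 := mul_ne_zero (mul_ne_zero (by norm_num) hf0) (pow_ne_zero _ hz1)
  have hvN : v ((1 - z) ^ S.card) = v lam ^ S.card := by rw [map_pow, hzl]
  -- the terms
  set E : Finset ι → ℂ := fun T => (∏ i ∈ S \ T, ((π i : ℂ) * z ^ n i - XT X T (π i))) *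
    SQ L Ω κ π X T / N with hE
  have hsum : ∑ T ∈ S.powerset, (-1) ^ T.card * E T = (B + R) / (1 - z) ^ S.card := by
    have h4 : ∑ T ∈ S.powerset, (-1) ^ T.card * E T = (∑ T ∈ S.powerset, (-1) ^ T.card *
        ((∏ i ∈ S \ T, ((π i : ℂ) * z ^ n i - XT X T (π i))) * SQ L Ω κ π X T)) / N := by
      rw [Finset.sum_div]
      exact Finset.sum_congr rfl fun T _ => by rw [hE]; ring
    rw [h4, ← hid, hN]
    field_simp
  have hRs : v (R / (1 - z) ^ S.card) < 1 := by
    rw [map_div₀, hvN, div_lt_one₀ (pow_pos lam_pos _)]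
    exact hest
  have hBs : v (B / (1 - z) ^ S.card) < 1 := by
    rw [map_div₀, hvN, div_lt_one₀ (pow_pos lam_pos _), hB, map_prod]
    have h4 : ∏ i ∈ S, v ((Nat.card (eis ⧸ sp (π i)) : ℂ) - 1) ≤ (v 3) ^ S.card :=
      Finset.prod_le_pow_card _ _ _ fun i _ => h.card i
    refine h4.trans_lt ?_
    rw [← sq_three, ← pow_two, ← pow_mul]
    have := Finset.card_pos.2 hS
    exact pow_lt_pow_right_of_lt_one₀ lam_pos hl1 (by omega)
  have hsmall : v (∑ T ∈ S.powerset, (-1) ^ T.card * E T) < 1 := by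
    rw [hsum, add_div]
    exact v.map_add_lt hBs hRs
  have hES : E S = sT L Ω κ π X z S := by
    rw [hE]
    show (∏ i ∈ S \ S, _) * _ / N = _
    unfold sT
    rw [Finset.sdiff_self, Finset.prod_empty, one_mul]
  have hlz : v (3 : ℂ) < v (1 - z) := hz.three
  have hET : ∀ T ∈ S.powerset.erase S, Cg v (E T)
      (D (ap a b d) dn (up T) * ∏ i ∈ S \ T, (b i + ∑ j ∈ T, a i j)) := by
    intro T hT
    rw [Finset.mem_erase, Finset.mem_powerset] at hT
    have hssub : T ⊂ S := Finset.ssubset_iff_subset_ne.2 ⟨hT.2, hT.1⟩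
    have h4 := ih T hssub
    have h5 : (S \ T).card + T.card = S.card := Finset.card_sdiff_add_card_eq_card hT.2
    have h6 : E T = sT L Ω κ π X z T *
        ∏ i ∈ S \ T, (((π i : ℂ) * z ^ n i - XT X T (π i)) / (1 - z)) := by
      rw [hE]
      show (∏ i ∈ S \ T, _) * _ / N = _
      unfold sT
      rw [Finset.prod_div_distrib, Finset.prod_const, hN, ← h5, pow_add]
      field_simp
    rw [h6]
    refine h4.mul h3 (Cg.prod h3 _ fun i hi => ?_)
    rw [Finset.mem_sdiff] at hi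
    have h7 : ∀ j ∈ T, ∃ n : ℕ, X j (π i) = z ^ n ∧ (n : ZMod 3) = a i j := fun j hj =>
      h.cub i j fun hij => hi.2 (hij ▸ hj)
    choose! m hm1 hm2 using h7
    have h8 : XT X T (π i) = z ^ (∑ j ∈ T, m j) := by
      unfold XT
      rw [← Finset.prod_pow_eq_pow_sum]
      exact Finset.prod_congr rfl fun j hj => hm1 j hj
    have h9 : ((π i : ℂ) * z ^ n i - XT X T (π i)) / (1 - z) =
        (((π i : ℂ) - 1) * z ^ n i / (1 - z) + -((1 - z ^ n i) / (1 - z))) +
          (1 - z ^ (∑ j ∈ T, m j)) / (1 - z) := by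
      rw [h8]
      ring
    rw [h9]
    have h10 : (b i + ∑ j ∈ T, a i j) = (0 + -((n i : ℕ) : ZMod 3)) +
        ((∑ j ∈ T, m j : ℕ) : ZMod 3) := by
      rw [hη.red i, neg_neg, zero_add]
      push_cast
      congr 1
      exact Finset.sum_congr rfl fun j hj => (hm2 j hj).symm
    rw [h10]
    refine ((Cg.zero ?_).add h3 ((Zt.quot h3 hz _).neg h3)).add h3 (Zt.quot h3 hz _)
    rw [map_div₀, map_mul, map_pow, hz.one, one_pow, mul_one]
    have h12 : 0 < v (1 - z) := zero_lt_iff.2 (by rwa [Ne, map_eq_zero])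
    rw [div_lt_one₀ h12]
    exact (h.lin i).trans_lt hlz
  -- conclusion
  have hSmem : S ∈ S.powerset := Finset.mem_powerset_self S
  have hsplit := Finset.add_sum_erase S.powerset (fun T => (-1) ^ T.card * E T) hSmem
  have hrest : Cg v (∑ T ∈ S.powerset.erase S, (-1) ^ T.card * E T)
      (-((-1) ^ S.card * D (ap a b d) dn (up S))) := by
    have h4 : -((-1) ^ S.card * D (ap a b d) dn (up S)) = ∑ T ∈ S.powerset.erase S, (-1) ^ T.card *
        (D (ap a b d) dn (up T) * ∏ i ∈ S \ T, (b i + ∑ j ∈ T, a i j)) := by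
      have h6 := D_rec2 a b d S hS
      rw [← Finset.add_sum_erase _ _ hSmem, Finset.sdiff_self, Finset.prod_empty, mul_one] at h6
      linear_combination -h6
    rw [h4]
    exact Cg.sum h3 _ fun T hT => Cg.sign h3 (hET T hT) _
  have hES2 : Cg v ((-1) ^ S.card * E S) ((-1) ^ S.card * D (ap a b d) dn (up S)) := by
    have h4 : (-1) ^ S.card * E S = (∑ T ∈ S.powerset, (-1) ^ T.card * E T) -
        ∑ T ∈ S.powerset.erase S, (-1) ^ T.card * E T := by
      rw [← hsplit]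
      ring
    rw [h4]
    have h5 := hrest.neg h3
    rw [neg_neg] at h5
    refine Cg.of_sub (t := -(∑ T ∈ S.powerset.erase S, (-1) ^ T.card * E T)) ?_ h5
    rw [sub_neg_eq_add, sub_add_cancel]
    exact hsmall
  have h4 := hES2.sign h3 S.card
  rw [← mul_assoc, ← mul_pow, neg_one_mul, neg_neg, one_pow, one_mul, hES, ← mul_assoc,
    ← mul_pow, neg_one_mul, neg_neg, one_pow, one_mul] at h4
  exact h4

end est

end Pool.Agent.Helper68.C5.Rec5
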