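import Pool.Agent.Helper68.C5.Lim5b
import Pool.Agent.Helper68.C2.Comb2
import Pool.Agent.Helper68.C2.Ana2

/-!
# The `3`-adic valuation of the sums, characters modulo nine
-/

set_option autoImplicit false
set_option linter.unusedSectionVars false

open Filter
open scoped Topology PeriodPair

namespace Pool.Agent.Helper68.C5.Ana5

open H667R3 Pool.Agent.W192.HK Pool.Agent.TH936.CM Pool.Agent.TH936.PU
open Pool.Agent.Y692.QS (Ei w toC)
open Pool.Agent.Y715.Dist Pool.Agent.Y715.Idn Pool.Agent.Y715.T.Lat Pool.Agent.Y696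
open Pool.Agent.Y715.Two (v_nat v_int v_unit v_mul_le_of)
open Pool.Agent.Y715.T.Three Pool.Agent.Y715.T.Cg Pool.Agent.Y715.T.Comb
open Pool.Agent.Y703.CT.Ana (Fy PX PX_zero PX_le sum_PX dat' om_val Fy.cc_top Fy.cop_iff)
open Pool.Agent.Helper68.C5.Chr5 Pool.Agent.Helper68.C5.Lim5 Pool.Agent.Helper68.C2.Comb2
open Pool.Agent.Helper68.C2.Ana2 (chain sq_lam wp_le)

variable {Γ : Type*} [LinearOrderedCommGroupWithZero Γ] {v : Valuation ℂ Γ}
  {L : PeriodPair} {Ω : ℂ} {κ : ZMod 3}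

/-! ### the cube of the function -/

lemma cube_alg {x b S : ℂ} (hS : S ^ 2 = 2 * S + 4 * x ^ 3) (hb : b ^ 3 = -1) :
    (S - 2) * (x ^ 2 + b * x - b ^ 2 / 2 * S) ^ 3 =
      x ^ 3 * (S - 1) * (x ^ 3 - 2) - 6 * b ^ 2 * x ^ 4 * (x ^ 3 + 1) + 9 * x ^ 6 := by
  linear_combination ((-1/8) * b ^ 6 * S ^ 2 + (3/4) * x * b ^ 5 * S +
    (-3/2) * x ^ 2 * b ^ 4 + (3/4) * x ^ 2 * b ^ 4 * S + (-3) * x ^ 3 * b ^ 3 +
    (-1/2) * x ^ 3 * b ^ 6 + (-3/2) * x ^ 4 * b ^ 2) * hS +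
    ((-2) * x ^ 3 + 2 * x ^ 3 * S + (-1) * x ^ 3 * b ^ 3 * S + 3 * x ^ 4 * b ^ 2 * S +
    (-6) * x ^ 5 * b + 3 * x ^ 5 * b * S + (-10) * x ^ 6 + (-2) * x ^ 6 * b ^ 3) * hb

lemma bk_cube (hC : Cur L Ω) (κ : ZMod 3) : bk L Ω κ ^ 3 = -1 := by
  unfold bk
  rw [mul_pow, zk_cube, x0_cube hC, one_mul]

theorem fk_cube (hC : Cur L Ω) (κ : ZMod 3) {z : ℂ} (h1 : 2 * z ∉ L.lattice)
    (h2 : lam * z ∉ L.lattice) (h3 : 2 * (lam * z) ∉ L.lattice)
    (h4 : lam * (lam * z) ∉ L.lattice) :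
    fk L Ω κ z ^ 3 = 27 * ((1 / 2) * ℘'[L] (lam * (lam * z)) +
      ℘'[L] (Ω / 3) * bk L Ω κ ^ 2 * ℘[L] (lam * (lam * z)) + (1 / 2) * ℘'[L] (Ω / 3)) := by
  have a1 := wp_la hC h1 h2
  have a2 := dwp_la hC h1 h2
  have a3 := wp_la hC h3 h4
  have a4 := dwp_la hC h3 h4
  have o := hC.ode (two_mul_notMem_of L h1)
  have o1 := hC.ode h2
  have hy := y0_sq hC
  have hb := bk_cube hC κ
  have hl := lam_sq
  have hl0 := lam_ne'
  unfold fk
  set X := ℘[L] z
  set Y := ℘'[L] z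
  set X1 := ℘[L] (lam * z)
  set Y1 := ℘'[L] (lam * z)
  set X2 := ℘[L] (lam * (lam * z))
  set Y2 := ℘'[L] (lam * (lam * z))
  set y := ℘'[L] (Ω / 3)
  set b := bk L Ω κ
  have hX : X ≠ 0 := by
    intro h
    rw [h] at a1
    norm_num at a1
  have hX1 : X1 ≠ 0 := by
    intro h
    rw [h] at a3
    norm_num at a3
  have hD : X ^ 3 + 1 ≠ 0 := by
    intro h
    rw [h, neg_zero] at a1
    exact mul_ne_zero (mul_ne_zero three_ne_zero (pow_ne_zero 2 hX)) hX1 a1
  have hlam : lam ^ 2 = -3 := by rw [pow_two]; exact hl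
  set S : ℂ := 1 - lam * Y1 * y / 3 with hSd
  have hS : S ^ 2 = 2 * S + 4 * X1 ^ 3 := by
    rw [hSd]
    linear_combination (lam ^ 2 * Y1 ^ 2 / 9) * hy - (Y1 ^ 2 / 3) * hlam + o1
  have hXS : 9 * X ^ 3 * S = 9 * X ^ 3 + y * (X ^ 3 - 2) * Y := by
    rw [hSd]
    linear_combination -y * a2
  have hK : (Y + y) * (9 * X ^ 3 + y * (X ^ 3 - 2) * Y) =
      2 * (X ^ 3 + 1) * (3 * (Y - y) + 2 * y * (X ^ 3 + 1)) := by
    linear_combination (y * (X ^ 3 - 2)) * o + (Y * (X ^ 3 - 2)) * hy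
  set g : ℂ := -(Y + y) / (2 * X) with hg
  have hX1e : X1 = -(X ^ 3 + 1) / (3 * X ^ 2) := by
    rw [eq_div_iff (mul_ne_zero three_ne_zero (pow_ne_zero 2 hX))]
    linear_combination a1
  have hr : X1⁻¹ = -3 * X ^ 2 / (X ^ 3 + 1) := by
    rw [hX1e, inv_div, div_neg, neg_mul, neg_div]
  have claim1 : -(Y + y) / (2 * X) + 3 / 2 * ((b * X * (Y + y) + b ^ 2 * (Y - y)) / (X ^ 3 + 1)) +
      y * b ^ 2 = g * (X1 ^ 2 + b * X1 - b ^ 2 / 2 * S) / X1 ^ 2 := by
    have e1 : g * (X1 ^ 2 + b * X1 - b ^ 2 / 2 * S) / X1 ^ 2 =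
        g + b * (g * X1⁻¹) - b ^ 2 / 2 * (g * S * X1⁻¹ ^ 2) := by
      field_simp
    have e2 : g * X1⁻¹ = 3 / 2 * (X * (Y + y) / (X ^ 3 + 1)) := by
      rw [hr, hg]
      field_simp
    have e3 : g * S * X1⁻¹ ^ 2 = -(3 * (Y - y) / (X ^ 3 + 1)) - 2 * y := by
      have e4 : g * S * X1⁻¹ ^ 2 = -((Y + y) * (9 * X ^ 3 * S)) / (2 * (X ^ 3 + 1) ^ 2) := by
        rw [hr, hg]
        field_simp
        ring
      rw [e4, hXS, hK]
      field_simp
      ring
    rw [e1, e2, e3, hg]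
    ring
  have claim2 : g ^ 3 = 3 / 2 * y * (S - 2) := by
    have e1 : 8 * X ^ 3 * g ^ 3 = -(Y + y) ^ 3 := by
      rw [hg]
      field_simp
      ring
    have e2 : (8 : ℂ) * X ^ 3 ≠ 0 := mul_ne_zero (by norm_num) (pow_ne_zero 3 hX)
    apply mul_left_cancel₀ e2
    rw [e1]
    linear_combination (-(Y + 3 * y)) * o + (-(3 * Y + y) - 4 / 3 * (X ^ 3 - 2) * Y) * hy -
      (4 / 3 * y) * hXS
  rw [claim1]
  have hid := cube_alg hS hb
  have e6 : X1 ^ 6 ≠ 0 := pow_ne_zero 6 hX1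
  apply mul_right_cancel₀ e6
  have e7 : (g * (X1 ^ 2 + b * X1 - b ^ 2 / 2 * S) / X1 ^ 2) ^ 3 * X1 ^ 6 =
      g ^ 3 * (X1 ^ 2 + b * X1 - b ^ 2 / 2 * S) ^ 3 := by
    field_simp
  rw [e7, claim2, mul_assoc, hid]
  have e8 : y * (S - 1) = lam * Y1 := by
    rw [hSd]
    linear_combination (-(lam * Y1) / 3) * hy
  linear_combination (3 / 2 * X1 ^ 3 * (X1 ^ 3 - 2)) * e8 + (3 / 2 * lam * X1 ^ 3) * a4 +
    (-(9 / 2) * X1 ^ 6 * Y2) * hlam + (-9 * y * b ^ 2 * X1 ^ 4) * a3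

/-! ### the valuation of the values -/

section val

variable (h3 : v 3 < 1)

include h3

/-- the valuation of the derivative -/
lemma key_y {A B y : ℂ} (h : 3 * A ^ 2 * B = -(A ^ 3 + 1)) (hB : v (B + 1) < 1)
    (hy : y ^ 2 = 4 * A ^ 3 + 1) : v (A + 1) < 1 ∧ v y < v lam := by
  have hB1 : v B ≤ 1 := by
    have e : B = (B + 1) + (-1) := by ring
    rw [e]
    exact v.map_add_le hB.le (by rw [v.map_neg, map_one])
  obtain ⟨hA, hA1⟩ := chain h3 h hB1
  refine ⟨hA1, ?_⟩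
  have e : y ^ 2 = -(3 * (1 + 4 * (A ^ 2 * B))) := by
    rw [hy]
    linear_combination 4 * h
  have h4 : v (1 + 4 * (A ^ 2 * B)) < 1 := by
    have e2 : 1 + 4 * (A ^ 2 * B) = -3 + (4 * (A ^ 2 * (B + 1)) - 4 * ((A + 1) * (A - 1))) := by
      ring
    have h2 : v (4 : ℂ) ≤ 1 := by
      have := Pool.Agent.Y715.Two.v_nat (v := v) 4
      exact_mod_cast this
    rw [e2]
    refine v.map_add_lt (by rw [v.map_neg]; exact h3) (v.map_sub_lt ?_ ?_)
    · rw [map_mul, map_mul, map_pow, hA, one_pow, one_mul]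
      calc v 4 * v (B + 1) ≤ 1 * v (B + 1) := mul_le_mul' h2 le_rfl
        _ = v (B + 1) := one_mul _
        _ < 1 := hB
    · rw [map_mul, map_mul]
      have h5 : v (A - 1) ≤ 1 := v.map_sub_le hA.le (by rw [map_one])
      calc v 4 * (v (A + 1) * v (A - 1)) ≤ 1 * (v (A + 1) * 1) :=
            mul_le_mul' h2 (mul_le_mul' le_rfl h5)
        _ = v (A + 1) := by rw [one_mul, mul_one]
        _ < 1 := hA1
  have h5 : v y ^ 2 < v lam ^ 2 := by
    rw [← map_pow, e, v.map_neg, map_mul, ← sq_three, ← pow_two]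
    calc v lam ^ 2 * v (1 + 4 * (A ^ 2 * B)) < v lam ^ 2 * 1 :=
          mul_lt_mul_of_pos_left h4 (pow_pos lam_pos 2)
      _ = v lam ^ 2 := mul_one _
  by_contra hcon
  push Not at hcon
  exact absurd h5 (not_lt.2 (pow_le_pow_left₀ zero_le hcon 2))

/-- a cube root of minus one -/
lemma near_neg_one {b : ℂ} (hb : b ^ 3 = -1) : v (b + 1) < 1 := by
  have h : 3 * b ^ 2 * 0 = -(b ^ 3 + 1) := by rw [hb]; ring
  exact (chain h3 h (by rw [map_zero]; exact zero_le)).2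

lemma v_root {b : ℂ} (hb : b ^ 3 = -1) : v b = 1 := by
  have h : 3 * b ^ 2 * 0 = -(b ^ 3 + 1) := by rw [hb]; ring
  exact (chain h3 h (by rw [map_zero]; exact zero_le)).1

variable (hC : Cur L Ω)

include hC

lemma v_y0 : v (℘'[L] (Ω / 3)) = v lam := sq_lam h3 (y0_sq hC)

omit h3 in
/-- the cube of the value at the base point -/
lemma w0_cube : fk L Ω κ (w0 Ω) ^ 3 = 27 * (℘'[L] (Ω / 3) * bk L Ω κ ^ 2 * ℘[L] (Ω / 3)) := by
  have e3 : ((3 : eis) : ℂ) = 3 := rfl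
  have e2 : ((2 : eis) : ℂ) = 2 := rfl
  have hff := ff_coe
  have key : ∀ r : eis, r ∉ (sp ff : Ideal eis) → (r : ℂ) * w0 Ω ∉ L.lattice := by
    intro r hr h
    apply hr
    rw [← hC.div_iff ff_ne, ff_coe]
    convert h using 1
    unfold w0
    ring
  have hmem : ∀ a b : ℤ, ¬ (9 ∣ a ∧ 9 ∣ b) → ez a b ∉ (sp ff : Ideal eis) := by
    intro a b hab h
    apply hab
    obtain ⟨t, ht⟩ := Ideal.mem_span_singleton'.1 h
    obtain ⟨c, d, rfl⟩ := ez_ex t
    have e9 : (ff : eis) = ez 9 0 := by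
      unfold ff
      rw [ez_int]
      norm_num
    rw [e9, ez_mul] at ht
    obtain ⟨h1, h2⟩ := ez_inj ht
    omega
  have a1 : 2 * w0 Ω ∉ L.lattice := by
    have := key (ez 2 0) (hmem 2 0 (by norm_num))
    rw [ez_coe] at this
    convert this using 2
    push_cast
    ring
  have a2 : lam * w0 Ω ∉ L.lattice := by
    have := key la (hmem 1 2 (by norm_num))
    rwa [la_coe] at this
  have a3 : 2 * (lam * w0 Ω) ∉ L.lattice := by
    have e : ez 2 4 = ez 2 0 * la := by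
      unfold la
      rw [ez_mul]
      norm_num
    have := key (ez 2 4) (hmem 2 4 (by norm_num))
    rw [e] at this
    push_cast at this
    rw [la_coe, ez_coe] at this
    convert this using 1
    push_cast
    ring
  have e4 : lam * (lam * w0 Ω) = -(Ω / 3) := by
    unfold w0
    linear_combination (Ω / 9) * lam_sq
  have a4 : lam * (lam * w0 Ω) ∉ L.lattice := by
    rw [e4, neg_mem_iff]
    exact hC.third
  rw [fk_cube hC κ a1 a2 a3 a4, e4, L.weierstrassP_neg, L.derivWeierstrassP_neg]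
  ring

lemma v_w0_cube : v (fk L Ω κ (w0 Ω)) ^ 3 = v lam ^ 7 := by
  rw [← map_pow, w0_cube hC, map_mul, map_mul, map_mul, v_y0 h3 hC, map_pow,
    v_root h3 (bk_cube hC κ), v_root h3 (x0_cube hC), one_pow, mul_one, mul_one]
  have e : (27 : ℂ) = 3 * 3 * 3 := by norm_num
  rw [e, map_mul, map_mul, ← sq_three]
  simp only [pow_succ, pow_zero, one_mul, mul_assoc]

lemma f0_ne : fk L Ω κ (w0 Ω) ≠ 0 := by
  intro h0
  have h1 := v_w0_cube (κ := κ) h3 hC
  rw [h0, map_zero, zero_pow (by norm_num)] at h1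
  exact pow_ne_zero 7 lam_ne h1.symm

omit h3 hC in
lemma not_ff {a b : ℤ} (h : ¬ ((9 : ℤ) ∣ a ∧ (9 : ℤ) ∣ b)) : ez a b ∉ (sp ff : Ideal eis) := by
  intro h'
  apply h
  obtain ⟨t, ht⟩ := Ideal.mem_span_singleton'.1 h'
  obtain ⟨c, d, rfl⟩ := ez_ex t
  have e9 : (ff : eis) = ez 9 0 := by
    unfold ff
    rw [ez_int]
    norm_num
  rw [e9, ez_mul] at ht
  obtain ⟨h1, h2⟩ := ez_inj ht
  omega

/-- the value at a point of order divisible by nine -/
theorem fk_u {c : eis} (hc : c ≠ 0) (h3c : IsCoprime 3 c) (hct : sp c ≠ ⊤)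
    (hfin : ∀ q : eis, q ≠ 0 → Finite (eis ⧸ sp q)) {x : eis} (hx : IsCoprime x c) :
    v (fk L Ω κ (w0 Ω + Ω * x / c) / fk L Ω κ (w0 Ω) + 1) < 1 := by
  have hfc : IsCoprime ff c := by
    unfold ff
    exact h3c.mul_left h3c
  have hcC : ((c : eis) : ℂ) ≠ 0 := coe_ne hc
  have hlC := lam_ne'
  have e3 : ((3 : eis) : ℂ) = 3 := rfl
  set z := w0 Ω + Ω * x / c with hz
  have hpt : ∀ r : eis, (r : ℂ) * z = Ω * r / ((ff : eis) : ℂ) + Ω * ((r * x : eis) : ℂ) / c := by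
    intro r
    rw [hz, ff_coe]
    unfold w0
    push_cast
    field_simp
  have hmem : ∀ r : eis, r ∉ (sp ff : Ideal eis) → (r : ℂ) * z ∉ L.lattice := by
    intro r hr
    rw [hpt]
    by_cases hx' : r * x ∈ sp c
    · have hm : Ω * ((r * x : eis) : ℂ) / c ∈ L.lattice := (div_mem_iff hC.lat hc _).2 hx'
      intro h2
      apply hr
      rw [← div_mem_iff hC.lat ff_ne]
      have := sub_mem h2 hm
      rwa [add_sub_cancel_right] at this
    · exact (cop_notMem hC.lat ff_ne hc hfc hx').1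
  have hez : ∀ a b : ℤ, ¬ ((9 : ℤ) ∣ a ∧ (9 : ℤ) ∣ b) → ((a : ℂ) + b * om) * z ∉ L.lattice := by
    intro a b hab
    have := hmem (ez a b) (not_ff hab)
    rwa [ez_coe] at this
  have elam : lam = 1 + 2 * om := by
    rw [← la_coe]
    unfold la
    rw [ez_coe]
    push_cast
    ring
  -- the points
  have a1 : 2 * z ∉ L.lattice := by
    have := hez 2 0 (by norm_num)
    convert this using 2
    push_cast
    ring
  have a2 : lam * z ∉ L.lattice := by
    have := hez 1 2 (by norm_num)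
    convert this using 1
    push_cast
    rw [elam]
  have a3 : 2 * (lam * z) ∉ L.lattice := by
    have := hez 2 4 (by norm_num)
    convert this using 1
    push_cast
    rw [elam]
    ring
  have b2' : lam * (lam * z) = -3 * z := by linear_combination z * lam_sq
  have a4 : lam * (lam * z) ∉ L.lattice := by
    rw [b2']
    have := hez (-3) 0 (by norm_num)
    convert this using 2
    push_cast
    ring
  have a5 : 2 * (lam * (lam * z)) ∉ L.lattice := by
    rw [b2']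
    have := hez (-6) 0 (by norm_num)
    convert this using 1
    push_cast
    ring
  have b3' : lam * (lam * (lam * z)) = -3 * (lam * z) := by linear_combination (lam * z) * lam_sq
  have a6 : lam * (lam * (lam * z)) ∉ L.lattice := by
    rw [b3']
    have := hez (-3) (-6) (by norm_num)
    convert this using 1
    push_cast
    rw [elam]
    ring
  have a7 : 2 * (lam * (lam * (lam * z))) ∉ L.lattice := by
    rw [b3']
    have := hez (-6) (-12) (by norm_num)
    convert this using 1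
    push_cast
    rw [elam]
    ring
  -- the last point
  have b4' : lam * (lam * (lam * (lam * z))) = 9 * z := by
    linear_combination (lam * (lam * z) - 3 * z) * lam_sq
  have hx2 : IsCoprime (9 * x) c := by
    refine IsCoprime.mul_left ?_ hx
    have e9 : (9 : eis) = ff := by
      unfold ff
      norm_num
    rw [e9]
    exact hfc
  have e9 : ((9 : eis) : ℂ) = 9 := rfl
  have hΩ : Ω ∈ L.lattice := by
    have h4 : Ω * ((ff : eis) : ℂ) / ((ff : eis) : ℂ) ∈ L.lattice := by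
      rw [div_mem_iff hC.lat ff_ne]
      exact Ideal.mem_span_singleton_self _
    rwa [mul_div_assoc, div_self (coe_ne ff_ne), mul_one] at h4
  have d1 : lam * (lam * (lam * (lam * z))) - Ω * ((9 * x : eis) : ℂ) / c ∈ L.lattice := by
    have e : lam * (lam * (lam * (lam * z))) - Ω * ((9 * x : eis) : ℂ) / c = Ω := by
      rw [b4', hz]
      unfold w0
      push_cast
      rw [e9]
      ring
    rw [e]
    exact hΩ
  have d2 : lam * (lam * (lam * (lam * z))) ∉ L.lattice := by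
    intro h4
    have h5 := sub_mem h4 d1
    rw [sub_sub_cancel, div_mem_iff hC.lat hc] at h5
    exact notMem_of_cop hct hx2 h5
  have hv4 : v (℘[L] (lam * (lam * (lam * (lam * z))))) ≤ 1 := by
    rw [Pool.Agent.TH936.PU.wp_per d1]
    exact wp_le h3 hC hc h3c hct hfin hx2
  have hv3 := (chain h3 (wp_la hC a7 d2) hv4).2
  obtain ⟨hA, hy⟩ := key_y h3 (wp_la hC a5 a6) hv3 (hC.ode a4)
  -- the cubes
  have c1 := fk_cube hC κ a1 a2 a3 a4
  have c0 := w0_cube (κ := κ) hC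
  have hf0 := f0_ne (κ := κ) h3 hC
  have hb := bk_cube hC κ
  have hx0 := x0_cube hC
  have hy0 := y0_ne hC
  have hvy := v_y0 h3 hC
  set F := fk L Ω κ z
  set F0 := fk L Ω κ (w0 Ω)
  set y := ℘'[L] (Ω / 3)
  set x0 := ℘[L] (Ω / 3)
  set b := bk L Ω κ
  set A := ℘[L] (lam * (lam * z))
  set Y := ℘'[L] (lam * (lam * z))
  have hb0 : b ≠ 0 := by
    intro h
    rw [h] at hb
    norm_num at hb
  have hx00 : x0 ≠ 0 := by
    intro h
    rw [h] at hx0
    norm_num at hx0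
  set r : ℂ := F / F0 with hr
  have hvb := v_root h3 hb
  have hvx := v_root h3 hx0
  have hv2 := v_two h3
  -- the cube of the ratio
  have e5 : (2 * b ^ 2 * x0) * (r ^ 3 + 1) = Y / y + (2 * b ^ 2 * (A + 1) + 2 * b ^ 2 * (x0 + 1) +
      (-4 * (b + 1) * (b - 1) - 3)) := by
    have e6 : r ^ 3 = F ^ 3 / F0 ^ 3 := by rw [hr, div_pow]
    rw [e6, c1, c0]
    field_simp
    ring
  have h6 : v (r ^ 3 + 1) < 1 := by
    have h7 : v ((2 * b ^ 2 * x0) * (r ^ 3 + 1)) = v (r ^ 3 + 1) := by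
      rw [map_mul, map_mul, map_mul, map_pow, hv2, hvb, hvx, one_pow, one_mul, one_mul, one_mul]
    rw [← h7, e5]
    have hl := lam_lt h3
    have hbn := near_neg_one h3 hb
    have hxn := near_neg_one h3 hx0
    refine v.map_add_lt ?_ (v.map_add_lt (v.map_add_lt ?_ ?_) (v.map_sub_lt ?_ h3))
    · rw [map_div₀, hvy, div_lt_one₀ lam_pos]
      exact hy
    · rw [map_mul, map_mul, map_pow, hv2, hvb, one_pow, one_mul, one_mul]
      exact hA
    · rw [map_mul, map_mul, map_pow, hv2, hvb, one_pow, one_mul, one_mul]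
      exact hxn
    · have h8 : v (b - 1) ≤ 1 := v.map_sub_le hvb.le (by rw [map_one])
      have h9 : v (-4 : ℂ) ≤ 1 := by
        have := Pool.Agent.Y715.Two.v_int (v := v) (-4)
        exact_mod_cast this
      rw [map_mul, map_mul]
      calc v (-4) * v (b + 1) * v (b - 1) ≤ 1 * v (b + 1) * 1 :=
            mul_le_mul' (mul_le_mul' h9 le_rfl) h8
        _ = v (b + 1) := by rw [one_mul, mul_one]
        _ < 1 := hbn
  -- the ratio
  have hvr : v r ≤ 1 := by
    by_contra hcon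
    push Not at hcon
    have h7 : 1 < v (r ^ 3) := by
      rw [map_pow]
      exact one_lt_pow₀ hcon three_ne_zero
    have h8 : v (r ^ 3 + 1) = v (r ^ 3) := by
      rw [v.map_add_eq_of_lt_left]
      rwa [map_one]
    rw [h8] at h6
    exact absurd h6 (not_lt.2 h7.le)
  have h7 : v ((r + 1) ^ 3) < 1 := by
    have e : (r + 1) ^ 3 = (r ^ 3 + 1) + 3 * (r * (r + 1)) := by ring
    have h8 : v (r + 1) ≤ 1 := v.map_add_le hvr (by rw [map_one])
    rw [e]
    refine v.map_add_lt h6 ?_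
    rw [map_mul, map_mul]
    calc v 3 * (v r * v (r + 1)) ≤ v 3 * (1 * 1) := mul_le_mul' le_rfl (mul_le_mul' hvr h8)
      _ = v 3 := by rw [mul_one, mul_one]
      _ < 1 := h3
  rw [map_pow] at h7
  by_contra hcon
  push Not at hcon
  exact absurd h7 (not_lt.2 (one_le_pow₀ hcon))

end val

end Pool.Agent.Helper68.C5.Ana5
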