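import Pool.Agent.Helper68.C5.Chr5
import Pool.Agent.Helper68.C2.Lim

/-!
# The limits of the sums for the characters modulo nine
-/

set_option autoImplicit false
set_option linter.unusedSectionVars false

open Filter
open scoped Topology PeriodPair

namespace Pool.Agent.Helper68.C5.Lim5

open H667R3 Pool.Agent.W192.HK Pool.Agent.TH936.CM Pool.Agent.TH936.PU
open Pool.Agent.Y715.Dist Pool.Agent.Y715.Idn Pool.Agent.Y715.T.Lat Pool.Agent.Y696
open Pool.Agent.Y692.QS (Ei w toC)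
open Pool.Agent.Y715.T.Rs (eq0)
open Pool.Agent.Y703.CT (toC_w_add toC_eq')
open Pool.Agent.Y703.CT.Ana (ej eo_j ej_u ej_ncop ej_prim)
open Pool.Agent.Y715.CT.Hec (la_ne)
open Pool.Agent.Y715.T.Three (lam lam_sq lam_ne')
open Pool.Agent.Helper68.C5.Chr5
open Pool.Agent.Helper68.C2.Lim (toC_w tau tau_eq EE_tau tau_notMem z1 z2)

variable {L : PeriodPair} {Ω : ℂ} {κ : ZMod 3}

/-! ### multiplication by `√-3` on the derivative -/

lemma hasDeriv {u : ℂ} (hu : u ∉ L.lattice) : HasDerivAt ℘[L] (℘'[L] u) u := by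
  have h1 : DifferentiableAt ℂ ℘[L] u :=
    L.differentiableOn_weierstrassP.differentiableAt (L.isClosed_lattice.isOpen_compl.mem_nhds hu)
  have h2 := h1.hasDerivAt
  rwa [L.deriv_weierstrassP] at h2

section

variable (hC : Cur L Ω)

include hC

theorem dwp_la {u : ℂ} (hu : 2 * u ∉ L.lattice) (hl : lam * u ∉ L.lattice) :
    3 * lam * ℘[L] u ^ 3 * ℘'[L] (lam * u) = -((℘[L] u ^ 3 - 2) * ℘'[L] u) := by
  have hu0 := two_mul_notMem_of L hu
  have ho : IsOpen (L.lattice : Set ℂ)ᶜ := L.isClosed_lattice.isOpen_compl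
  have hn1 : ∀ᶠ x in 𝓝 u, 2 * x ∉ L.lattice :=
    (continuous_const.mul continuous_id).continuousAt.eventually_mem
      (s := (L.lattice : Set ℂ)ᶜ) (ho.mem_nhds hu)
  have hn2 : ∀ᶠ x in 𝓝 u, lam * x ∉ L.lattice :=
    (continuous_const.mul continuous_id).continuousAt.eventually_mem
      (s := (L.lattice : Set ℂ)ᶜ) (ho.mem_nhds hl)
  have heq : (fun x => 3 * ℘[L] x ^ 2 * ℘[L] (lam * x)) =ᶠ[𝓝 u] fun x => -(℘[L] x ^ 3 + 1) := by
    filter_upwards [hn1, hn2] with x h1 h2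
    exact wp_la hC h1 h2
  have hd := hasDeriv (L := L) hu0
  have hdl : HasDerivAt (fun x => ℘[L] (lam * x)) (℘'[L] (lam * u) * lam) u := by
    have h1 : HasDerivAt (fun x : ℂ => lam * x) lam u := by
      simpa using (hasDerivAt_id u).const_mul lam
    exact (hasDeriv (L := L) hl).comp u h1
  have h1 : HasDerivAt (fun x => 3 * ℘[L] x ^ 2 * ℘[L] (lam * x))
      (3 * (2 * ℘[L] u ^ 1 * ℘'[L] u) * ℘[L] (lam * u) +
        3 * ℘[L] u ^ 2 * (℘'[L] (lam * u) * lam)) u :=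
    ((hd.pow 2).const_mul 3).mul hdl
  have h2 : HasDerivAt (fun x => -(℘[L] x ^ 3 + 1)) (-(3 * ℘[L] u ^ 2 * ℘'[L] u)) u :=
    ((hd.pow 3).add_const 1).neg
  have h3 := (h1.congr_of_eventuallyEq heq.symm).unique h2
  have h4 := wp_la hC hu hl
  linear_combination ℘[L] u * h3 - 2 * ℘'[L] u * h4

lemma x0_cube : ℘[L] (Ω / 3) ^ 3 = -1 := hC.x0

lemma y0_sq : ℘'[L] (Ω / 3) ^ 2 = -3 := by
  rw [hC.ode hC.third, hC.x0]
  norm_num

lemma y0_ne : ℘'[L] (Ω / 3) ≠ 0 := by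
  intro h
  have := y0_sq hC
  rw [h] at this
  norm_num at this

lemma two_third : 2 * (Ω / 3) ∉ L.lattice := by
  have e2 : ((2 : eis) : ℂ) = 2 := rfl
  rw [hC.mem_third (r := 2) (by rw [e2]; ring)]
  intro h
  have e : (2 : eis) = ez 2 0 := by
    rw [ez_int]
    norm_num
  rw [e, mem_three] at h
  omega

lemma la_third : lam * (Ω / 3) ∉ L.lattice := by
  rw [hC.mem_third (r := la) (by rw [la_coe]; ring)]
  unfold la
  rw [mem_three]
  norm_num

lemma dwp_la_third : lam * ℘'[L] (lam * (Ω / 3)) = -℘'[L] (Ω / 3) := by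
  have h1 := dwp_la hC (two_third hC) (la_third hC)
  rw [x0_cube hC] at h1
  linear_combination (-1 / 3) * h1

end

/-- the point of order nine -/
noncomputable def w0 (Ω : ℂ) : ℂ := Ω / 9

/-- the constant -/
noncomputable def bk (L : PeriodPair) (Ω : ℂ) (κ : ZMod 3) : ℂ := toC w ^ κ.val * ℘[L] (Ω / 3)

/-- the function -/
noncomputable def fk (L : PeriodPair) (Ω : ℂ) (κ : ZMod 3) (z : ℂ) : ℂ :=
  -(℘'[L] z + ℘'[L] (Ω / 3)) / (2 * ℘[L] z) +
    (3 / 2) * ((bk L Ω κ * ℘[L] z * (℘'[L] z + ℘'[L] (Ω / 3)) +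
      bk L Ω κ ^ 2 * (℘'[L] z - ℘'[L] (Ω / 3))) / (℘[L] z ^ 3 + 1)) +
    ℘'[L] (Ω / 3) * bk L Ω κ ^ 2

/-- the finite sum -/
noncomputable def Gk (Ω : ℂ) (κ : ZMod 3) (δ : ℝ) (z : ℂ) : ℂ :=
  N9 (fun t => toC w ^ (ll κ t).val * EE eis Ω δ (z + t * (Ω / 3)))

/-! ### roots of unity -/

lemma zk_cube (κ : ZMod 3) : (toC w ^ κ.val) ^ 3 = 1 := by
  rw [← pow_mul, mul_comm, pow_mul, Pool.Agent.Y715.T.Fin.toC_w_cube, one_pow]

lemma zk_inv (κ : ZMod 3) : toC w ^ κ.val * toC w ^ (-κ).val = 1 := by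
  rw [← toC_w_add, add_neg_cancel, ZMod.val_zero, pow_zero]

lemma zk_sq (κ : ZMod 3) : (toC w ^ κ.val) ^ 2 = toC w ^ (-κ).val := by
  have h1 := zk_cube κ
  have h2 := zk_inv κ
  have h3 : toC w ^ κ.val ≠ 0 := by
    intro h
    rw [h] at h1
    norm_num at h1
  apply mul_left_cancel₀ h3
  linear_combination h1 - h2

lemma zk_one : toC w ^ (1 : ZMod 3).val = om := by
  have e2 : (1 : ZMod 3).val = 1 := by decide
  rw [e2, pow_one, toC_w]

lemma zk_two : toC w ^ (-1 : ZMod 3).val = om ^ 2 := by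
  have e2 : (-1 : ZMod 3).val = 2 := by decide
  rw [e2, toC_w]

/-! ### one pair of translates -/

lemma pair (hC : Cur L Ω) {z t : ℂ} (hz : z ∉ L.lattice) (ht : t ∉ L.lattice)
    (h1 : z + t ∉ L.lattice) (h2 : z - t ∉ L.lattice) (p q : ℂ) :
    Tendsto (fun δ : ℝ => (p * EE eis Ω δ (z + t) + q * EE eis Ω δ (z - t)) -
      (p + q) * EE eis Ω δ z - (p - q) * EE eis Ω δ t) (𝓝[>] 0)
      (𝓝 ((p + q) / 2 * Dd L z t + (p - q) / 2 * Dd L t z)) := by
  have l1 := lim_Dd hC.lat hz ht h1 h2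
  have h2' : t - z ∉ L.lattice := by
    rw [← neg_mem_iff, neg_sub]
    exact h2
  have h1' : t + z ∉ L.lattice := by rwa [add_comm]
  have l2 := lim_Dd hC.lat ht hz h1' h2'
  have l3 := (l1.const_mul ((p + q) / 2)).add (l2.const_mul ((p - q) / 2))
  refine l3.congr fun δ => ?_
  have e1 : EE eis Ω δ (t + z) = EE eis Ω δ (z + t) := by rw [add_comm]
  have e2 : EE eis Ω δ (t - z) = -EE eis Ω δ (z - t) := by
    rw [← neg_sub, EE_neg]
  rw [e1, e2]
  ring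

section

variable (hC : Cur L Ω)

include hC

lemma EE_la (δ : ℝ) : EE eis Ω δ (lam * (Ω / 3)) = 0 := by
  have h1 := EE_tau hC δ
  rw [tau_eq, EE_neg] at h1
  exact neg_eq_zero.1 h1

lemma lim_third : Tendsto (fun δ : ℝ => EE eis Ω δ (Ω / 3)) (𝓝[>] 0) (𝓝 (kap L Ω / 6)) := by
  have hfin := Pool.Agent.Y715.T.LF.fin_quot
  have : Finite (eis ⧸ (sp 3 : Ideal eis)) := hfin _ Pool.Agent.Y696.three_ne
  have : Fintype (eis ⧸ (sp 3 : Ideal eis)) := Fintype.ofFinite _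
  have e3 : ((3 : eis) : ℂ) = 3 := rfl
  have h1 := (lim_const hC).const_mul (1 / 6 : ℂ)
  have e0 : (1 / 6 : ℂ) * kap L Ω = kap L Ω / 6 := by ring
  rw [e0] at h1
  refine h1.congr fun δ => ?_
  have hper : ∀ x y : eis, x - y ∈ (sp 3 : Ideal eis) →
      ee psi x * EE eis Ω δ (Ω * x / (3 : eis)) = ee psi y * EE eis Ω δ (Ω * y / (3 : eis)) := by
    intro x y hxy
    rw [eo.per x y hxy]
    congr 1
    apply EE_per hC.lat
    have := (div_mem_iff hC.lat Pool.Agent.Y696.three_ne (x - y)).2 hxy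
    convert this using 1
    push_cast
    ring
  rw [six_sum (fun y => ee psi y * EE eis Ω δ (Ω * y / (3 : eis)))
    (fun x hx => by rw [ee_ncop hx, zero_mul]) hper]
  have hterm : ∀ u : eis, IsUnit u → ee psi u * EE eis Ω δ (Ω * u / (3 : eis)) =
      EE eis Ω δ (Ω / 3) := by
    intro u hu
    have hu0 : (u : ℂ) ≠ 0 := coe_ne hu.ne_zero
    have e : Ω * (u : ℂ) / ((3 : eis) : ℂ) = u * (Ω / 3) := by
      rw [e3]
      ring
    rw [ee_u hu, e, EE_unit hu, mul_inv_cancel_left₀ hu0]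
  have hu : ∀ v ∈ ({1, -1, omr, -omr, omr ^ 2, -omr ^ 2} : Set eis), IsUnit v := fun v hv =>
    (unit_list v).2 hv
  rw [hterm 1 (hu _ (by simp)), hterm (-1) (hu _ (by simp)), hterm omr (hu _ (by simp)),
    hterm (-omr) (hu _ (by simp)), hterm (omr ^ 2) (hu _ (by simp)),
    hterm (-omr ^ 2) (hu _ (by simp))]
  ring

lemma notMem_of_three {z : ℂ} (hz : 3 * z ∉ L.lattice) (t : eis) :
    z + t * (Ω / 3) ∉ L.lattice := by
  intro h
  apply hz
  have h1 : (3 : ℂ) * (z + t * (Ω / 3)) ∈ L.lattice := by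
    have h2 := nsmul_mem h 3
    rwa [nsmul_eq_mul] at h2
  have h3 : Ω * (((3 * t : eis) : eis) : ℂ) / ((3 : eis) : ℂ) ∈ L.lattice := by
    rw [hC.div_iff Pool.Agent.Y696.three_ne]
    exact Ideal.mem_span_singleton'.2 ⟨t, mul_comm _ _⟩
  have e3 : ((3 : eis) : ℂ) = 3 := rfl
  have h4 := sub_mem h1 h3
  convert h4 using 1
  push_cast
  rw [e3]
  ring

end

lemma ll_la (κ : ZMod 3) : ll κ la = -1 := by
  unfold la
  rw [ll_ez]
  revert κ
  decide

lemma ll_one (κ : ZMod 3) : ll κ 1 = -κ := by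
  rw [← ez_one, ll_ez]
  push_cast
  ring

lemma ll_omr (κ : ZMod 3) : ll κ omr = 1 + -κ := by
  rw [← ez_omr, ll_ez]
  push_cast
  ring

lemma ll_omr2 (κ : ZMod 3) : ll κ (omr ^ 2) = -1 + -κ := by
  have e : omr ^ 2 = ez (-1) (-1) := by
    unfold ez
    push_cast
    linear_combination omr_sq
  rw [e, ll_ez]
  revert κ
  decide

lemma partial_one {X x : ℂ} (hx : x ^ 3 = -1) (h0 : X - x ≠ 0) (h1 : X - om * x ≠ 0)
    (h2 : X - om ^ 2 * x ≠ 0) :
    1 / (X - x) + om * (1 / (X - om * x)) + om ^ 2 * (1 / (X - om ^ 2 * x)) =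
      3 * x ^ 2 / (X ^ 3 + 1) ∧
    1 / (X - x) + om ^ 2 * (1 / (X - om * x)) + om * (1 / (X - om ^ 2 * x)) =
      3 * x * X / (X ^ 3 + 1) ∧ X ^ 3 + 1 ≠ 0 := by
  have hs := om_sq
  have h3 := om_cube
  have hd : (X - x) * (X - om * x) * (X - om ^ 2 * x) = X ^ 3 + 1 := by
    linear_combination (X * x ^ 2 * om - X ^ 2 * x) * hs - om ^ 3 * hx + h3
  have hne : X ^ 3 + 1 ≠ 0 := by
    rw [← hd]
    exact mul_ne_zero (mul_ne_zero h0 h1) h2
  have e0 : 1 / (X - x) = (X - om * x) * (X - om ^ 2 * x) / (X ^ 3 + 1) := by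
    rw [← hd, div_eq_div_iff h0 (mul_ne_zero (mul_ne_zero h0 h1) h2)]
    ring
  have e1 : 1 / (X - om * x) = (X - x) * (X - om ^ 2 * x) / (X ^ 3 + 1) := by
    rw [← hd, div_eq_div_iff h1 (mul_ne_zero (mul_ne_zero h0 h1) h2)]
    ring
  have e2 : 1 / (X - om ^ 2 * x) = (X - x) * (X - om * x) / (X ^ 3 + 1) := by
    rw [← hd, div_eq_div_iff h2 (mul_ne_zero (mul_ne_zero h0 h1) h2)]
    ring
  refine ⟨?_, ?_, hne⟩
  · rw [e0, e1, e2]
    rw [← sub_eq_zero]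
    have e : (X - om * x) * (X - om ^ 2 * x) / (X ^ 3 + 1) +
        om * ((X - x) * (X - om ^ 2 * x) / (X ^ 3 + 1)) +
        om ^ 2 * ((X - x) * (X - om * x) / (X ^ 3 + 1)) - 3 * x ^ 2 / (X ^ 3 + 1) =
        ((X - om * x) * (X - om ^ 2 * x) + om * ((X - x) * (X - om ^ 2 * x)) +
          om ^ 2 * ((X - x) * (X - om * x)) - 3 * x ^ 2) / (X ^ 3 + 1) := by ring
    rw [e, div_eq_zero_iff]
    left
    have h4 : om ^ 3 = 1 := h3
    have h5 : om ^ 2 = -om - 1 := by linear_combination hs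
    have : (X - om * x) * (X - om ^ 2 * x) + om * ((X - x) * (X - om ^ 2 * x)) +
          om ^ 2 * ((X - x) * (X - om * x)) - 3 * x ^ 2 =
        X ^ 2 * (1 + om + om ^ 2) - X * x * (2 * om + 2 * om ^ 2 + 2 * om ^ 3) +
          x ^ 2 * (3 * om ^ 3 - 3) := by ring
    rw [this, h4, h5]
    ring
  · rw [e0, e1, e2]
    rw [← sub_eq_zero]
    have e : (X - om * x) * (X - om ^ 2 * x) / (X ^ 3 + 1) +
        om ^ 2 * ((X - x) * (X - om ^ 2 * x) / (X ^ 3 + 1)) +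
        om * ((X - x) * (X - om * x) / (X ^ 3 + 1)) - 3 * x * X / (X ^ 3 + 1) =
        ((X - om * x) * (X - om ^ 2 * x) + om ^ 2 * ((X - x) * (X - om ^ 2 * x)) +
          om * ((X - x) * (X - om * x)) - 3 * x * X) / (X ^ 3 + 1) := by ring
    rw [e, div_eq_zero_iff]
    left
    have h5 : om ^ 2 = -om - 1 := by linear_combination hs
    have : (X - om * x) * (X - om ^ 2 * x) + om ^ 2 * ((X - x) * (X - om ^ 2 * x)) +
          om * ((X - x) * (X - om * x)) - 3 * x * X =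
        X ^ 2 * (1 + om + om ^ 2) - X * x * (2 * om + 3 * om ^ 2 + om * om ^ 3 + 3) +
          x ^ 2 * (om ^ 3 + om * om ^ 3 + om ^ 2) := by ring
    rw [this, h3, h5]
    ring

theorem lim_fk (hC : Cur L Ω) {z : ℂ} (hz : 3 * z ∉ L.lattice) :
    Tendsto (fun δ : ℝ => Gk Ω κ δ z) (𝓝[>] 0) (𝓝 (fk L Ω κ z)) := by
  have hn := notMem_of_three hC hz
  have hz0 : z ∉ L.lattice := by
    have := hn 0
    simpa using this
  have hpt : ∀ t : eis, (t : ℂ) * (Ω / 3) ∉ L.lattice → ∀ p q : ℂ,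
      Tendsto (fun δ : ℝ => (p * EE eis Ω δ (z + t * (Ω / 3)) +
        q * EE eis Ω δ (z + ((-t : eis) : ℂ) * (Ω / 3))) -
        (p + q) * EE eis Ω δ z - (p - q) * EE eis Ω δ (t * (Ω / 3))) (𝓝[>] 0)
        (𝓝 ((p + q) / 2 * Dd L z (t * (Ω / 3)) + (p - q) / 2 * Dd L (t * (Ω / 3)) z)) := by
    intro t ht p q
    have e : ∀ δ : ℝ, EE eis Ω δ (z + ((-t : eis) : ℂ) * (Ω / 3)) =
        EE eis Ω δ (z - t * (Ω / 3)) := by
      intro δ
      congr 1
      push_cast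
      ring
    have h2 : z - t * (Ω / 3) ∉ L.lattice := by
      have := hn (-t)
      push_cast at this
      convert this using 1
      ring
    simp only [e]
    exact pair hC hz0 ht (hn t) h2 p q
  have hw := hC.third
  have hu : ∀ u : eis, IsUnit u → (u : ℂ) * (Ω / 3) ∉ L.lattice := by
    intro u hu
    rwa [lat_unit hC.lat hu]
  have hou : IsUnit omr := omr_unit
  have hou2 : IsUnit (omr ^ 2) := hou.pow 2
  have hla : ((la : eis) : ℂ) * (Ω / 3) ∉ L.lattice := by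
    rw [la_coe]
    exact la_third hC
  set ζ : ℂ := toC w ^ κ.val with hζ
  set ζ' : ℂ := toC w ^ (-κ).val with hζ'
  have hζ3 : ζ ^ 3 = 1 := zk_cube κ
  have hζζ : ζ * ζ' = 1 := zk_inv κ
  have hζ2 : ζ ^ 2 = ζ' := zk_sq κ
  have l1 := hpt la hla (om ^ 2) om
  have l2 := hpt 1 (hu 1 isUnit_one) ζ' ζ
  have l3 := hpt omr (hu omr hou) (om * ζ') (om ^ 2 * ζ)
  have l4 := hpt (omr ^ 2) (hu _ hou2) (om ^ 2 * ζ') (om * ζ)
  have l5 := (lim_third hC).const_mul (3 * ζ')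
  have lt := (((l1.add l2).add l3).add l4).add l5
  have hs := om_sq
  have hc3 := om_cube
  -- the value
  have hval : (om ^ 2 + om) / 2 * Dd L z (↑la * (Ω / 3)) + (om ^ 2 - om) / 2 *
      Dd L (↑la * (Ω / 3)) z + ((ζ' + ζ) / 2 * Dd L z (((1 : eis) : ℂ) * (Ω / 3)) + (ζ' - ζ) / 2 *
      Dd L (((1 : eis) : ℂ) * (Ω / 3)) z) + ((om * ζ' + om ^ 2 * ζ) / 2 *
      Dd L z (((omr : eis) : ℂ) * (Ω / 3)) + (om * ζ' - om ^ 2 * ζ) / 2 *
      Dd L (((omr : eis) : ℂ) * (Ω / 3)) z) + ((om ^ 2 * ζ' + om * ζ) / 2 *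
      Dd L z (((omr ^ 2 : eis) : ℂ) * (Ω / 3)) + (om ^ 2 * ζ' - om * ζ) / 2 *
      Dd L (((omr ^ 2 : eis) : ℂ) * (Ω / 3)) z) + 3 * ζ' * (kap L Ω / 6) = fk L Ω κ z := by
    have i1 : (om ^ 2)⁻¹ = om :=
      (eq_inv_of_mul_eq_one_left (by linear_combination om_cube)).symm
    have i2 : (om ^ 3)⁻¹ = 1 := by rw [om_cube, inv_one]
    have i3 : ((om ^ 2) ^ 2)⁻¹ = om ^ 2 :=
      (eq_inv_of_mul_eq_one_left (by linear_combination (om ^ 3 + 1) * om_cube)).symm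
    have i4 : ((om ^ 2) ^ 3)⁻¹ = 1 := by
      rw [← pow_mul, mul_comm, pow_mul, om_cube, one_pow, inv_one]
    have w1 : ℘[L] (((omr : eis) : ℂ) * (Ω / 3)) = om * ℘[L] (Ω / 3) := by
      have := wp_unit hC.lat hou (Ω / 3)
      rwa [omr_coe, i1, ← omr_coe] at this
    have w1' : ℘'[L] (((omr : eis) : ℂ) * (Ω / 3)) = ℘'[L] (Ω / 3) := by
      have := dwp_unit hC.lat hou (Ω / 3)
      rwa [omr_coe, i2, one_mul, ← omr_coe] at this
    have w2 : ℘[L] (((omr ^ 2 : eis) : ℂ) * (Ω / 3)) = om ^ 2 * ℘[L] (Ω / 3) := by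
      have := wp_unit hC.lat hou2 (Ω / 3)
      have e : ((omr ^ 2 : eis) : ℂ) = om ^ 2 := by push_cast; rw [omr_coe]
      rw [this, e, i3]
    have w2' : ℘'[L] (((omr ^ 2 : eis) : ℂ) * (Ω / 3)) = ℘'[L] (Ω / 3) := by
      have := dwp_unit hC.lat hou2 (Ω / 3)
      have e : ((omr ^ 2 : eis) : ℂ) = om ^ 2 := by push_cast; rw [omr_coe]
      rw [this, e, i4, one_mul]
    have w3 : ((1 : eis) : ℂ) * (Ω / 3) = Ω / 3 := by
      push_cast
      ring
    have w4 : ℘[L] (((la : eis) : ℂ) * (Ω / 3)) = 0 := by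
      rw [la_coe]
      exact wp_la_third hC
    have w5 : lam * ℘'[L] (((la : eis) : ℂ) * (Ω / 3)) = -℘'[L] (Ω / 3) := by
      rw [la_coe]
      exact dwp_la_third hC
    -- the denominators
    have hX : ∀ u : eis, IsUnit u → ℘[L] z - ℘[L] ((u : ℂ) * (Ω / 3)) ≠ 0 := by
      intro u hu'
      have h2 : z - u * (Ω / 3) ∉ L.lattice := by
        have := hn (-u)
        push_cast at this
        convert this using 1
        ring
      exact wp_sub_ne hz0 (hu u hu') (hn u) h2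
    have d0 := hX 1 isUnit_one
    have d1 := hX omr hou
    have d2 := hX _ hou2
    rw [w3] at d0
    rw [w1] at d1
    rw [w2] at d2
    obtain ⟨s1, s2, -⟩ := partial_one (x0_cube hC) d0 d1 d2
    have elam : lam = om - om ^ 2 := by
      rw [← la_coe, la_eq]
      push_cast
      rw [omr_coe]
    have hlam := lam_ne'
    unfold Dd fk kap bk
    rw [w4, w3, w1, w1', w2, w2', ← hζ]
    set X := ℘[L] z
    set Y := ℘'[L] z
    set x := ℘[L] (Ω / 3)
    set y := ℘'[L] (Ω / 3)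
    set t := ℘'[L] (((la : eis) : ℂ) * (Ω / 3))
    have f1 : (om ^ 2 + om) / 2 * (Y / (X - 0)) + (om ^ 2 - om) / 2 * (t / (0 - X)) =
        -(Y + y) / (2 * X) := by
      have e1 : (om ^ 2 - om) / 2 * (t / (0 - X)) = (lam * t) / (2 * X) := by
        rw [elam, zero_sub, div_neg]
        by_cases hX0 : X = 0
        · rw [hX0]
          simp
        · field_simp
          ring
      have e2 : om ^ 2 + om = -1 := by linear_combination hs
      rw [e1, w5, e2, sub_zero]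
      by_cases hX0 : X = 0
      · rw [hX0]
        simp
      · field_simp
        ring
    have f2 : ∀ a : ℂ, Y / (X - a) = Y * (1 / (X - a)) := fun a => by ring
    have f3 : ∀ a : ℂ, y / (a - X) = -(y * (1 / (X - a))) := fun a => by
      rw [← neg_sub X a, div_neg]
      ring
    rw [f1, f2, f2, f2, f3, f3, f3]
    set A0 := 1 / (X - x)
    set A1 := 1 / (X - om * x)
    set A2 := 1 / (X - om ^ 2 * x)
    have e5 : (ζ * x) ^ 2 = ζ' * x ^ 2 := by rw [mul_pow, hζ2]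
    rw [e5]
    have f4 : (3 / 2 : ℂ) * ((ζ * x * X * (Y + y) + ζ' * x ^ 2 * (Y - y)) / (X ^ 3 + 1)) =
        (1 / 2) * (ζ * (Y + y) * (3 * x * X / (X ^ 3 + 1)) +
          ζ' * (Y - y) * (3 * x ^ 2 / (X ^ 3 + 1))) := by ring
    rw [f4, ← s1, ← s2]
    ring
  rw [hval] at lt
  refine lt.congr fun δ => ?_
  -- the finite sums
  have g1 := EE_la hC δ
  have i1 : om⁻¹ = om ^ 2 :=
    (eq_inv_of_mul_eq_one_left (by linear_combination om_cube)).symm
  have i2 : (om ^ 2)⁻¹ = om :=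
    (eq_inv_of_mul_eq_one_left (by linear_combination om_cube)).symm
  have g2 : EE eis Ω δ (((omr : eis) : ℂ) * (Ω / 3)) = om ^ 2 * EE eis Ω δ (Ω / 3) := by
    have := EE_unit hou Ω δ (Ω / 3)
    rw [this, omr_coe, i1]
  have g3 : EE eis Ω δ (((omr ^ 2 : eis) : ℂ) * (Ω / 3)) = om * EE eis Ω δ (Ω / 3) := by
    have := EE_unit hou2 Ω δ (Ω / 3)
    rw [this]
    push_cast
    rw [omr_coe, i2]
  have g4 : EE eis Ω δ (((1 : eis) : ℂ) * (Ω / 3)) = EE eis Ω δ (Ω / 3) := by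
    congr 1
    push_cast
    ring
  have g5 : EE eis Ω δ (((la : eis) : ℂ) * (Ω / 3)) = 0 := by
    rw [la_coe]
    exact g1
  rw [g2, g3, g4, g5]
  unfold Gk N9
  beta_reduce
  rw [ll_neg, ll_neg, ll_neg, ll_neg, ll_la, ll_one, ll_omr, ll_omr2, ll_zero, neg_neg, neg_neg,
    neg_add, neg_add, neg_neg, neg_neg, toC_w_add, toC_w_add, toC_w_add, toC_w_add, zk_one, zk_two,
    ZMod.val_zero, pow_zero, ← hζ, ← hζ']
  have e0 : z + ((0 : eis) : ℂ) * (Ω / 3) = z := by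
    push_cast
    ring
  rw [e0]
  set E1 := EE eis Ω δ (z + ((la : eis) : ℂ) * (Ω / 3))
  set E2 := EE eis Ω δ (z + ((-la : eis) : ℂ) * (Ω / 3))
  set E3 := EE eis Ω δ (z + ((1 : eis) : ℂ) * (Ω / 3))
  set E4 := EE eis Ω δ (z + ((-1 : eis) : ℂ) * (Ω / 3))
  set E5 := EE eis Ω δ (z + ((omr : eis) : ℂ) * (Ω / 3))
  set E6 := EE eis Ω δ (z + ((-omr : eis) : ℂ) * (Ω / 3))
  set E7 := EE eis Ω δ (z + ((omr ^ 2 : eis) : ℂ) * (Ω / 3))
  set E8 := EE eis Ω δ (z + ((-omr ^ 2 : eis) : ℂ) * (Ω / 3))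
  set E := EE eis Ω δ z
  set T := EE eis Ω δ (Ω / 3)
  linear_combination (-E - (ζ + ζ') * E + ζ * T) * hs + (-2 * ζ' * T + ζ * T * om) * hc3

end Pool.Agent.Helper68.C5.Lim5
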