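import Pool.Agent.Helper68.C5.Lim5

/-!
# The limits of the sums for the characters modulo nine, second part
-/

set_option autoImplicit false
set_option linter.unusedSectionVars false

open Filter
open scoped Topology PeriodPair

namespace Pool.Agent.Helper68.C5.Lim5

open H667R3 Pool.Agent.W192.HK Pool.Agent.TH936.CM Pool.Agent.TH936.PU
open Pool.Agent.Y715.Dist Pool.Agent.Y715.Idn Pool.Agent.Y715.T.Lat Pool.Agent.Y696
open Pool.Agent.Y692.QS (Ei w toC)
open Pool.Agent.Y715.T.Rs (eq0)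
open Pool.Agent.Y703.CT (toC_w_add toC_eq')
open Pool.Agent.Y703.CT.Ana (ej eo_j ej_u ej_ncop ej_prim)
open Pool.Agent.Y715.CT.Hec (la_ne)
open Pool.Agent.Y715.T.Three (lam lam_sq lam_ne')
open Pool.Agent.Helper68.C5.Chr5
open Pool.Agent.Helper68.C2.Lim (toC_w tau tau_eq EE_tau tau_notMem z1 z2)

variable {L : PeriodPair} {Ω : ℂ} {κ : ZMod 3}

lemma fk_per {z z' : ℂ} (h : z - z' ∈ L.lattice) : fk L Ω κ z = fk L Ω κ z' := by
  unfold fk
  rw [Pool.Agent.TH936.PU.wp_per h, Pool.Agent.TH936.PU.dwp_per h]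

lemma ff_coe : ((ff : eis) : ℂ) = 9 := by
  unfold ff
  have e3 : ((3 : eis) : ℂ) = 3 := rfl
  push_cast
  rw [e3]
  norm_num

/-- the limits of the constants -/
noncomputable def Ek (L : PeriodPair) (Ω : ℂ) (κ : ZMod 3) (j : Fin 3) : ℂ :=
  if j = 0 then 6 * fk L Ω κ (w0 Ω) else 0

lemma w0_three (hC : Cur L Ω) : 3 * w0 Ω ∉ L.lattice := by
  have e : 3 * w0 Ω = Ω / 3 := by
    unfold w0
    ring
  rw [e]
  exact hC.third

lemma N9_mul (a : ℂ) (F : eis → ℂ) : N9 (fun t => a * F t) = a * N9 F := by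
  unfold N9
  ring

lemma N9_congr {F G : eis → ℂ} (h : ∀ t, F t = G t) : N9 F = N9 G := by
  have : F = G := funext h
  rw [this]

theorem lim_k (hC : Cur L Ω) [Fintype (eis ⧸ (sp ff : Ideal eis))] (j : Fin 3) :
    Tendsto (fun δ : ℝ => ∑ y : eis ⧸ (sp ff : Ideal eis), ek κ j y.out *
      EE eis Ω δ (Ω * y.out / (ff : eis))) (𝓝[>] 0) (𝓝 (Ek L Ω κ j)) := by
  have hlim := lim_fk (κ := κ) hC (w0_three hC)
  have e0 : Ek L Ω κ j = (if j = 0 then 6 else 0) * fk L Ω κ (w0 Ω) := by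
    unfold Ek
    by_cases hj : j = 0
    · rw [if_pos hj, if_pos hj]
    · rw [if_neg hj, if_neg hj, zero_mul]
  rw [e0]
  refine (hlim.const_mul _).congr fun δ => ?_
  have hper : ∀ x y : eis, x - y ∈ (sp ff : Ideal eis) →
      ek κ j x * EE eis Ω δ (Ω * x / (ff : eis)) = ek κ j y * EE eis Ω δ (Ω * y / (ff : eis)) := by
    intro x y hxy
    rw [(eo_k κ j).per x y hxy]
    congr 1
    apply EE_per hC.lat
    have := (div_mem_iff hC.lat ff_ne (x - y)).2 hxy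
    convert this using 1
    push_cast
    ring
  rw [fifty_sum (fun y => ek κ j y * EE eis Ω δ (Ω * y / (ff : eis)))
    (fun x hx => by rw [ek_ncop j hx, zero_mul]) hper]
  have hall : ∀ u : eis, IsUnit u → (fun u : eis => N9 (fun t =>
      (fun y : eis => ek κ j y * EE eis Ω δ (Ω * y / (ff : eis))) (u * (1 + 3 * t)))) u =
      (u : ℂ) ^ (2 * (j : ℕ)) * Gk Ω κ δ (w0 Ω) := by
    intro u hu
    beta_reduce
    unfold Gk
    rw [← N9_mul]
    apply N9_congr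
    intro t
    have hu0 : (u : ℂ) ≠ 0 := coe_ne hu.ne_zero
    have e3 : ((3 : eis) : ℂ) = 3 := rfl
    have e : Ω * ((u * (1 + 3 * t) : eis) : ℂ) / ((ff : eis) : ℂ) = u * (w0 Ω + t * (Ω / 3)) := by
      rw [ff_coe]
      unfold w0
      push_cast
      rw [e3]
      ring
    rw [(eo_k κ j).mul, ek_u j hu, ek_prim, e, EE_unit hu, pow_succ]
    field_simp
  have hu : ∀ v ∈ ({1, -1, omr, -omr, omr ^ 2, -omr ^ 2} : Set eis), IsUnit v := fun v hv =>
    (unit_list v).2 hv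
  have a1 := hall 1 (hu _ (by simp))
  have a2 := hall (-1) (hu _ (by simp))
  have a3 := hall omr (hu _ (by simp))
  have a4 := hall (-omr) (hu _ (by simp))
  have a5 := hall (omr ^ 2) (hu _ (by simp))
  have a6 := hall (-omr ^ 2) (hu _ (by simp))
  rw [a1, a2, a3, a4, a5, a6]
  push_cast
  rw [omr_coe]
  have h3 := om_cube
  have hs := om_sq
  have hj : (j = 0 ∧ (j : ℕ) = 0) ∨ (j ≠ 0 ∧ (j : ℕ) = 1) ∨ (j ≠ 0 ∧ (j : ℕ) = 2) := by
    clear a1 a2 a3 a4 a5 a6 hall hper e0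
    revert j
    decide
  rcases hj with ⟨h, h'⟩ | ⟨h, h'⟩ | ⟨h, h'⟩
  · rw [if_pos h, h']
    simp only [mul_zero, pow_zero]
    ring
  · rw [if_neg h, h', zero_mul]
    linear_combination (-2 * Gk Ω κ δ (w0 Ω)) * hs + (-2 * om * Gk Ω κ δ (w0 Ω)) * h3
  · rw [if_neg h, h', zero_mul]
    linear_combination (-2 * Gk Ω κ δ (w0 Ω)) * hs +
      (-2 * om * Gk Ω κ δ (w0 Ω) - 2 * Gk Ω κ δ (w0 Ω) * (om ^ 5 + om ^ 2)) * h3

/-- the points -/
lemma pt_three (hC : Cur L Ω) {c : eis} (hc : c ≠ 0) (h3c : IsCoprime 3 c) (x : eis) :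
    3 * (w0 Ω + Ω * x / c) ∉ L.lattice := by
  have e3 : ((3 : eis) : ℂ) = 3 := rfl
  by_cases hx : 3 * x ∈ sp c
  · have hm : Ω * ((3 * x : eis) : ℂ) / c ∈ L.lattice := (div_mem_iff hC.lat hc _).2 hx
    intro h2
    apply w0_three hC
    have h4 := sub_mem h2 hm
    convert h4 using 1
    push_cast
    rw [e3]
    ring
  · have h1 := (cop_notMem (z := 1) hC.lat Pool.Agent.Y696.three_ne hc h3c hx).1
    have e : 3 * (w0 Ω + Ω * x / c) = Ω * ((1 : eis) : ℂ) / ((3 : eis) : ℂ) +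
        Ω * ((3 * x : eis) : ℂ) / c := by
      unfold w0
      push_cast
      rw [e3]
      ring
    rw [e]
    exact h1

/-- **The sum of the three limits.** -/
theorem sum_Ph5 (hC : Cur L Ω) [Fintype (eis ⧸ (sp ff : Ideal eis))] {c : eis}
    (hc : c ≠ 0) (hfc : IsCoprime ff c) (x : eis) :
    ∑ j : Fin 3, Ph L Ω ff (ek κ j) (Ek L Ω κ j) c x =
      3 * (fk L Ω κ (w0 Ω + Ω * x / c) + fk L Ω κ (w0 Ω - Ω * x / c)) := by
  have h3c : IsCoprime 3 c := by
    unfold ff at hfc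
    exact hfc.of_mul_left_left
  have hlimtot : Tendsto (fun δ : ℝ => ∑ j : Fin 3, ∑ y : eis ⧸ (sp ff : Ideal eis), ek κ j y.out *
      EE eis Ω δ (Ω * y.out / (ff : eis) + Ω * x / c)) (𝓝[>] 0)
      (𝓝 (∑ j : Fin 3, Ph L Ω ff (ek κ j) (Ek L Ω κ j) c x)) :=
    tendsto_finsetSum _ fun j _ => lim_Ph hC.lat ff_ne hc hfc (eo_k κ j) (lim_k hC j) x
  have k1 := pt_three hC hc h3c x
  have k2 := pt_three hC hc h3c (-x)
  have ex : w0 Ω + Ω * ((-x : eis) : ℂ) / c = w0 Ω - Ω * x / c := by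
    push_cast
    ring
  rw [ex] at k2
  set u : ℂ := Ω * x / c with hu
  have l1 := lim_fk (κ := κ) hC k1
  have l2 := lim_fk (κ := κ) hC k2
  have l3 := (l1.add l2).const_mul (3 : ℂ)
  refine tendsto_nhds_unique hlimtot (l3.congr fun δ => ?_)
  have hsum : ∑ j : Fin 3, ∑ y : eis ⧸ (sp ff : Ideal eis), ek κ j y.out *
      EE eis Ω δ (Ω * y.out / (ff : eis) + u) =
      ∑ y : eis ⧸ (sp ff : Ideal eis), (fun y : eis => (∑ j : Fin 3, ek κ j y) *
        EE eis Ω δ (Ω * y / (ff : eis) + u)) y.out := by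
    rw [Finset.sum_comm]
    exact Finset.sum_congr rfl fun y _ => (Finset.sum_mul _ _ _).symm
  have hper : ∀ x y : eis, x - y ∈ (sp ff : Ideal eis) →
      (∑ j : Fin 3, ek κ j x) * EE eis Ω δ (Ω * x / (ff : eis) + u) =
      (∑ j : Fin 3, ek κ j y) * EE eis Ω δ (Ω * y / (ff : eis) + u) := by
    intro x y hxy
    rw [Finset.sum_congr rfl fun j _ => (eo_k κ j).per x y hxy]
    congr 1
    apply EE_per hC.lat
    have := (div_mem_iff hC.lat ff_ne (x - y)).2 hxy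
    convert this using 1
    push_cast
    ring
  rw [hsum, fifty_sum (fun y : eis => (∑ j : Fin 3, ek κ j y) *
        EE eis Ω δ (Ω * y / (ff : eis) + u))
    (fun x hx => by
      rw [Finset.sum_eq_zero fun j _ => ek_ncop j hx, zero_mul]) hper]
  -- the sum of the characters
  have hek : ∀ v : eis, IsUnit v → ∀ t : eis, ∑ j : Fin 3, ek κ j (v * (1 + 3 * t)) =
      ((v : ℂ) + (v : ℂ) ^ 3 + (v : ℂ) ^ 5) * toC w ^ (ll κ t).val := by
    intro v hv t
    rw [Fin.sum_univ_three, (eo_k κ 0).mul, (eo_k κ 1).mul, (eo_k κ 2).mul, ek_u 0 hv, ek_u 1 hv,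
      ek_u 2 hv, ek_prim, ek_prim, ek_prim]
    norm_num
    ring
  have hall : ∀ v : eis, IsUnit v → (fun v : eis => N9 (fun t =>
      (fun y : eis => (∑ j : Fin 3, ek κ j y) * EE eis Ω δ (Ω * y / (ff : eis) + u))
        (v * (1 + 3 * t)))) v =
      ((v : ℂ) + (v : ℂ) ^ 3 + (v : ℂ) ^ 5) *
        N9 (fun t => toC w ^ (ll κ t).val * EE eis Ω δ (v * (w0 Ω + t * (Ω / 3)) + u)) := by
    intro v hv
    beta_reduce
    rw [← N9_mul]
    apply N9_congr
    intro t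
    have e3 : ((3 : eis) : ℂ) = 3 := rfl
    have e : Ω * ((v * (1 + 3 * t) : eis) : ℂ) / ((ff : eis) : ℂ) = v * (w0 Ω + t * (Ω / 3)) := by
      rw [ff_coe]
      unfold w0
      push_cast
      rw [e3]
      ring
    rw [hek v hv, e]
    ring
  have hun : ∀ v ∈ ({1, -1, omr, -omr, omr ^ 2, -omr ^ 2} : Set eis), IsUnit v := fun v hv =>
    (unit_list v).2 hv
  have a1 := hall 1 (hun _ (by simp))
  have a2 := hall (-1) (hun _ (by simp))
  have a3 := hall omr (hun _ (by simp))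
  have a4 := hall (-omr) (hun _ (by simp))
  have a5 := hall (omr ^ 2) (hun _ (by simp))
  have a6 := hall (-omr ^ 2) (hun _ (by simp))
  rw [a1, a2, a3, a4, a5, a6]
  push_cast
  rw [omr_coe]
  have z3 : -om + (-om) ^ 3 + (-om) ^ 5 = 0 := by linear_combination -z1
  have z4 : -om ^ 2 + (-om ^ 2) ^ 3 + (-om ^ 2) ^ 5 = 0 := by linear_combination -z2
  rw [z1, z2, z3, z4]
  have n1 : N9 (fun t => toC w ^ (ll κ t).val * EE eis Ω δ (1 * (w0 Ω + t * (Ω / 3)) + u)) =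
      Gk Ω κ δ (w0 Ω + u) := by
    unfold Gk
    apply N9_congr
    intro t
    congr 2
    ring
  have n2 : N9 (fun t => toC w ^ (ll κ t).val * EE eis Ω δ (-1 * (w0 Ω + t * (Ω / 3)) + u)) =
      -Gk Ω κ δ (w0 Ω - u) := by
    unfold Gk
    rw [← neg_one_mul (N9 _), ← N9_mul]
    apply N9_congr
    intro t
    have e : (-1 : ℂ) * (w0 Ω + t * (Ω / 3)) + u = -(w0 Ω - u + t * (Ω / 3)) := by ring
    rw [e, EE_neg]
    ring
  rw [n1, n2]
  ring

end Pool.Agent.Helper68.C5.Lim5
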