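import Pool.Agent.Helper68.C2.Loc3b

/-!
# The local condition at the prime above three, twisting element of valuation two
-/

set_option autoImplicit false
set_option linter.unusedSectionVars false
set_option linter.unusedVariables false

namespace Pool.Agent.Helper68.C5.Loc5

open WeierstrassCurve
open Pool.Agent.Y692.QS
open Pool.Agent.Y715.T.Gi Pool.Agent.Y715.T.Nr Pool.Agent.Y715.T.Df Pool.Agent.Y715.T.Ell
open Pool.Agent.Y715.T.Red Pool.Agent.Y715.T.Thr
open Pool.Agent.Y703.CT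
open Pool.Agent.Y180.CT
open Pool.Agent.Helper68.C2.Loc3b (three_dvd)

open scoped Classical

variable {I : PadicAlgCl 3}

lemma lam_sq' (hI : I ^ 2 + I + 1 = 0) : ev I hI (lam ^ 2) = -3 := by
  rw [map_pow, ev_lam]
  linear_combination 4 * hI

/-- there is no element whose cube has the norm of three -/
lemma no_cube (hI : I ^ 2 + I + 1 = 0) {x : PadicAlgCl 3} (hx : x ∈ Kl I)
    (h : ‖x‖ ^ 3 = 3⁻¹) : False := by
  have h1 := three_dvd (q := 0) (g := 2) (u := 1) hI isUnit_one hx (by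
    rw [mul_zero, add_zero, mul_one, one_mul, lam_sq' hI, norm_neg, norm_three', h])
  omega

section final

variable {i₀ : QB} {hi : i₀ ^ 2 + i₀ + 1 = 0} {D : Ei} {u : QB} {a h : GK i₀ → ZMod 3}
  {ι : QB →ₐ[ℚ] PadicAlgCl 3} {R : Pt (PadicAlgCl 3)}

/-- **The local condition.** -/
theorem core5 {d : Ei} (hDd : D = 3 * d) (hdl : ¬ lam ∣ d) (hT : Tw hi D u a)
    {v q : Ei} (hv : IsUnit v) (hK : Kc hi (v * (1 + 3 * q)) h)
    (hS : St1 hi ι a h R) : v = 1 ∨ v = -1 := by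
  have hI := iota_sq' hi ι
  obtain ⟨d', hd'⟩ : ∃ d', d' = ev (ι i₀) hI d := ⟨_, rfl⟩
  have hdm : d' ∈ Kl (ι i₀) := by rw [hd']; exact ev_mem hI d
  have hd1 : ‖d'‖ = 1 := by
    rw [hd']
    exact eq_one_of_not_lt hI fun h => hdl ((dvd_iff hI prime_lam (lam_lt hI) d).2 h)
  have h3n : ‖(3 : PadicAlgCl 3)‖ = 3⁻¹ := norm_three'
  obtain ⟨δ, hδ⟩ : ∃ δ, δ = ev (ι i₀) hI D := ⟨_, rfl⟩
  have hδd : δ = 3 * d' := by rw [hδ, hDd, map_mul, map_ofNat, hd']
  have hδm : δ ∈ Kl (ι i₀) := by rw [hδ]; exact ev_mem hI D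
  have hδ1 : ‖δ‖ = 3⁻¹ := by rw [hδd, norm_mul, h3n, hd1, mul_one]
  have hU3 : ι u ^ 3 = δ := by
    rw [← map_pow, hT.cube, iota_ev' hi ι, hδ]
  have hδ0 : δ ≠ 0 := by
    intro h0
    rw [h0, norm_zero] at hδ1
    norm_num at hδ1
  have hU0 : ι u ≠ 0 := by
    intro h0
    rw [h0, zero_pow three_ne_zero] at hU3
    exact hδ0 hU3.symm
  -- the cube root
  obtain ⟨s, hs⟩ := IsAlgClosed.exists_pow_nat_eq (ev i₀ hi (v * (1 + 3 * q)))
    (n := 3) (by norm_num)
  have hZ : ι s ^ 3 = ev (ι i₀) hI (v * (1 + 3 * q)) := by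
    rw [← map_pow, hs, iota_ev' hi ι]
  have hts : ∀ (τ : Au 3) (σ : GK i₀), Cmp ι τ σ → τ (ι s) = ι i₀ ^ (h σ).val * ι s := by
    intro τ σ hc
    rw [hc, hK s hs σ, map_mul, map_pow]
  have hvn : ‖ev (ι i₀) hI v‖ = 1 := by
    refine le_antisymm (ev_le hI v) ?_
    obtain ⟨u', hu'⟩ := hv.exists_right_inv
    have h1 : ‖ev (ι i₀) hI v‖ * ‖ev (ι i₀) hI u'‖ = 1 := by
      rw [← norm_mul, ← map_mul, hu', map_one, norm_one]
    by_contra hcon
    push Not at hcon
    have h2 := ev_le hI u'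
    nlinarith [norm_nonneg (ev (ι i₀) hI v), norm_nonneg (ev (ι i₀) hI u')]
  have hqn : ‖ev (ι i₀) hI (1 + 3 * q)‖ = 1 := by
    rw [map_add, map_one, map_mul, map_ofNat]
    exact norm_one_add (ev_le hI q)
  have hZn : ‖ι s ^ 3‖ = 1 := by
    rw [hZ, map_mul, norm_mul, hvn, hqn, one_mul]
  have hZ0 : ι s ^ 3 ≠ 0 := by
    intro h0
    rw [h0, norm_zero] at hZn
    exact zero_ne_one hZn
  have hs0 : ι s ≠ 0 := fun h0 => hZ0 (by rw [h0, zero_pow three_ne_zero])
  have hsn : ‖ι s‖ = 1 := by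
    rw [norm_pow] at hZn
    exact (pow_eq_one_iff_of_nonneg (norm_nonneg _) three_ne_zero).1 hZn
  have hZm : ι s ^ 3 ∈ Kl (ι i₀) := by rw [hZ]; exact ev_mem hI _
  -- the conclusion from a presentation
  have key : ∀ (x z : PadicAlgCl 3), x ∈ Kl (ι i₀) → z ∈ Kl (ι i₀) → ‖z‖ ≤ 1 →
      x ^ 3 * (1 + 3 * z) = ι s ^ 3 → v = 1 ∨ v = -1 := by
    intro x z hx hz hz1 he
    refine (gen hI (v := x) (z := z) (u := v) (q := q) (g := 0) hv (Kl_le hx) hz1 (Kl_le hz)
      ?_).2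
    rw [pow_zero, mul_one, he, hZ]
  by_cases hQ0 : R - im (isE _) hI R = 0
  · -- `R` is a multiple of `T`
    obtain ⟨c, hc⟩ := ker_tt hI hQ0
    have hm : ι s ∈ Kl (ι i₀) := by
      intro τ hτ
      obtain ⟨σ, hcm⟩ := exists_cmp ι τ hτ
      have h1 := hS τ σ hcm
      rw [hc, pm_tt, jj_tt, sub_self] at h1
      have h2 := tt_eq_zero.1 h1.symm
      rw [hts τ σ hcm, h2, ZMod.val_zero, pow_zero, one_mul]
    exact key (ι s) 0 hm (zero_mem _) (by rw [norm_zero]; exact zero_le_one)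
      (by rw [mul_zero, add_zero, mul_one])
  · obtain ⟨x, y, hn, hR⟩ : ∃ x y, ∃ hn : (W0.baseChange (PadicAlgCl 3)).toAffine.Nonsingular x y,
        R = .some x y hn := by
      rcases R with _ | ⟨x, y, hn⟩
      · exfalso
        apply hQ0
        show (0 : Pt (PadicAlgCl 3)) - im (isE _) hI 0 = 0
        rw [map_zero, sub_zero]
      · exact ⟨x, y, hn, rfl⟩
    have he := ((isE _).eqn x y).1 hn.1
    have hx : x ≠ 0 := by
      intro h0
      apply hQ0
      rw [hR, im_some, sub_eq_zero, Affine.Point.some.injEq]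
      exact ⟨by rw [h0, mul_zero], rfl⟩
    obtain ⟨XQ, hnQ, eQ⟩ : ∃ XQ, ∃ hnQ : (W0.baseChange (PadicAlgCl 3)).toAffine.Nonsingular XQ
        (gg (ι i₀) R ^ 3), R - im (isE _) hI R = .some XQ _ hnQ := by
      rw [hR]
      obtain ⟨XQ, hnQ, eQ, -⟩ := one_sub_im (isE _) hI hn hx
      exact ⟨XQ, hnQ, eQ⟩
    by_cases hG : gg (ι i₀) R = 0
    · -- `R - J R = T`
      exfalso
      have hlam := lam_ne (isE (PadicAlgCl 3)) hI
      have hy : y = ι i₀ ^ 2 := by
        rw [hR, gg_some, div_eq_zero_iff] at hG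
        rcases hG with h1 | h1
        · exact sub_eq_zero.1 h1
        · exact absurd h1 (mul_ne_zero hlam hx)
      have h0 := (isE (PadicAlgCl 3)).neg_nons hn
      have hR' : -R = .some x (-y - 1) h0 := by
        rw [hR]
        exact (isE _).neg_eq hn h0
      have hgg : gg (ι i₀) (-R) = 1 / x := by
        rw [hR', gg_some, hy, div_eq_div_iff (mul_ne_zero hlam hx) hx]
        linear_combination (-2 * x) * hI
      have hx3 : x ^ 3 = -1 := by
        rw [← he, hy]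
        linear_combination (ι i₀ ^ 2 - ι i₀ + 1) * hI
      have hW3 : (ι u * gg (ι i₀) (-R)) ^ 3 = -δ := by
        rw [hgg, mul_pow, hU3, div_pow, hx3]
        ring
      have hm : ι s / (ι u * gg (ι i₀) (-R)) ∈ Kl (ι i₀) := by
        intro τ hτ
        obtain ⟨σ, hcm⟩ := exists_cmp ι τ hτ
        rw [map_div₀, hts τ σ hcm, tau_g hT (st1_neg hS) hR' hx hcm]
        have h1 := pow_three hI (-h σ)
        rw [neg_neg] at h1
        rw [← h1, mul_div_mul_left]
        exact pow_ne_zero _ (I_ne (isE (PadicAlgCl 3)) hI)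
      have hWn : ‖ι u * gg (ι i₀) (-R)‖ ^ 3 = 3⁻¹ := by
        rw [← norm_pow, hW3, norm_neg, hδ1]
      refine no_cube hI (inv_mem hm) ?_
      rw [norm_inv, norm_div, hsn, one_div, inv_inv, hWn]
    · -- the general case
      have hW0 : ι u * gg (ι i₀) R ≠ 0 := mul_ne_zero hU0 hG
      have hm : ι s * (ι u * gg (ι i₀) R) ∈ Kl (ι i₀) := by
        intro τ hτ
        obtain ⟨σ, hcm⟩ := exists_cmp ι τ hτ
        rw [map_mul, hts τ σ hcm, tau_g hT hS hR hx hcm]
        have h1 := pow_cancel hI (h σ)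
        linear_combination (ι s * (ι u * gg (ι i₀) R)) * h1
      obtain ⟨W, hW⟩ : ∃ W, W = ι u * gg (ι i₀) R := ⟨_, rfl⟩
      rw [← hW] at hm hW0
      have hYm : W ^ 3 ∈ Kl (ι i₀) := by
        have e : W ^ 3 = (ι s * W) ^ 3 / ι s ^ 3 := by
          rw [mul_pow, mul_div_cancel_left₀ _ hZ0]
        rw [e]
        exact div_mem (pow_mem hm 3) hZm
      obtain ⟨X, hX⟩ : ∃ X, X = ι u ^ 2 * XQ := ⟨_, rfl⟩
      have hXm : X ∈ Kl (ι i₀) := by rw [hX]; exact tau_X hT hS eQ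
      have heq := ((isE _).eqn _ _).1 hnQ.1
      have heY : (W ^ 3) ^ 2 + δ * W ^ 3 = X ^ 3 := by
        rw [hX, hW, ← hU3]
        linear_combination (ι u ^ 6) * heq
      obtain ⟨Y, hY⟩ : ∃ Y, Y = W ^ 3 := ⟨_, rfl⟩
      rw [← hY] at heY hYm
      have hY0 : Y ≠ 0 := by rw [hY]; exact pow_ne_zero 3 hW0
      -- the norm of `Y` is a cube
      have hV0 : ι s * W ≠ 0 := mul_ne_zero hs0 hW0
      have hYn : ‖ι s * W‖ ^ 3 = ‖Y‖ := by
        rw [hY, norm_mul, hsn, one_mul, norm_pow]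
      have hYp : 0 < ‖Y‖ := norm_pos_iff.2 hY0
      have hXn : ‖X‖ ^ 3 = ‖Y‖ * ‖Y + δ‖ := by
        rw [← norm_pow, ← heY, ← norm_mul]
        congr 1
        ring
      obtain ⟨m, hm'⟩ := cube_val hI hYm hm hY0 hYn.symm
      rcases lt_trichotomy ‖Y‖ 3⁻¹ with h1 | h1 | h1
      · exfalso
        have h2 : ‖Y + δ‖ = 3⁻¹ := by
          rw [add_comm, eq_of_lt, hδ1]
          rwa [hδ1]
        rw [h2] at hXn
        refine no_cube hI (div_mem hXm hm) ?_
        rw [norm_div, div_pow, hXn, hYn]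
        field_simp
      · exfalso
        exact no_cube hI hm (by rw [hYn, h1])
      · have h2 : 1 ≤ ‖Y‖ := by
          by_contra hcon
          push Not at hcon
          exact absurd (le_third hm' hcon) (not_le.2 h1)
        -- `Y = V ^ 3 (1 + 3 t)`
        have hz : d' / Y ∈ Kl (ι i₀) := div_mem hdm hYm
        have hz1 : ‖d' / Y‖ ≤ 1 := by
          rw [norm_div, hd1]
          exact (div_le_one hYp).2 h2
        obtain ⟨t, ht, ht1, et⟩ := inv_exK hz hz1
        have e1 : X ^ 3 = Y ^ 2 * (1 + 3 * (d' / Y)) := by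
          rw [← heY, hδd]
          field_simp
        have hX0 : X ≠ 0 := by
          rintro rfl
          rw [zero_pow three_ne_zero] at e1
          rcases mul_eq_zero.1 e1.symm with h4 | h4
          · exact hY0 (pow_eq_zero_iff two_ne_zero |>.1 h4)
          · exact one_add_ne hz1 h4
        refine key (ι s * W * X / Y) t (div_mem (mul_mem hm hXm) hYm) ht ht1 ?_
        have e2 : (ι s * W * X / Y) ^ 3 = ι s ^ 3 * (W ^ 3) * X ^ 3 / Y ^ 3 := by
          ring
        rw [e2, ← hY, e1]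
        have e3 : ι s ^ 3 * Y * (Y ^ 2 * (1 + 3 * (d' / Y))) / Y ^ 3 * (1 + 3 * t) =
            ι s ^ 3 * ((1 + 3 * (d' / Y)) * (1 + 3 * t)) * (Y ^ 3 / Y ^ 3) := by
          ring
        rw [e3, et, div_self (pow_ne_zero 3 hY0), mul_one, mul_one]

end final

end Pool.Agent.Helper68.C5.Loc5
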