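import Pool.Graph.R_seed8.Y145.CT.Tam
import Pool.Graph.R_seed8.Y288.CT.Min
import Pool.Graph.R_seed8.Y703.CT.Defs

/-!
# Minimality and Tamagawa numbers of `y² + 3 N y = x³`
-/

set_option autoImplicit false

open scoped Classical

namespace Pool.Agent.Helper68.C5.Tam5

open Pool.Agent.W97.MT (IsGloballyMinimal)
open Pool.Agent.Y700 (SingRed E0 tam S_E0 PtP)
open Pool.Agent.Y703.CT (WD Base tamProd S_TAM)
open Pool.Agent.Y809.BSD14 (nadd nsub nmul npow nneg ladd lsub lmul lmul' norm_eq_of_lt)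
open WeierstrassCurve.Affine (Point)
open Pool.Agent.Y145.CT

variable {p : ℕ} [Fact p.Prime] {D : ℤ}

theorem tam_three (hE : S_E0) (hp3 : p = 3) (h1 : (p : ℤ) ∣ D) (h3 : ¬ (p : ℤ) ^ 3 ∣ D) :
    tam (WD D) p = 3 := by
  have hD0 : D ≠ 0 := by rintro rfl; exact h3 (dvd_zero _)
  have hD : (D : ℚ_[p]) ≠ 0 := by exact_mod_cast hD0
  have hp1 : (1 : ℝ) < p := by exact_mod_cast (Fact.out : p.Prime).one_lt
  have hn := Padic.norm_eq_zpow_neg_valuation hD
  have hv1 : 1 ≤ (D : ℚ_[p]).valuation := by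
    have h := (Padic.norm_int_le_pow_iff_dvd (p := p) D 1).2 (by simpa using h1)
    rw [hn, zpow_le_zpow_iff_right₀ hp1] at h
    push_cast at h
    omega
  have hv2 : (D : ℚ_[p]).valuation ≤ 2 := by
    have h := mt (Padic.norm_int_le_pow_iff_dvd (p := p) D 3).1 (by simpa using h3)
    rw [hn, zpow_le_zpow_iff_right₀ hp1] at h
    push_cast at h
    omega
  have hDl : ‖(D : ℚ_[p])‖ < 1 := (norm_lt_one_iff_val hD).2 hv1
  have n3 : ‖(3 : ℚ_[p])‖ < 1 := by
    have h4 : (p : ℤ) ∣ 3 := by rw [hp3]; norm_num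
    have h5 := Padic.norm_intCast_lt_one_iff.2 h4
    exact_mod_cast h5
  have n2 : ‖(2 : ℚ_[p])‖ = 1 := by
    refine le_antisymm (by exact_mod_cast Padic.norm_int_le_one (p := p) 2) (not_lt.1 fun h => ?_)
    have h4 : (p : ℤ) ∣ 2 := by
      refine Padic.norm_intCast_lt_one_iff.1 ?_
      exact_mod_cast h
    rw [hp3] at h4
    norm_num at h4
  have hsing : ∀ x y : ℚ_[p], y ^ 2 + D * y = x ^ 3 → (SingRed (WD D) p x y ↔ ‖x‖ < 1) := by
    intro x y he
    rw [sing_iff]
    constructor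
    · rintro ⟨hx1, hy1, -, h⟩
      have hy2 : ‖y‖ < 1 := by
        have e : 2 * y = (2 * y + (D : ℚ_[p])) - (D : ℚ_[p]) := by ring
        have h5 : ‖2 * y‖ < 1 := by
          rw [e]
          exact Pool.Agent.Y809.BSD14.lsub h hDl
        rwa [norm_mul, n2, one_mul] at h5
      have h6 : ‖x ^ 3‖ < 1 := by
        rw [← he]
        refine ladd ?_ ?_
        · rw [pow_two]
          exact lmul hy1 hy2
        · exact lmul hDl.le hy2
      rw [norm_pow] at h6
      by_contra hc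
      rw [not_lt] at hc
      exact absurd h6 (not_lt.2 (one_le_pow₀ hc))
    · intro hx
      have hy : ‖y‖ < 1 := by
        by_contra hc
        rw [not_lt] at hc
        have h4 : ‖(D : ℚ_[p]) * y‖ < ‖y ^ 2‖ := by
          rw [norm_mul, norm_pow]
          nlinarith
        have h5 := norm_eq_of_lt h4
        rw [he, norm_pow, norm_pow] at h5
        have h6 : ‖x‖ ^ 3 < 1 := pow_lt_one₀ (norm_nonneg _) hx (by norm_num)
        have h7 := one_le_pow₀ (n := 2) hc
        linarith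
      refine ⟨hx.le, hy.le, ?_, ladd (lmul Pool.Agent.Y809.BSD14.n2 hy) hDl⟩
      rw [pow_two]
      exact lmul n3.le (lmul hx.le hx)
  have hmem : ∀ {P : PtP (WD D) p} {x y : ℚ_[p]}, At P x y →
      (P ∈ E0 (WD D) p ↔ ¬ ‖x‖ < 1) := by
    intro P x y h
    rw [mem_iff hE h, hsing x y h.eqn]
  obtain ⟨T, hT⟩ := exists_T (p := p) hD
  have hTn := hT.neg
  have hTT := T_add_T hD hT
  rw [tam]
  refine index_of_gen _ T 3 Nat.prime_three ?_ ?_ ?_
  · rw [hmem hT, norm_zero]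
    norm_num
  · have : 3 • T = T + T + T := by abel
    rw [this, hTT, neg_add_cancel]
    exact zero_mem _
  · intro P
    by_cases hP : P ∈ E0 (WD D) p
    · exact ⟨0, by simpa using hP⟩
    have hP0 : P ≠ 0 := fun h0 => hP (by rw [h0]; exact zero_mem _)
    obtain ⟨x, y, hA⟩ := exists_at hP0
    have hx := (not_iff_comm.1 (hmem hA).symm).1 hP
    by_cases hx0 : x = 0
    · subst hx0
      have e1 : y * (y + D) = 0 := by
        have := hA.eqn
        linear_combination this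
      rcases mul_eq_zero.1 e1 with h | h
      · rw [h] at hA
        refine ⟨1, ?_⟩
        rw [one_zsmul, hA.ext hT, sub_self]
        exact zero_mem _
      · have h4 : y = -0 - (D : ℚ_[p]) := by linear_combination h
        rw [h4] at hA
        refine ⟨-1, ?_⟩
        rw [neg_one_zsmul, hA.ext hTn, sub_self]
        exact zero_mem _
    · have hx2 : x ^ 2 ≠ 0 := pow_ne_zero 2 hx0
      have he := hA.eqn
      rcases trans_norm hD hv1 hv2 hx0 hx he with h | h
      · refine ⟨1, ?_⟩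
        rw [one_zsmul, sub_eq_add_neg]
        obtain ⟨y3, h3⟩ := hA.add hTn hx0
        rw [hmem h3, not_lt]
        have e : ((y - (-0 - D)) / (x - 0)) ^ 2 - x - 0 = D * (y + D) / x ^ 2 := by
          rw [sub_zero, sub_zero, div_pow, eq_div_iff hx2, sub_mul, div_mul_cancel₀ _ hx2]
          linear_combination he
        rw [e]
        exact h
      · refine ⟨-1, ?_⟩
        rw [neg_one_zsmul, sub_neg_eq_add]
        obtain ⟨y3, h3⟩ := hA.add hT hx0
        rw [hmem h3, not_lt]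
        have e : ((y - 0) / (x - 0)) ^ 2 - x - 0 = -(D * y / x ^ 2) := by
          rw [sub_zero, sub_zero, sub_zero, div_pow, ← neg_div, eq_div_iff hx2, sub_mul,
            div_mul_cancel₀ _ hx2]
          linear_combination he
        rw [e, norm_neg]
        exact h


lemma three_val {N : ℕ} (hB : Base N) : ¬ (3 : ℤ) ^ 3 ∣ ((3 * N : ℕ) : ℤ) := by
  intro h
  apply hB.2.1
  have h1 : 3 ^ 3 ∣ 3 * N := by exact_mod_cast h
  have h2 : 3 * (3 * 3) ∣ 3 * N := h1
  have h3 := Nat.dvd_of_mul_dvd_mul_left (by norm_num) h2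
  exact (Dvd.intro _ rfl).trans h3

/-- the Tamagawa product -/
theorem tamProd_eq (hE : S_E0) {N : ℕ} (hB : Base N) :
    tamProd (WD ((3 * N : ℕ) : ℤ)) = 3 ^ (N.primeFactors.card + 1) := by
  obtain ⟨hD0, hD3, hcube⟩ := id hB
  have h3 : Fact (Nat.Prime 3) := ⟨Nat.prime_three⟩
  have hfac : (WD ((3 * N : ℕ) : ℤ)).Δ.natAbs.primeFactors = insert 3 N.primeFactors := by
    rw [delta_eq, Int.natAbs_mul, Int.natAbs_pow, Int.natAbs_natCast]
    have e : Int.natAbs (-27) = 3 ^ 3 := rfl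
    rw [e, Nat.primeFactors_mul (by norm_num) (pow_ne_zero 4 (by omega)),
      Nat.primeFactors_pow _ (by norm_num), Nat.primeFactors_pow _ (by norm_num),
      Nat.primeFactors_mul (by norm_num) hD0, Nat.Prime.primeFactors Nat.prime_three]
    rw [← Finset.union_assoc, Finset.union_self]
    rfl
  have hnot : 3 ∉ N.primeFactors := by
    intro h
    exact hD3 (Nat.dvd_of_mem_primeFactors h)
  rw [tamProd, hfac, Finset.prod_insert hnot, dif_pos Nat.prime_three]
  have hall : ∀ p ∈ N.primeFactors, (if h : p.Prime then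
      (haveI := Fact.mk h; tam (WD ((3 * N : ℕ) : ℤ)) p) else 1) = 3 := by
    intro p hp
    have hpp := Nat.prime_of_mem_primeFactors hp
    rw [dif_pos hpp]
    have := Fact.mk hpp
    have hp3 : p ≠ 3 := by
      rintro rfl
      exact hnot hp
    refine tam_dvd hE hp3 ?_ ?_
    · exact_mod_cast Dvd.dvd.mul_left (Nat.dvd_of_mem_primeFactors hp) 3
    · intro h
      apply hcube p hpp
      have h4 : p ^ 3 ∣ 3 * N := by exact_mod_cast h
      have hc : Nat.Coprime (p ^ 3) 3 :=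
        Nat.Coprime.pow_left 3 ((Nat.coprime_primes hpp Nat.prime_three).2 hp3)
      exact hc.dvd_of_dvd_mul_left h4
  have h33 : tam (WD ((3 * N : ℕ) : ℤ)) 3 = 3 := by
    refine tam_three hE rfl ?_ ?_
    · exact_mod_cast Dvd.intro _ rfl
    · have := three_val hB
      exact_mod_cast this
  rw [Finset.prod_congr rfl hall, Finset.prod_const, h33, pow_succ, mul_comm]

theorem den_one {N n : ℕ} (hD : Base N) (h : n ^ 12 ∣ 27 * (3 * N) ^ 4) : n = 1 := by
  obtain ⟨h0, h3, hp3⟩ := hD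
  by_contra hn
  obtain ⟨p, hp, hpn⟩ := Nat.exists_prime_and_dvd hn
  have h1 : p ^ 12 ∣ 27 * (3 * N) ^ 4 := (pow_dvd_pow_of_dvd hpn 12).trans h
  have h1' : p ^ 12 ∣ 3 ^ 7 * N ^ 4 := by
    have e : 27 * (3 * N) ^ 4 = 3 ^ 7 * N ^ 4 := by ring
    rwa [e] at h1
  by_cases hp' : p = 3
  · subst hp'
    have hc : Nat.Coprime (3 ^ 12) (N ^ 4) := by
      apply Nat.Coprime.pow
      exact (Nat.Prime.coprime_iff_not_dvd Nat.prime_three).2 h3
    have h2 := hc.dvd_of_dvd_mul_right h1'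
    have h4 := Nat.le_of_dvd (by norm_num) h2
    norm_num at h4
  · have hc : Nat.Coprime (p ^ 12) (3 ^ 7) := by
      apply Nat.Coprime.pow
      exact (Nat.coprime_primes hp Nat.prime_three).2 hp'
    have h2 := hc.dvd_of_dvd_mul_left h1'
    have h4 : (p ^ 3) ^ 4 ∣ N ^ 4 := by
      rw [← pow_mul]
      exact h2
    exact hp3 p hp ((Nat.pow_dvd_pow_iff (by norm_num)).1 h4)

/-- the equation is globally minimal -/
theorem minimal {N : ℕ} (hD : Base N) : IsGloballyMinimal (WD ((3 * N : ℕ) : ℤ)) := by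
  have hΔ := delta_eq ((3 * N : ℕ) : ℤ)
  have hD0 : ((3 * N : ℕ) : ℤ) ≠ 0 := by
    have := hD.1
    exact_mod_cast (by omega : 3 * N ≠ 0)
  refine ⟨?_, ?_⟩
  · rw [hΔ]
    exact mul_ne_zero (by norm_num) (pow_ne_zero _ hD0)
  · intro W' C h
    have h1 := congrArg WeierstrassCurve.Δ h
    rw [WeierstrassCurve.variableChange_Δ, WeierstrassCurve.map_Δ, WeierstrassCurve.map_Δ] at h1
    simp only [eq_intCast] at h1
    obtain ⟨q, hq⟩ : ∃ q : ℚ, q = ((C.u⁻¹ : ℚˣ) : ℚ) := ⟨_, rfl⟩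
    rw [← hq] at h1
    have hq0 : q ≠ 0 := by rw [hq]; exact Units.ne_zero _
    have h2 : (q.num : ℚ) ^ 12 * ((WD ((3 * N : ℕ) : ℤ)).Δ : ℚ) =
        (W'.Δ : ℚ) * (q.den : ℚ) ^ 12 := by
      have hd : (q.den : ℚ) ≠ 0 := by exact_mod_cast q.den_ne_zero
      rw [← h1]
      have hnd : q * q.den = q.num := Rat.mul_den_eq_num q
      rw [← hnd]
      ring
    have h3 : q.num ^ 12 * (WD ((3 * N : ℕ) : ℤ)).Δ = W'.Δ * (q.den : ℤ) ^ 12 := by
      exact_mod_cast h2
    have hcop : IsCoprime ((q.den : ℤ) ^ 12) (q.num ^ 12) := by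
      refine IsCoprime.pow ?_
      rw [Int.isCoprime_iff_gcd_eq_one, Int.gcd_comm]
      exact q.reduced
    have h4 : (q.den : ℤ) ^ 12 ∣ (WD ((3 * N : ℕ) : ℤ)).Δ :=
      hcop.dvd_of_dvd_mul_left ⟨W'.Δ, by rw [h3]; ring⟩
    have h5 : q.den ^ 12 ∣ 27 * (3 * N) ^ 4 := by
      have h6 : ((q.den ^ 12 : ℕ) : ℤ) ∣ ((27 * (3 * N) ^ 4 : ℕ) : ℤ) := by
        push_cast
        refine h4.trans ?_
        rw [hΔ]
        exact ⟨-1, by push_cast; ring⟩
      exact_mod_cast h6
    have h8 := den_one hD h5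
    rw [h8] at h3
    have h9 : W'.Δ = q.num ^ 12 * (WD ((3 * N : ℕ) : ℤ)).Δ := by rw [h3]; simp
    rw [h9, abs_mul]
    have h10 : 1 ≤ |q.num ^ 12| := by
      apply Int.one_le_abs
      exact pow_ne_zero _ (Rat.num_ne_zero.2 hq0)
    nlinarith [abs_nonneg (WD ((3 * N : ℕ) : ℤ)).Δ]

end Pool.Agent.Helper68.C5.Tam5
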