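import Pool.Agent.Helper68.C5.AN5
import Pool.Agent.Helper68.C5.Tam5
import Pool.Agent.Helper68.C5.LQ5
import Pool.Agent.Helper68.C2.Val2

/-!
# The valuation of the central value for `3 N`
-/

set_option autoImplicit false
set_option linter.unusedVariables false
set_option linter.unusedSectionVars false

open scoped Classical

namespace Pool.Agent.Helper68.C5.Val5

open Pool.Agent.W97.MT (affCount ap IsGloballyMinimal)
open Pool.Agent.Y700 (psi Omega SingRed E0 tam S_E0)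
open Pool.Agent.Y692.QS (Ei w nr toC)
open Pool.Agent.Y715.T.Rec (cs)
open Pool.Agent.Y715.T.RecG (Pq)
open Pool.Agent.Y703.CT
open Pool.Agent.Y715.T.Cg (Cg z_pow)
open Pool.Agent.Y715.T.Three (lam lam_ne lam_lt lam_ne' lam_pos sq_three v_nine)
open Pool.Agent.Y715.T.Om (Om Om_pos exists_lat)
open Pool.Agent.Y696 (Cur)
open Pool.Agent.Helper68.C2 (Val2.am_eq Val2.sum_am Val2.sym)
open Pool.Agent.Helper68.C2.Comb2 (Ker2 D2_ne D2_zero dn)
open Pool.Agent.Helper68.C5.Chr5 (ts)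

variable {J : Type} [Fintype J] {π : J → Ei} {e : J → ZMod 3} {κ : ZMod 3}

lemma ker_iff (hD : Dt π e) :
    Ker2 (am π (fun j => -e j)) (fun i => ts κ (π i)) ↔ KerW π e κ := by
  unfold Ker2 KerW
  simp only [Val2.sum_am hD]

/-- the determinant and the kernel -/
theorem det_iff (hD : Dt π e) :
    (KerW π e κ → Pool.Agent.Y715.T.Comb.D (Pool.Agent.Helper68.C2.Comb2.ap (am π (fun j => -e j))
      (fun i => ts κ (π i)) (fun i => e i * ts κ (π i))) dn Finset.univ ≠ 0) ∧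
    (¬ KerW π e κ → Pool.Agent.Y715.T.Comb.D (Pool.Agent.Helper68.C2.Comb2.ap (am π (fun j => -e j))
      (fun i => ts κ (π i)) (fun i => e i * ts κ (π i))) dn Finset.univ = 0) := by
  constructor
  · intro hk
    exact D2_ne hD.e0 (Val2.sym hD) ((ker_iff hD).2 hk)
  · intro hk
    exact D2_zero hD.e0 (Val2.sym hD) fun h => hk ((ker_iff hD).1 h)

/-- the value up to the real period `Om` -/
theorem val_real (hD : Dt π e) :
    ∃ F : ℂ → ℂ, IsHL5 π (fun j => -e j) κ F ∧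
      ∀ (Γ : Type) [LinearOrderedCommGroupWithZero Γ] (v : Valuation ℂ Γ), v 3 < 1 →
        ∃ g g₀ : Γ, g ≤ 1 ∧ (KerW π e κ → g = 1) ∧ (¬ KerW π e κ → g < 1) ∧
          g₀ ^ 3 = v lam ^ 7 ∧
          v (F 1 / Om) * v lam ^ 4 = g₀ * (v lam ^ Fintype.card J * g) := by
  obtain ⟨F, hF, hval⟩ := AN5.an_val (κ := κ) hD.neg
  obtain ⟨hd1, hd0⟩ := det_iff (κ := κ) hD
  refine ⟨F, hF, ?_⟩
  intro Γ _ v hv
  obtain ⟨L, ξ, hξ, hL⟩ := exists_lat
  have hv' : (v.comap (starRingEnd ℂ)) 3 < 1 := by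
    rw [Valuation.comap_apply, map_ofNat]
    exact hv
  obtain ⟨s, g₀, hs, hg0, h1⟩ := hval Γ (v.comap (starRingEnd ℂ)) hv' L _ hL
    (fun i => e i * ts κ (π i))
  have h2 : (v.comap (starRingEnd ℂ)) lam = v lam := by
    rw [Valuation.comap_apply, conj_lam, v.map_neg]
  rw [h2] at h1 hg0
  refine ⟨(v.comap (starRingEnd ℂ)) s, g₀, hs.le, fun hk => hs.eq_one hv' (hd1 hk),
    fun hk => ?_, hg0, ?_⟩
  · rw [hd0 hk] at hs
    exact hs.lt_one
  · have hξv : v ((starRingEnd ℂ) ξ) = 1 := by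
      refine z_pow (k := 12) (by norm_num) ?_
      rw [← map_pow, hξ, map_one]
    rw [← h1]
    congr 1
    rw [Valuation.comap_apply, map_div₀ (starRingEnd ℂ), Complex.conj_conj,
      map_mul (starRingEnd ℂ), Complex.conj_ofReal, map_div₀, map_div₀, map_mul, hξv, mul_one]

end Pool.Agent.Helper68.C5.Val5
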